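import Pool.Agent.L7h71.CC.Fam

set_option autoImplicit false

/-!
Copies of the non-algebraic part of a rich structure.
-/

namespace Pool.Agent.L7h71.CC

open Function Set MeasureTheory Filter
open Pool.Agent.L7h71.COV (Str Iso)

variable {a : ℕ → ℕ} {y : St a ℕ}

open Classical in
/-- reference pairs for copies -/
noncomputable def cref {V : Type} (y : St a ℕ) (κ : V → ℕ) (C : V → V → Prop)
    (gen : V → V → ℕ × ℕ) (v w : V) : ℕ × ℕ :=
  if Fi y (κ v) ∨ Fi y (κ w) ∨ C v w then (κ v, κ w) else gen v w

theorem copies (hy : Rich y) {V : Type} (κ : V → ℕ) (C : V → V → Prop) (gen : V → V → ℕ × ℕ)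
    (hfi : ∀ v w, Fi y (κ v) → κ v = κ w → v = w) (hfs : ∀ u, Fi y u → ∃ v, κ v = u)
    (hinf : ∀ u, ¬ Fi y u → {v | κ v = u}.Infinite)
    (hCs : ∀ v w, C v w → C w v)
    (hCne : ∀ v w, v ≠ w → ¬ Fi y (κ v) → C v w → κ v ≠ κ w)
    (hgs : ∀ v w, ¬ Fi y (κ v) → ¬ Fi y (κ w) → v ≠ w → ¬ C v w → gen w v = (gen v w).swap)
    (hgm : ∀ v w, ¬ Fi y (κ v) → ¬ Fi y (κ w) → v ≠ w → ¬ C v w →
      MB y (gen v w).1 (gen v w).2)
    (hgt : ∀ v w, ¬ Fi y (κ v) → ¬ Fi y (κ w) → v ≠ w → ¬ C v w →
      tp y (gen v w).1 (gen v w).1 = tp y (κ v) (κ v))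
    (hlift : ∀ v, ¬ Fi y (κ v) → ∀ u, ¬ Fi y u → u ≠ κ v → ¬ MB y (κ v) u →
      ∃! w, κ w = u ∧ C v w)
    (hbig : ∀ v, ¬ Fi y (κ v) → ∀ u, ¬ Fi y u → MB y (κ v) u →
      {w | w ≠ v ∧ tp y (cref y κ C gen v w).1 (cref y κ C gen v w).2 = tp y (κ v) u}.Infinite) :
    Good y κ (cref y κ C gen) := by
  classical
  refine hy.good ?_ ?_ ?_ ?_
  · intro v w h
    unfold cref
    by_cases h1 : Fi y (κ v) ∨ Fi y (κ w) ∨ C v w
    · have h2 : Fi y (κ w) ∨ Fi y (κ v) ∨ C w v := by
        rcases h1 with h1 | h1 | h1
        · exact Or.inr (Or.inl h1)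
        · exact Or.inl h1
        · exact Or.inr (Or.inr (hCs _ _ h1))
      rw [if_pos h1, if_pos h2]
      rfl
    · have h2 : ¬ (Fi y (κ w) ∨ Fi y (κ v) ∨ C w v) := by
        rintro (h2 | h2 | h2)
        · exact h1 (Or.inr (Or.inl h2))
        · exact h1 (Or.inl h2)
        · exact h1 (Or.inr (Or.inr (hCs _ _ h2)))
      rw [if_neg h1, if_neg h2]
      push Not at h1
      exact hgs v w h1.1 h1.2.1 h h1.2.2
  · intro v w h
    unfold cref
    by_cases h1 : Fi y (κ v) ∨ Fi y (κ w) ∨ C v w
    · rw [if_pos h1]
      by_cases h2 : Fi y (κ v)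
      · exact fun h3 => h (hfi v w h2 h3)
      · by_cases h3 : Fi y (κ w)
        · exact fun h4 => h (hfi w v h3 h4.symm).symm
        · exact hCne v w h h2 ((h1.resolve_left h2).resolve_left h3)
    · rw [if_neg h1]
      push Not at h1
      exact (hgm v w h1.1 h1.2.1 h h1.2.2).1
  · intro v w h
    unfold cref
    by_cases h1 : Fi y (κ v) ∨ Fi y (κ w) ∨ C v w
    · rw [if_pos h1]
    · rw [if_neg h1]
      push Not at h1
      exact hgt v w h1.1 h1.2.1 h h1.2.2
  · intro v u hu
    by_cases hfu : Fi y u
    · have h1 : {w' | w' ≠ v ∧ tp y (cref y κ C gen v w').1 (cref y κ C gen v w').2 =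
          tp y (κ v) u} = {w' | tp y (κ v) (κ w') = tp y (κ v) u} := by
        ext w'
        simp only [mem_ofPred_eq]
        constructor
        · rintro ⟨h2, h3⟩
          have h4 : Fi y (κ w') := by
            by_contra h4
            unfold cref at h3
            by_cases h5 : Fi y (κ v) ∨ Fi y (κ w') ∨ C v w'
            · rw [if_pos h5] at h3
              exact h4 ((Fi.congr (tp_right h3)).2 hfu)
            · rw [if_neg h5] at h3
              push Not at h5
              have h6 := hgm v w' h5.1 h5.2.1 (Ne.symm h2) h5.2.2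
              exact Rich.mb_inf h6.2.1 ((Fi.congr (tp_right h3)).2 hfu)
          unfold cref at h3
          rw [if_pos (Or.inr (Or.inl h4))] at h3
          exact h3
        · intro h3
          have h4 : Fi y (κ w') := (Fi.congr (tp_right h3)).2 hfu
          refine ⟨?_, ?_⟩
          · rintro rfl
            exact hu ((tp_ne h3).1 rfl).symm
          · unfold cref
            rw [if_pos (Or.inr (Or.inl h4))]
            exact h3
      rw [h1]
      have h2 : {w1 | tp y (κ v) w1 = tp y (κ v) u} =
          κ '' {w' | tp y (κ v) (κ w') = tp y (κ v) u} := by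
        ext w1
        constructor
        · intro h3
          have h4 : Fi y w1 := (Fi.congr (tp_right h3)).2 hfu
          obtain ⟨w', rfl⟩ := hfs w1 h4
          exact ⟨w', h3, rfl⟩
        · rintro ⟨w', h3, rfl⟩
          exact h3
      rw [h2, InjOn.encard_image]
      intro w hw w' hw' hww
      exact hfi w w' ((Fi.congr (tp_right hw)).2 hfu) hww
    · by_cases hfv : Fi y (κ v)
      · have h1 : {w1 | tp y (κ v) w1 = tp y (κ v) u}.Infinite := hy.fi_inf hfv hfu
        have h2 : {w' | w' ≠ v ∧ tp y (cref y κ C gen v w').1 (cref y κ C gen v w').2 =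
            tp y (κ v) u}.Infinite := by
          refine (hinf u hfu).mono ?_
          rintro w' rfl
          refine ⟨fun h => hu (by rw [h]), ?_⟩
          unfold cref
          rw [if_pos (Or.inl hfv)]
        rw [h1.encard_eq, h2.encard_eq]
      · by_cases hmb : MB y (κ v) u
        · rw [(hbig v hfv u hfu hmb).encard_eq, Set.Infinite.encard_eq hmb.2.1]
        · have hA : ∀ w1, tp y (κ v) w1 = tp y (κ v) u → ∃! w, κ w = w1 ∧ C v w := by
            intro w1 h1
            refine hlift v hfv w1 (fun h => hfu ((Fi.congr (tp_right h1)).1 h)) ?_ ?_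
            · rintro rfl
              exact hu ((tp_ne h1).1 rfl).symm
            · rw [hy.mb h1]
              exact hmb
          have hsub : {w' | (tp y (κ v) (κ w') = tp y (κ v) u) ∧ C v w'} ⊆
              {w' | w' ≠ v ∧ tp y (cref y κ C gen v w').1 (cref y κ C gen v w').2 =
                tp y (κ v) u} := by
            rintro w' ⟨h1, h2⟩
            refine ⟨?_, ?_⟩
            · rintro rfl
              exact hu ((tp_ne h1).1 rfl).symm
            · unfold cref
              rw [if_pos (Or.inr (Or.inr h2))]
              exact h1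
          have himg : {w1 | tp y (κ v) w1 = tp y (κ v) u} =
              κ '' {w' | (tp y (κ v) (κ w') = tp y (κ v) u) ∧ C v w'} := by
            ext w1
            constructor
            · intro h1
              obtain ⟨w, ⟨h2, h3⟩, _⟩ := hA w1 h1
              refine ⟨w, ⟨?_, h3⟩, h2⟩
              rw [h2]
              exact h1
            · rintro ⟨w, ⟨h2, _⟩, rfl⟩
              exact h2
          have hinj : InjOn κ {w' | (tp y (κ v) (κ w') = tp y (κ v) u) ∧ C v w'} := by
            rintro w ⟨h1, h2⟩ w' ⟨h3, h4⟩ hww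
            obtain ⟨w0, _, h5⟩ := hA (κ w) h1
            rw [h5 w ⟨rfl, h2⟩, h5 w' ⟨hww.symm, h4⟩]
          by_cases hlb : LB y (κ v) u
          · have h1 : {w1 | tp y (κ v) w1 = tp y (κ v) u}.Infinite := hlb
            have h2 : {w' | (tp y (κ v) (κ w') = tp y (κ v) u) ∧ C v w'}.Infinite := by
              intro hf
              apply h1
              rw [himg]
              exact hf.image κ
            rw [h1.encard_eq, (h2.mono hsub).encard_eq]
          · have h1 : {w' | w' ≠ v ∧ tp y (cref y κ C gen v w').1 (cref y κ C gen v w').2 =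
                tp y (κ v) u} = {w' | (tp y (κ v) (κ w') = tp y (κ v) u) ∧ C v w'} := by
              apply Subset.antisymm _ hsub
              rintro w' ⟨h2, h3⟩
              have h4 : C v w' := by
                by_contra h4
                unfold cref at h3
                by_cases h5 : Fi y (κ v) ∨ Fi y (κ w') ∨ C v w'
                · rw [if_pos h5] at h3
                  rcases h5 with h5 | h5 | h5
                  · exact hfv h5
                  · exact hfu ((Fi.congr (tp_right h3)).1 h5)
                  · exact h4 h5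
                · rw [if_neg h5] at h3
                  push Not at h5
                  have h6 := hgm v w' h5.1 h5.2.1 (Ne.symm h2) h5.2.2
                  exact hlb ((hy.lb h3).1 h6.2.1)
              refine ⟨?_, h4⟩
              unfold cref at h3
              rw [if_pos (Or.inr (Or.inr h4))] at h3
              exact h3
            rw [h1, himg, hinj.encard_image]

end Pool.Agent.L7h71.CC
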