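import Pool.Agent.L7h71.CC.Copy

set_option autoImplicit false

/-!
Two generic types between the same types give perfectly many structures.
-/

namespace Pool.Agent.L7h71.CC

open Function Set MeasureTheory Filter
open Pool.Agent.L7h71.COV (Str Iso)

variable {a : ℕ → ℕ}

theorem MB.symm {y : St a ℕ} {u w : ℕ} (h : MB y u w) : MB y w u := ⟨h.1.symm, h.2.2, h.2.1⟩

/-- two generic types between the same types -/
structure Dbl (y : St a ℕ) where
  P : Bool → ℕ × ℕ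
  mb : ∀ b, MB y (P b).1 (P b).2
  t1 : ∀ b, tp y (P b).1 (P b).1 = tp y (P false).1 (P false).1
  t2 : ∀ b, tp y (P b).2 (P b).2 = tp y (P false).2 (P false).2
  ne : tp y (P false).1 (P false).2 ≠ tp y (P true).1 (P true).2
  alt : tp y (P false).1 (P false).1 ≠ tp y (P false).2 (P false).2 ∨
    (∀ b, tp y (P b).2 (P b).1 = tp y (P b).1 (P b).2) ∨
    (∀ b, tp y (P b).2 (P b).1 = tp y (P (!b)).1 (P (!b)).2)

namespace Dbl

variable {y : St a ℕ} (E : Dbl y)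

/-- order of the copies -/
def ltJ (i j : ℕ × ℕ) : Prop := i.1 < j.1 ∨ (i.1 = j.1 ∧ i.2 < j.2)

theorem ltJ_total {i j : ℕ × ℕ} (h : i ≠ j) : ltJ i j ∨ ltJ j i := by
  unfold ltJ
  rcases Nat.lt_trichotomy i.1 j.1 with h1 | h1 | h1
  · exact Or.inl (Or.inl h1)
  · rcases Nat.lt_trichotomy i.2 j.2 with h2 | h2 | h2
    · exact Or.inl (Or.inr ⟨h1, h2⟩)
    · exact absurd (Prod.ext h1 h2) h
    · exact Or.inr (Or.inr ⟨h1.symm, h2⟩)
  · exact Or.inr (Or.inl h1)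

theorem ltJ_asymm {i j : ℕ × ℕ} (h : ltJ i j) : ¬ ltJ j i := by
  unfold ltJ at *
  omega

/-- special pairs -/
def Hs (β : Bool) (v w : ℕ × (ℕ × ℕ)) : Prop :=
  (v.1 = (E.P false).1 ∧ v.2.1 < 3 ∧ w.1 = (E.P false).2 ∧ w.2.1 = 4) ∨
  (v.1 = (E.P false).1 ∧ v.2.1 = 3 ∧ w.1 = (E.P false).2 ∧ 5 ≤ w.2.1) ∨
  (v.1 = (E.P false).1 ∧ v.2.1 = 3 ∧ w.1 = (E.P false).2 ∧ w.2.1 = 4 ∧
    (w.2.2 < 2 * v.2.2 + 1 ∨ (w.2.2 = 2 * v.2.2 + 1 ∧ β = true))) ∨
  (v.2.1 = 0 ∧ w.2.1 = 2) ∨ (v.2.1 = 5 ∧ w.2.1 = 7)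

open Classical in
/-- generic pair for copies in order -/
noncomputable def G (β : Bool) (v w : ℕ × (ℕ × ℕ)) : ℕ × ℕ :=
  if tp y v.1 v.1 = tp y (E.P false).1 (E.P false).1 ∧
    tp y w.1 w.1 = tp y (E.P false).2 (E.P false).2 then E.P (decide (E.Hs β v w))
  else if tp y v.1 v.1 = tp y (E.P false).2 (E.P false).2 ∧
    tp y w.1 w.1 = tp y (E.P false).1 (E.P false).1 then (E.P false).swap
  else if h : ∃ w', tp y w' w' = tp y w.1 w.1 ∧ MB y v.1 w' then (v.1, Classical.choose h)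
  else (0, 0)

/-- the vertices -/
abbrev V (y : St a ℕ) : Type := {p : ℕ × (ℕ × ℕ) // (Fi y p.1 → p.2 = (0, 0)) ∧ p.2.1 ≤ 7 ∧
  (p.2.1 < 3 ∨ 5 ≤ p.2.1 → p.2.2 = 0)}

open Classical in
/-- generic pairs -/
noncomputable def gen (b : ℕ → Bool) (v w : V y) : ℕ × ℕ :=
  if ltJ v.1.2 w.1.2 then E.G (b v.1.2.2) v.1 w.1 else (E.G (b w.1.2.2) w.1 v.1).swap

theorem G_spec (hy : Rich y) (β : Bool) (v w : ℕ × (ℕ × ℕ)) (hv : ¬ Fi y v.1)
    (hw : ¬ Fi y w.1) : MB y (E.G β v w).1 (E.G β v w).2 ∧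
      tp y (E.G β v w).1 (E.G β v w).1 = tp y v.1 v.1 ∧
      tp y (E.G β v w).2 (E.G β v w).2 = tp y w.1 w.1 := by
  classical
  unfold G
  split_ifs with h1 h2 h3
  · exact ⟨E.mb _, (E.t1 _).trans h1.1.symm, (E.t2 _).trans h1.2.symm⟩
  · exact ⟨(E.mb _).symm, h2.1.symm, h2.2.symm⟩
  · exact ⟨(Classical.choose_spec h3).2, rfl, (Classical.choose_spec h3).1⟩
  · exact absurd (hy.mb_ex hv hw) h3

/-- the reference pairs -/
noncomputable def rf (b : ℕ → Bool) : V y → V y → ℕ × ℕ :=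
  cref y (fun v => v.1.1) (fun v w => v.1.2 = w.1.2) (E.gen b)

theorem good (hy : Rich y) (b : ℕ → Bool) : Good y (fun v : V y => v.1.1) (E.rf b) := by
  classical
  have hgm : ∀ v w : V y, ¬ Fi y v.1.1 → ¬ Fi y w.1.1 →
      MB y (E.gen b v w).1 (E.gen b v w).2 := by
    intro v w hv hw
    unfold gen
    split_ifs
    · exact (E.G_spec hy _ _ _ hv hw).1
    · exact (E.G_spec hy _ _ _ hw hv).1.symm
  refine copies hy _ _ _ ?_ ?_ ?_ ?_ ?_ ?_ ?_ ?_ ?_ ?_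
  · intro v w hv hvw
    apply Subtype.ext
    refine Prod.ext hvw ?_
    rw [v.2.1 hv, w.2.1 (by rw [← hvw]; exact hv)]
  · intro u hu
    exact ⟨⟨(u, (0, 0)), fun _ => rfl, by simp, fun _ => rfl⟩, rfl⟩
  · intro u hu
    refine infinite_of_injective_forall_mem (f := fun n : ℕ => (⟨(u, (3, n)),
      fun h => absurd h hu, by simp, fun h => by simp at h⟩ : V y)) ?_ fun n => rfl
    intro m n h
    have := congrArg (fun v : V y => v.1.2.2) h
    exact this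
  · intro v w h
    exact h.symm
  · intro v w h _ h2 h3
    exact h (Subtype.ext (Prod.ext h3 h2))
  · intro v w _ _ _ h
    unfold gen
    rcases ltJ_total h with h1 | h1
    · rw [if_pos h1, if_neg (ltJ_asymm h1)]
    · rw [if_pos h1, if_neg (ltJ_asymm h1)]
      rfl
  · intro v w hv hw _ _
    exact hgm v w hv hw
  · intro v w hv hw _ _
    unfold gen
    split_ifs
    · exact (E.G_spec hy _ _ _ hv hw).2.1
    · exact (E.G_spec hy _ _ _ hw hv).2.2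
  · intro v hv u hu huv _
    refine ⟨⟨(u, v.1.2), fun h => absurd h hu, v.2.2⟩, ⟨rfl, rfl⟩, ?_⟩
    rintro w ⟨rfl, hw⟩
    exact Subtype.ext (Prod.ext rfl hw.symm)
  · intro v hv u hu hmb
    have h1 : {w1 | tp y v.1.1 w1 = tp y v.1.1 u}.Infinite := hmb.2.1
    intro hf
    apply h1
    refine (hf.image fun w : V y => w.1.1).subset ?_
    intro w1 hw1
    have h2 : ¬ Fi y w1 := fun h => hu ((Fi.congr (tp_right hw1)).1 h)
    refine ⟨⟨(w1, v.1.2), fun h => absurd h h2, v.2.2⟩, ⟨?_, ?_⟩, rfl⟩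
    · intro h
      have h3 : w1 = v.1.1 := congrArg (fun v : V y => v.1.1) h
      exact hmb.1 ((tp_ne hw1).1 h3.symm)
    · unfold cref
      rw [if_pos (Or.inr (Or.inr rfl))]
      exact hw1

/-- the type in the new structure -/
def T (b : ℕ → Bool) (v w : V y) : Set (Fo a) :=
  tp y (rp (fun v : V y => v.1.1) (E.rf b) v w).1 (rp (fun v : V y => v.1.1) (E.rf b) v w).2

theorem T_cross (b : ℕ → Bool) {v w : V y} (hv : ¬ Fi y v.1.1) (hw : ¬ Fi y w.1.1)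
    (h : v.1.2 ≠ w.1.2) : E.T b v w = tp y (E.gen b v w).1 (E.gen b v w).2 := by
  unfold T rp rf cref
  rw [if_neg (fun h1 : v = w => h (by rw [h1])), if_neg]
  rintro (h1 | h1 | h1)
  · exact hv h1
  · exact hw h1
  · exact h h1

/-- copies in order -/
theorem T_lt (b : ℕ → Bool) {v w : V y} (hv : ¬ Fi y v.1.1) (hw : ¬ Fi y w.1.1)
    (h : ltJ v.1.2 w.1.2) (h1 : tp y v.1.1 v.1.1 = tp y (E.P false).1 (E.P false).1)
    (h2 : tp y w.1.1 w.1.1 = tp y (E.P false).2 (E.P false).2) :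
    (E.T b v w = tp y (E.P true).1 (E.P true).2) ↔ E.Hs (b v.1.2.2) v.1 w.1 := by
  classical
  rw [E.T_cross b hv hw (by intro h3; rw [h3] at h; exact ltJ_asymm h h)]
  unfold gen
  rw [if_pos h]
  unfold G
  rw [if_pos ⟨h1, h2⟩]
  by_cases h3 : E.Hs (b v.1.2.2) v.1 w.1
  · simp [h3]
  · simp only [h3, decide_false, iff_false]
    exact E.ne

/-- copies in opposite order -/
theorem T_gt (b : ℕ → Bool) {v w : V y} (hv : ¬ Fi y v.1.1) (hw : ¬ Fi y w.1.1)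
    (h : ltJ w.1.2 v.1.2) (h1 : tp y v.1.1 v.1.1 = tp y (E.P false).1 (E.P false).1)
    (h2 : tp y w.1.1 w.1.1 = tp y (E.P false).2 (E.P false).2)
    (h3 : E.T b v w = tp y (E.P true).1 (E.P true).2) :
    (tp y (E.P false).1 (E.P false).1 = tp y (E.P false).2 (E.P false).2) ∧
    ((∀ b, tp y (E.P b).2 (E.P b).1 = tp y (E.P b).1 (E.P b).2) →
      E.Hs (b w.1.2.2) w.1 v.1) ∧
    ((∀ b, tp y (E.P b).2 (E.P b).1 = tp y (E.P (!b)).1 (E.P (!b)).2) →
      ¬ E.Hs (b w.1.2.2) w.1 v.1) := by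
  classical
  rw [E.T_cross b hv hw (by intro h3; rw [h3] at h; exact ltJ_asymm h h)] at h3
  unfold gen at h3
  rw [if_neg (ltJ_asymm h)] at h3
  unfold G at h3
  by_cases h4 : tp y (E.P false).1 (E.P false).1 = tp y (E.P false).2 (E.P false).2
  · refine ⟨h4, ?_⟩
    rw [if_pos ⟨by rw [h2, h4], by rw [h1, h4]⟩] at h3
    constructor
    · intro h5
      by_contra h6
      simp only [h6, decide_false, Prod.fst_swap, Prod.snd_swap] at h3
      rw [h5] at h3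
      exact E.ne h3
    · intro h5 h6
      simp only [h6, decide_true, Prod.fst_swap, Prod.snd_swap] at h3
      rw [h5] at h3
      exact E.ne h3
  · exfalso
    rw [if_neg, if_pos ⟨h2, h1⟩] at h3
    · exact E.ne h3
    · rintro ⟨h5, _⟩
      exact h4 (by rw [← h5, h2])

end Dbl

end Pool.Agent.L7h71.CC
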