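import Pool.Agent.L7h71.CC.E0

set_option autoImplicit false

/-!
Two generic types between the same types give perfectly many structures, second part.
-/

namespace Pool.Agent.L7h71.CC

open Function Set MeasureTheory Filter
open Pool.Agent.L7h71.COV (Str Iso)

variable {a : ℕ → ℕ}

namespace Dbl

variable {y : St a ℕ} (E : Dbl y) (hy : Rich y)

theorem u0_inf : ¬ Fi y (E.P false).1 := Rich.mb_inf (E.mb false).2.2

theorem w0_inf : ¬ Fi y (E.P false).2 := Rich.mb_inf (E.mb false).2.1

/-- the vertices `p_k` -/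
def pP (k : Fin 3) : V y :=
  ⟨((E.P false).1, (k.val, 0)), fun h => absurd h E.u0_inf, by
    have := k.isLt
    show k.val ≤ 7
    omega, fun _ => rfl⟩

/-- the vertices `u_i` -/
def uU (i : ℕ) : V y :=
  ⟨((E.P false).1, (3, i)), fun h => absurd h E.u0_inf, by simp, fun h => by simp at h⟩

/-- the vertices `w_l` -/
def wW (l : ℕ) : V y :=
  ⟨((E.P false).2, (4, l)), fun h => absurd h E.w0_inf, by simp, fun h => by simp at h⟩

/-- the vertices `q_k` -/
def qQ (k : Fin 3) : V y :=
  ⟨((E.P false).2, (5 + k.val, 0)), fun h => absurd h E.w0_inf, by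
    have := k.isLt
    show 5 + k.val ≤ 7
    omega, fun _ => rfl⟩

/-- the second generic type -/
abbrev s1 : Set (Fo a) := tp y (E.P true).1 (E.P true).2

theorem T_right (b : ℕ → Bool) {v w : V y} (h : E.T b v w = E.s1) (hg : Good y
    (fun v : V y => v.1.1) (E.rf b)) :
    tp y w.1.1 w.1.1 = tp y (E.P false).2 (E.P false).2 := by
  have h1 := hg.typ2 v w
  have h2 : tp y (rp (fun v : V y => v.1.1) (E.rf b) v w).2
    (rp (fun v : V y => v.1.1) (E.rf b) v w).2 = tp y (E.P true).2 (E.P true).2 := tp_right h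
  rw [← h1, h2, E.t2]

theorem T_left (b : ℕ → Bool) {v w : V y} (h : E.T b v w = E.s1) (hg : Good y
    (fun v : V y => v.1.1) (E.rf b)) :
    tp y v.1.1 v.1.1 = tp y (E.P false).1 (E.P false).1 := by
  have h1 := hg.typ1 v w
  have h2 : tp y (rp (fun v : V y => v.1.1) (E.rf b) v w).1
    (rp (fun v : V y => v.1.1) (E.rf b) v w).1 = tp y (E.P true).1 (E.P true).1 := tp_left h
  rw [← h1, h2, E.t1]

include hy

theorem W_iff (b : ℕ → Bool) (v : V y) :
    (∀ k, E.T b (E.pP k) v = E.s1) ↔ ∃ l, v = E.wW l := by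
  have hg := E.good hy b
  constructor
  · intro h
    have hd := E.T_right b (h 0) hg
    have hv : ¬ Fi y v.1.1 := fun h1 => E.w0_inf ((Fi.congr hd).1 h1)
    have hlt : ∀ k, ltJ (E.pP k).1.2 v.1.2 → E.Hs (b 0) (E.pP k).1 v.1 := fun k hk =>
      (E.T_lt b E.u0_inf hv hk rfl hd).1 (h k)
    have hgt : ∀ k, ltJ v.1.2 (E.pP k).1.2 → _ := fun k hk =>
      E.T_gt b E.u0_inf hv hk rfl hd (h k)
    have hv2 := v.2.2.1
    have hv3 := v.2.2.2
    rcases Nat.lt_or_ge 0 v.1.2.1 with h0 | h0
    · by_cases h4 : v.1.2.1 = 4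
      · have h5 := hlt 0 (Or.inl h0)
        have h6 : v.1.1 = (E.P false).2 := by
          rcases h5 with h5 | h5 | h5 | h5 | h5
          · exact h5.2.2.1
          · exact absurd h5.2.1 (by simp [pP])
          · exact absurd h5.2.1 (by simp [pP])
          · omega
          · omega
        refine ⟨v.1.2.2, Subtype.ext (Prod.ext h6 (Prod.ext h4 rfl))⟩
      · exfalso
        by_cases h1 : v.1.2.1 = 2
        · have h5 := hlt 1 (Or.inl (by rw [h1]; simp [pP]))
          simp [Hs, pP] at h5
          omega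
        · have h5 := hlt 0 (Or.inl h0)
          simp [Hs, pP] at h5
          omega
    · exfalso
      have h0' : v.1.2.1 = 0 := by omega
      have h00 : v.1.2.2 = 0 := hv3 (Or.inl (by omega))
      have h1 := hgt 1 (Or.inl (by simp [pP, h0']))
      rcases E.alt with h2 | h2 | h2
      · exact h2 h1.1
      · have h3 := h1.2.1 h2
        simp [Hs, pP, h0'] at h3
      · have h4 := hgt 2 (Or.inl (by simp [pP, h0']))
        apply h4.2.2 h2
        exact Or.inr (Or.inr (Or.inr (Or.inl ⟨h0', by simp [pP]⟩)))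
  · rintro ⟨l, rfl⟩ k
    refine (E.T_lt b E.u0_inf E.w0_inf (Or.inl ?_) rfl rfl).2 (Or.inl ⟨rfl, k.isLt, rfl, rfl⟩)
    have := k.isLt
    show k.val < 4
    omega

theorem U_iff (b : ℕ → Bool) (v : V y) :
    (∀ k, E.T b v (E.qQ k) = E.s1) ↔ ∃ i, v = E.uU i := by
  have hg := E.good hy b
  constructor
  · intro h
    have hd := E.T_left b (h 0) hg
    have hv : ¬ Fi y v.1.1 := fun h1 => E.u0_inf ((Fi.congr hd).1 h1)
    have hlt : ∀ k, ltJ v.1.2 (E.qQ k).1.2 → E.Hs (b v.1.2.2) v.1 (E.qQ k).1 := fun k hk =>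
      (E.T_lt b hv E.w0_inf hk hd rfl).1 (h k)
    have hgt : ∀ k, ltJ (E.qQ k).1.2 v.1.2 → _ := fun k hk =>
      E.T_gt b hv E.w0_inf hk hd rfl (h k)
    have hv2 := v.2.2.1
    have hv3 := v.2.2.2
    rcases Nat.lt_or_ge v.1.2.1 5 with h0 | h0
    · have h5 := hlt 0 (Or.inl (by simp [qQ]; omega))
      have h6 : v.1.1 = (E.P false).1 ∧ v.1.2.1 = 3 := by
        rcases h5 with h5 | h5 | h5 | h5 | h5
        · exact absurd h5.2.2.2 (by simp [qQ])
        · exact ⟨h5.1, h5.2.1⟩
        · exact absurd h5.2.2.2.1 (by simp [qQ])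
        · exact absurd h5.2 (by simp [qQ])
        · omega
      exact ⟨v.1.2.2, Subtype.ext (Prod.ext h6.1 (Prod.ext h6.2 rfl))⟩
    · exfalso
      have h00 : v.1.2.2 = 0 := hv3 (Or.inr (by omega))
      by_cases h5 : v.1.2.1 = 5
      · have h6 := hlt 1 (Or.inl (by simp [qQ, h5]))
        simp [Hs, qQ, h5] at h6
      · by_cases h7 : v.1.2.1 = 6
        · have h6 := hlt 2 (Or.inl (by simp [qQ, h7]))
          simp [Hs, qQ, h7] at h6
        · have h8 : v.1.2.1 = 7 := by omega
          rcases E.alt with h2 | h2 | h2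
          · exact h2 (hgt 0 (Or.inl (by simp [qQ, h8]))).1
          · have h3 := (hgt 1 (Or.inl (by simp [qQ, h8]))).2.1 h2
            simp [Hs, qQ, h8] at h3
          · apply (hgt 0 (Or.inl (by simp [qQ, h8]))).2.2 h2
            exact Or.inr (Or.inr (Or.inr (Or.inr ⟨by simp [qQ], h8⟩)))
  · rintro ⟨i, rfl⟩ k
    refine (E.T_lt b E.u0_inf E.w0_inf (Or.inl ?_) rfl rfl).2
      (Or.inr (Or.inl ⟨rfl, rfl, rfl, ?_⟩))
    · show 3 < 5 + k.val
      omega
    · show 5 ≤ 5 + k.val
      omega

omit hy in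
theorem UW_iff (b : ℕ → Bool) (i l : ℕ) :
    E.T b (E.uU i) (E.wW l) = E.s1 ↔ (l < 2 * i + 1 ∨ (l = 2 * i + 1 ∧ b i = true)) := by
  rw [E.T_lt b E.u0_inf E.w0_inf (Or.inl (by simp [uU, wW])) rfl rfl]
  simp [Hs, uU, wW]

omit hy in
theorem cont (v w : V y) : Continuous fun b => E.rf b v w := by
  classical
  unfold rf cref
  by_cases h : Fi y v.1.1 ∨ Fi y w.1.1 ∨ v.1.2 = w.1.2
  · simp only [if_pos h]
    exact continuous_const
  · simp only [if_neg h]
    unfold gen
    by_cases h1 : ltJ v.1.2 w.1.2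
    · simp only [if_pos h1]
      exact (continuous_of_discreteTopology (f := fun β : Bool => E.G β v.1 w.1)).comp
        (continuous_apply _)
    · simp only [if_neg h1]
      exact (continuous_of_discreteTopology (f := fun β : Bool => (E.G β w.1 v.1).swap)).comp
        (continuous_apply _)

end Dbl

/-- Two generic types between the same types give perfectly many structures. -/
theorem perf_dbl {B : Set (Str a)} {x : Str a} (hx : x ∈ B) (hcl : Closed B) (hy : Rich (toS x))
    (E : Dbl (toS x)) : Perf B := by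
  classical
  have hinf : Infinite (Dbl.V (toS x)) := by
    refine Infinite.of_injective (fun n : ℕ => E.uU n) ?_
    intro m n h
    have := congrArg (fun v : Dbl.V (toS x) => v.1.2.2) h
    exact this
  have hne : Nonempty (Dbl.V (toS x)) := ⟨E.uU 0⟩
  obtain ⟨z, ε, hz1, hz2, hz3⟩ := fam hx hcl (fun v : Dbl.V (toS x) => v.1.1) E.rf
    (E.good hy) E.cont
  have hT : ∀ c v w, tp (toS (z c)) (ε v) (ε w) = E.T c v w := hz3
  refine perf_of_dec (ι := (Fin 3 → ℕ) × (Fin 3 → ℕ)) z hz1 hz2
    (fun p x n => ∃ u, (∀ k, tp (toS x) u (p.2 k) = E.s1) ∧ ∃ F : Finset ℕ, F.card = 2 * n + 2 ∧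
      ∀ w, w ∈ F ↔ ((∀ k, tp (toS x) (p.1 k) w = E.s1) ∧ tp (toS x) u w = E.s1)) ?_ ?_
    (fun k => ε (E.pP k), fun k => ε (E.qQ k)) ?_
  · intro p n
    refine Measurable.exists fun u => (Measurable.forall fun k => measurable_tp _ _ _).and
      (Measurable.exists fun F => measurable_const.and (Measurable.forall fun w =>
      measurable_const.iff ((Measurable.forall fun k => measurable_tp _ _ _).and
      (measurable_tp _ _ _))))
  · rintro p x x' ⟨σ, hσ⟩
    refine ⟨(fun k => σ (p.1 k), fun k => σ (p.2 k)), fun n => ?_⟩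
    constructor
    · rintro ⟨u, h1, F, h2, h3⟩
      refine ⟨σ u, fun k => ?_, F.map σ.toEmbedding, ?_, fun w => ?_⟩
      · simp only
        rw [tp_iso hσ]
        exact h1 k
      · rw [Finset.card_map, h2]
      · rw [Finset.mem_map_equiv, h3]
        obtain ⟨w, rfl⟩ := σ.surjective w
        simp only [Equiv.symm_apply_apply, tp_iso hσ]
    · rintro ⟨u, h1, F, h2, h3⟩
      obtain ⟨u, rfl⟩ := σ.surjective u
      refine ⟨u, fun k => ?_, F.map σ.symm.toEmbedding, ?_, fun w => ?_⟩
      · rw [← h1 k]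
        exact (tp_iso hσ _ _).symm
      · rw [Finset.card_map, h2]
      · rw [Finset.mem_map_equiv, Equiv.symm_symm, h3]
        simp only [tp_iso hσ]
  · intro b n
    have hF : ∀ i w, ((∀ k, tp (toS (z b)) (ε (E.pP k)) w = E.s1) ∧
        tp (toS (z b)) (ε (E.uU i)) w = E.s1) ↔
        ∃ l, (l < 2 * i + 1 ∨ (l = 2 * i + 1 ∧ b i = true)) ∧ w = ε (E.wW l) := by
      intro i w
      obtain ⟨v, rfl⟩ := ε.surjective w
      simp only [hT]
      rw [E.W_iff hy b v]
      constructor
      · rintro ⟨⟨l, rfl⟩, h⟩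
        exact ⟨l, (E.UW_iff b i l).1 h, rfl⟩
      · rintro ⟨l, h1, h2⟩
        have h3 := ε.injective h2
        subst h3
        exact ⟨⟨l, rfl⟩, (E.UW_iff b i l).2 h1⟩
    let Ls : ℕ → Finset ℕ := fun i => if b i = true then Finset.range (2 * i + 2) else
      Finset.range (2 * i + 1)
    have hLs : ∀ i l, l ∈ Ls i ↔ (l < 2 * i + 1 ∨ (l = 2 * i + 1 ∧ b i = true)) := by
      intro i l
      show l ∈ (if b i = true then Finset.range (2 * i + 2) else Finset.range (2 * i + 1)) ↔ _
      by_cases h : b i = true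
      · rw [if_pos h, Finset.mem_range]
        constructor
        · intro h1
          by_cases h2 : l < 2 * i + 1
          · exact Or.inl h2
          · exact Or.inr ⟨by omega, h⟩
        · rintro (h1 | ⟨h1, _⟩) <;> omega
      · rw [if_neg h, Finset.mem_range]
        constructor
        · exact fun h1 => Or.inl h1
        · rintro (h1 | ⟨_, h1⟩)
          · exact h1
          · exact absurd h1 h
    have hinj : Injective fun l => ε (E.wW l) := by
      intro l l' h
      have := congrArg (fun v : Dbl.V (toS x) => v.1.2.2) (ε.injective h)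
      exact this
    have hF2 : ∀ i (F : Finset ℕ), (∀ w, w ∈ F ↔ ((∀ k, tp (toS (z b)) (ε (E.pP k)) w = E.s1) ∧
        tp (toS (z b)) (ε (E.uU i)) w = E.s1)) → F = (Ls i).image fun l => ε (E.wW l) := by
      intro i F h
      ext w
      rw [h, hF, Finset.mem_image]
      simp only [hLs]
      constructor
      · rintro ⟨l, h1, rfl⟩
        exact ⟨l, h1, rfl⟩
      · rintro ⟨l, h1, rfl⟩
        exact ⟨l, h1, rfl⟩
    constructor
    · rintro ⟨u, h1, F, h2, h3⟩
      obtain ⟨v, rfl⟩ := ε.surjective u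
      simp only [hT] at h1
      obtain ⟨i, rfl⟩ := (E.U_iff hy b v).1 h1
      have h4 := hF2 i F h3
      rw [h4, Finset.card_image_of_injective _ hinj] at h2
      by_cases h5 : b i = true
      · simp only [Ls, if_pos h5, Finset.card_range] at h2
        have h6 : i = n := by omega
        rw [← h6]
        exact h5
      · simp only [Ls, if_neg h5, Finset.card_range] at h2
        omega
    · intro h
      refine ⟨ε (E.uU n), ?_, (Ls n).image fun l => ε (E.wW l), ?_, fun w => ?_⟩
      · simp only [hT]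
        exact (E.U_iff hy b _).2 ⟨n, rfl⟩
      · rw [Finset.card_image_of_injective _ hinj]
        simp only [Ls, if_pos h, Finset.card_range]
      · rw [hF, Finset.mem_image]
        simp only [hLs]
        constructor
        · rintro ⟨l, h1, rfl⟩
          exact ⟨l, h1, rfl⟩
        · rintro ⟨l, h1, rfl⟩
          exact ⟨l, h1, rfl⟩

/-- Uniqueness and symmetry of the generic types. -/
theorem generic_unique {B : Set (Str a)} {x : Str a} (hx : x ∈ B) (hcl : Closed B)
    (hy : Rich (toS x)) (hP : ¬ Perf B) {u w u' w' : ℕ} (h1 : MB (toS x) u w)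
    (h2 : MB (toS x) u' w') (h3 : tp (toS x) u u = tp (toS x) u' u')
    (h4 : tp (toS x) w w = tp (toS x) w' w') : tp (toS x) u w = tp (toS x) u' w' := by
  by_contra hne
  have hsym : tp (toS x) u u = tp (toS x) w w → ∀ p q, MB (toS x) p q →
      tp (toS x) p p = tp (toS x) u u → tp (toS x) q q = tp (toS x) u u →
      tp (toS x) q p = tp (toS x) p q := by
    intro _ p q hpq hp hq
    by_contra hne2
    apply hP
    refine perf_dbl hx hcl hy
      { P := fun b => cond b (q, p) (p, q)
        mb := fun b => by cases b; exacts [hpq, hpq.symm]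
        t1 := fun b => by cases b; exacts [rfl, hq.trans hp.symm]
        t2 := fun b => by cases b; exacts [rfl, hp.trans hq.symm]
        ne := fun h => hne2 h.symm
        alt := Or.inr (Or.inr fun b => by cases b <;> rfl) }
  apply hP
  refine perf_dbl hx hcl hy
    { P := fun b => cond b (u', w') (u, w)
      mb := fun b => by cases b; exacts [h1, h2]
      t1 := fun b => by cases b; exacts [rfl, h3.symm]
      t2 := fun b => by cases b; exacts [rfl, h4.symm]
      ne := hne
      alt := by
        by_cases h5 : tp (toS x) u u = tp (toS x) w w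
        · refine Or.inr (Or.inl fun b => ?_)
          cases b
          · exact hsym h5 u w h1 rfl h5.symm
          · exact hsym h5 u' w' h2 h3.symm (h4.symm.trans h5.symm)
        · exact Or.inl h5 }

end Pool.Agent.L7h71.CC
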