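import Pool.Agent.L7h71.CC.E0b

set_option autoImplicit false

/-!
Cycles of links give perfectly many structures.
-/

namespace Pool.Agent.L7h71.CC

open Function Set MeasureTheory Filter
open Pool.Agent.L7h71.COV (Str Iso Cyc covers)

variable {a : ℕ → ℕ}

/-- linked elements: of infinite types, and not in generic position -/
def Link (y : St a ℕ) (u w : ℕ) : Prop := u ≠ w ∧ ¬ Fi y u ∧ ¬ Fi y w ∧ ¬ MB y u w

theorem Link.symm {y : St a ℕ} {u w : ℕ} (h : Link y u w) : Link y w u :=
  ⟨h.1.symm, h.2.2.1, h.2.1, fun h1 => h.2.2.2 h1.symm⟩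

theorem Rich.link {y : St a ℕ} (hy : Rich y) {u w u' w' : ℕ} (h : tp y u w = tp y u' w') :
    Link y u w ↔ Link y u' w' := by
  unfold Link
  rw [hy.mb h, Fi.congr (tp_left h), Fi.congr (tp_right h), ne_eq, ne_eq, tp_ne h]

open Classical in
/-- a generic pair with given types -/
noncomputable def gp (y : St a ℕ) (u w : ℕ) : ℕ × ℕ :=
  if h : ∃ w', tp y w' w' = tp y w w ∧ MB y u w' then (u, Classical.choose h) else (0, 0)

theorem gp_spec {y : St a ℕ} (hy : Rich y) {u w : ℕ} (hu : ¬ Fi y u) (hw : ¬ Fi y w) :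
    MB y (gp y u w).1 (gp y u w).2 ∧ tp y (gp y u w).1 (gp y u w).1 = tp y u u ∧
      tp y (gp y u w).2 (gp y u w).2 = tp y w w := by
  unfold gp
  rw [dif_pos (hy.mb_ex hu hw)]
  exact ⟨(Classical.choose_spec (hy.mb_ex hu hw)).2, rfl,
    (Classical.choose_spec (hy.mb_ex hu hw)).1⟩

/-- A cycle of links gives perfectly many structures. -/
theorem perf_cyc {B : Set (Str a)} {x : Str a} (hx : x ∈ B) (hcl : Closed B) (hy : Rich (toS x))
    {m : ℕ} (hm : Cyc (Link (toS x)) m) : Perf B := by
  classical
  by_contra hP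
  apply hP
  obtain ⟨G', h1, h2, h3, h4, h5⟩ := covers (G := Link (toS x)) (fun u v h => h.symm)
    (fun u h => h.1 rfl) hm
  let V : Type := {p : ℕ × (ℕ × ℕ) // Fi (toS x) p.1 → p.2 = (0, 0)}
  let κ : V → ℕ := fun v => v.1.1
  let C : (ℕ → Bool) → V → V → Prop := fun b v w => G' b v.1 w.1
  let gen : V → V → ℕ × ℕ := fun v w =>
    if COV.en v.1 < COV.en w.1 then gp (toS x) v.1.1 w.1.1 else (gp (toS x) w.1.1 v.1.1).swap
  have hgen : ∀ v w : V, ¬ Fi (toS x) (κ v) → ¬ Fi (toS x) (κ w) →
      MB (toS x) (gen v w).1 (gen v w).2 ∧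
      tp (toS x) (gen v w).1 (gen v w).1 = tp (toS x) (κ v) (κ v) ∧
      tp (toS x) (gen v w).2 (gen v w).2 = tp (toS x) (κ w) (κ w) := by
    intro v w hv hw
    show MB (toS x) (if COV.en v.1 < COV.en w.1 then gp (toS x) v.1.1 w.1.1 else
      (gp (toS x) w.1.1 v.1.1).swap).1 (if COV.en v.1 < COV.en w.1 then gp (toS x) v.1.1 w.1.1 else
      (gp (toS x) w.1.1 v.1.1).swap).2 ∧
      tp (toS x) (if COV.en v.1 < COV.en w.1 then gp (toS x) v.1.1 w.1.1 else
      (gp (toS x) w.1.1 v.1.1).swap).1 (if COV.en v.1 < COV.en w.1 then gp (toS x) v.1.1 w.1.1 else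
      (gp (toS x) w.1.1 v.1.1).swap).1 = _ ∧
      tp (toS x) (if COV.en v.1 < COV.en w.1 then gp (toS x) v.1.1 w.1.1 else
      (gp (toS x) w.1.1 v.1.1).swap).2 (if COV.en v.1 < COV.en w.1 then gp (toS x) v.1.1 w.1.1 else
      (gp (toS x) w.1.1 v.1.1).swap).2 = _
    split_ifs
    · exact gp_spec hy hv hw
    · have := gp_spec hy hw hv
      exact ⟨this.1.symm, this.2.2, this.2.1⟩
  have hGL : ∀ b (v w : V), C b v w → Link (toS x) (κ v) (κ w) := fun b v w h => h1 b _ _ h
  have hgood : ∀ b, Good (toS x) κ (cref (toS x) κ (C b) gen) := by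
    intro b
    refine copies hy κ (C b) gen ?_ ?_ ?_ ?_ ?_ ?_ ?_ ?_ ?_ ?_
    · intro v w hv hvw
      apply Subtype.ext
      refine Prod.ext hvw ?_
      have hv' : Fi (toS x) v.1.1 := hv
      have hw' : Fi (toS x) w.1.1 := by
        have : v.1.1 = w.1.1 := hvw
        rw [← this]; exact hv'
      rw [v.2 hv', w.2 hw']
    · intro u hu
      exact ⟨⟨(u, (0, 0)), fun _ => rfl⟩, rfl⟩
    · intro u hu
      refine infinite_of_injective_forall_mem (f := fun n : ℕ => (⟨(u, (n, 0)),
        fun h => absurd h hu⟩ : V)) ?_ fun n => rfl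
      intro m n h
      have := congrArg (fun v : V => v.1.2.1) h
      exact this
    · intro v w h
      exact h2 b _ _ h
    · intro v w _ _ h
      exact (hGL b v w h).1
    · intro v w hv hw hne _
      have hne2 : COV.en v.1 ≠ COV.en w.1 := fun h => hne (Subtype.ext (COV.en.injective h))
      show (if COV.en w.1 < COV.en v.1 then gp (toS x) w.1.1 v.1.1 else
        (gp (toS x) v.1.1 w.1.1).swap) = (if COV.en v.1 < COV.en w.1 then gp (toS x) v.1.1 w.1.1
        else (gp (toS x) w.1.1 v.1.1).swap).swap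
      rcases lt_or_gt_of_ne hne2 with h | h
      · rw [if_pos h, if_neg (not_lt_of_gt h)]
      · rw [if_pos h, if_neg (not_lt_of_gt h)]
        rfl
    · intro v w hv hw _ _
      exact (hgen v w hv hw).1
    · intro v w hv hw _ _
      exact (hgen v w hv hw).2.1
    · intro v hv u hu huv hmb
      obtain ⟨k, hk1, hk2⟩ := h3 b v.1 u ⟨huv.symm, hv, hu, hmb⟩
      refine ⟨⟨(u, k), fun h => absurd h hu⟩, ⟨rfl, hk1⟩, ?_⟩
      rintro w ⟨rfl, hw⟩
      have := hk2 w.1.2 hw
      exact Subtype.ext (Prod.ext rfl this)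
    · intro v hv u hu hmb
      refine infinite_of_injective_forall_mem (f := fun n : ℕ => (⟨(u, (n, 0)),
        fun h => absurd h hu⟩ : V)) ?_ fun n => ?_
      · intro m n h
        have := congrArg (fun v : V => v.1.2.1) h
        exact this
      · have hnc : ¬ C b v ⟨(u, (n, 0)), fun h => absurd h hu⟩ :=
          fun h => (hGL _ _ _ h).2.2.2 hmb
        refine ⟨?_, ?_⟩
        · intro h
          have h6 : u = v.1.1 := congrArg (fun v : V => v.1.1) h
          exact hmb.1 h6.symm
        · unfold cref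
          rw [if_neg]
          · have h6 := hgen v ⟨(u, (n, 0)), fun h => absurd h hu⟩ hv hu
            exact generic_unique hx hcl hy hP h6.1 hmb h6.2.1 h6.2.2
          · rintro (h6 | h6 | h6)
            · exact hv h6
            · exact hu h6
            · exact hnc h6
  have hVinf : ¬ Fi (toS x) (hm.2.choose 0) := (hm.2.choose_spec.1 0).2.1
  have hInf : Infinite V := by
    refine Infinite.of_injective (fun n : ℕ => (⟨(hm.2.choose 0, (n, 0)),
      fun h => absurd h hVinf⟩ : V)) ?_
    intro m n h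
    have := congrArg (fun v : V => v.1.2.1) h
    exact this
  have hNe : Nonempty V := ⟨⟨(hm.2.choose 0, (0, 0)), fun h => absurd h hVinf⟩⟩
  have hcont : ∀ v w, Continuous fun b => cref (toS x) κ (C b) gen v w := by
    intro v w
    unfold cref
    rw [continuous_discrete_rng]
    intro p
    by_cases h6 : Fi (toS x) (κ v) ∨ Fi (toS x) (κ w)
    · have : (fun b => if Fi (toS x) (κ v) ∨ Fi (toS x) (κ w) ∨ C b v w then (κ v, κ w) else
          gen v w) = fun _ => (κ v, κ w) := by
        funext b
        rw [if_pos]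
        rcases h6 with h6 | h6
        · exact Or.inl h6
        · exact Or.inr (Or.inl h6)
      rw [this]
      exact continuous_const.isOpen_preimage _ (isOpen_discrete _)
    · push Not at h6
      have h7 : IsClopen {b | C b v w} := h4 _ _
      have : (fun b => if Fi (toS x) (κ v) ∨ Fi (toS x) (κ w) ∨ C b v w then (κ v, κ w) else
          gen v w) = fun b => if C b v w then (κ v, κ w) else gen v w := by
        funext b
        simp [h6.1, h6.2]
      rw [this]
      by_cases h8 : p = (κ v, κ w)
      · by_cases h9 : p = gen v w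
        · have : (fun b => if C b v w then (κ v, κ w) else gen v w) ⁻¹' {p} = univ := by
            ext b
            simp only [mem_preimage, mem_singleton_iff, mem_univ, iff_true]
            split_ifs
            · exact h8.symm
            · exact h9.symm
          rw [this]
          exact isOpen_univ
        · have : (fun b => if C b v w then (κ v, κ w) else gen v w) ⁻¹' {p} = {b | C b v w} := by
            ext b
            simp only [mem_preimage, mem_singleton_iff, mem_ofPred_eq]
            split_ifs with h10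
            · exact ⟨fun _ => h10, fun _ => h8.symm⟩
            · exact ⟨fun h => absurd h.symm h9, fun h => absurd h h10⟩
          rw [this]
          exact h7.isOpen
      · by_cases h9 : p = gen v w
        · have : (fun b => if C b v w then (κ v, κ w) else gen v w) ⁻¹' {p} =
              {b | C b v w}ᶜ := by
            ext b
            simp only [mem_preimage, mem_singleton_iff, mem_compl_iff, mem_ofPred_eq]
            split_ifs with h10
            · exact ⟨fun h => absurd h.symm h8, fun h => absurd h10 h⟩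
            · exact ⟨fun _ => h10, fun _ => h9.symm⟩
          rw [this]
          exact h7.compl.isOpen
        · have : (fun b => if C b v w then (κ v, κ w) else gen v w) ⁻¹' {p} = ∅ := by
            ext b
            simp only [mem_preimage, mem_singleton_iff, mem_empty_iff_false, iff_false]
            split_ifs with h10
            · exact fun h => h8 h.symm
            · exact fun h => h9 h.symm
          rw [this]
          exact isOpen_empty
  obtain ⟨z, ε, hz1, hz2, hz3⟩ := fam hx hcl κ (fun b => cref (toS x) κ (C b) gen) hgood hcont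
  let LT : Set (Set (Fo a)) := {s | ∃ u w, Link (toS x) u w ∧ tp (toS x) u w = s}
  have hLT : ∀ b v w, tp (toS (z b)) (ε v) (ε w) ∈ LT ↔ C b v w := by
    intro b v w
    rw [hz3]
    have hLT2 : ∀ u w, tp (toS x) u w ∈ LT ↔ Link (toS x) u w := by
      intro u w
      constructor
      · rintro ⟨u', w', h6, h7⟩
        exact (hy.link h7).1 h6
      · intro h6
        exact ⟨u, w, h6, rfl⟩
    rw [hLT2]
    by_cases h6 : v = w
    · subst h6
      simp only [rp, if_true]
      exact ⟨fun h => absurd rfl h.1, fun h => absurd rfl (hGL _ _ _ h).1⟩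
    · simp only [rp, if_neg h6]
      unfold cref
      by_cases h7 : Fi (toS x) (κ v) ∨ Fi (toS x) (κ w) ∨ C b v w
      · rw [if_pos h7]
        rcases h7 with h7 | h7 | h7
        · exact ⟨fun h => absurd h7 h.2.1, fun h => absurd h7 (hGL _ _ _ h).2.1⟩
        · exact ⟨fun h => absurd h7 h.2.2.1, fun h => absurd h7 (hGL _ _ _ h).2.2.1⟩
        · exact ⟨fun _ => h7, fun _ => hGL _ _ _ h7⟩
      · rw [if_neg h7]
        push Not at h7
        exact ⟨fun h => absurd (hgen v w h7.1 h7.2.1).1 h.2.2.2, fun h => absurd h h7.2.2⟩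
  refine ⟨z, hz1, hz2, fun b b' hbb => ?_⟩
  have hcyc : ∀ b k, Cyc (fun u w => tp (toS (z b)) u w ∈ LT) k ↔ Cyc (G' b) k := by
    intro b k
    constructor
    · rintro ⟨a1, t, a2, a3, a4⟩
      refine ⟨a1, fun i => (ε.symm (t i)).1, fun i => ?_, fun i =>
        congrArg (fun n => (ε.symm n).1) (a3 i), fun i j hi hj hij => a4 i j hi hj
        (ε.symm.injective (Subtype.ext hij))⟩
      have h6 := (hLT b (ε.symm (t i)) (ε.symm (t (i + 1)))).1
      rw [Equiv.apply_symm_apply, Equiv.apply_symm_apply] at h6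
      exact h6 (a2 i)
    · rintro ⟨a1, t, a2, a3, a4⟩
      have hin : ∀ i, ¬ Fi (toS x) (t i).1 := fun i => (h1 b _ _ (a2 i)).2.1
      refine ⟨a1, fun i => ε ⟨t i, fun h => absurd h (hin i)⟩, fun i => ?_, fun i => ?_,
        fun i j hi hj hij => a4 i j hi hj (congrArg Subtype.val (ε.injective hij))⟩
      · exact (hLT b _ _).2 (a2 i)
      · show ε _ = ε _
        congr 1
        exact Subtype.ext (a3 i)
  have hiso : ∀ b b', Iso (z b) (z b') → ∀ k, Cyc (fun u w => tp (toS (z b)) u w ∈ LT) k →
      Cyc (fun u w => tp (toS (z b')) u w ∈ LT) k := by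
    rintro b b' ⟨σ, hσ⟩ k ⟨a1, t, a2, a3, a4⟩
    refine ⟨a1, fun i => σ (t i), fun i => ?_, fun i => congrArg σ (a3 i),
      fun i j hi hj hij => a4 i j hi hj (σ.injective hij)⟩
    show tp (toS (z b')) (σ (t i)) (σ (t (i + 1))) ∈ LT
    rw [tp_iso hσ]
    exact a2 i
  funext l
  have h6 := h5 b l
  have h7 := h5 b' l
  rw [← hcyc] at h6 h7
  rw [Bool.eq_iff_iff, ← h6, ← h7]
  exact ⟨fun h => hiso b b' hbb _ h, fun h => hiso b' b hbb.symm _ h⟩

end Pool.Agent.L7h71.CC
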