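import Pool.Agent.L7h71.CC.E1

set_option autoImplicit false

/-!
Infinitely many independent pairs of algebraic types attached to the same clusters give perfectly
many structures.
-/

namespace Pool.Agent.L7h71.CC

open Function Set MeasureTheory Filter
open Pool.Agent.L7h71.COV (Str Iso)

variable {a : ℕ → ℕ}

/-- Change of the reference pairs between elements of finite and infinite types. -/
theorem Good.modify {y : St a ℕ} (hy : Rich y) {V : Type} {κ : V → ℕ} {ref ref' : V → V → ℕ × ℕ}
    (hg : Good y κ ref) (hsame : ∀ v w, (Fi y (κ v) ↔ Fi y (κ w)) → ref' v w = ref v w)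
    (swap : ∀ v w, ¬ (Fi y (κ v) ↔ Fi y (κ w)) → ref' w v = (ref' v w).swap)
    (typ : ∀ v w, ¬ (Fi y (κ v) ↔ Fi y (κ w)) →
      tp y (ref' v w).1 (ref' v w).1 = tp y (κ v) (κ v))
    (cnt : ∀ v u, ¬ (Fi y (κ v) ↔ Fi y u) →
      {w' | w' ≠ v ∧ tp y (ref' v w').1 (ref' v w').2 = tp y (κ v) u}.encard =
      {w1 | tp y (κ v) w1 = tp y (κ v) u}.encard) : Good y κ ref' := by
  have typ' : ∀ v w, v ≠ w → tp y (ref' v w).1 (ref' v w).1 = tp y (κ v) (κ v) := by
    intro v w h
    by_cases h1 : Fi y (κ v) ↔ Fi y (κ w)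
    · rw [hsame v w h1]
      exact hg.typ v w h
    · exact typ v w h1
  have swap' : ∀ v w, v ≠ w → ref' w v = (ref' v w).swap := by
    intro v w h
    by_cases h1 : Fi y (κ v) ↔ Fi y (κ w)
    · rw [hsame v w h1, hsame w v h1.symm]
      exact hg.swap v w h
    · exact swap v w h1
  have typ2' : ∀ v w, v ≠ w → tp y (ref' v w).2 (ref' v w).2 = tp y (κ w) (κ w) := by
    intro v w h
    have h1 := typ' w v h.symm
    rw [swap' v w h] at h1
    exact h1
  refine hy.good swap' ?_ typ' ?_
  · intro v w h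
    by_cases h1 : Fi y (κ v) ↔ Fi y (κ w)
    · rw [hsame v w h1]
      exact hg.ne v w h
    · intro h2
      apply h1
      rw [← Fi.congr (typ' v w h), ← Fi.congr (typ2' v w h), h2]
  · intro v u hu
    by_cases h1 : Fi y (κ v) ↔ Fi y u
    · rw [← hg.cnt v u hu]
      congr 1
      ext w'
      simp only [mem_ofPred_eq]
      refine and_congr_right fun hw' => ?_
      by_cases h2 : Fi y (κ v) ↔ Fi y (κ w')
      · rw [hsame v w' h2]
      · constructor
        · intro h3
          exfalso
          apply h2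
          rw [h1, ← Fi.congr (tp_right h3), Fi.congr (typ2' v w' hw'.symm)]
        · intro h3
          exfalso
          apply h2
          have h4 : tp y (ref v w').2 (ref v w').2 = tp y (κ w') (κ w') := by
            have h5 := hg.typ w' v hw'
            rw [hg.swap v w' hw'.symm] at h5
            exact h5
          rw [h1, ← Fi.congr (tp_right h3), Fi.congr h4]
    · exact cnt v u h1

/-- types in the same cluster -/
def Clus (y : St a ℕ) (u w : ℕ) : Prop :=
  ∃ w', tp y w' w' = tp y w w ∧ Relation.ReflTransGen (Link y) u w'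

/-- infinitely many independent pairs of attached algebraic types -/
structure Trip (y : St a ℕ) where
  c : ℕ × Bool → ℕ
  f : ℕ × Bool → ℕ
  f2 : ℕ × Bool → ℕ
  hc : ∀ p, ¬ Fi y (c p)
  hf : ∀ p, Fi y (f p)
  h2 : ∀ p, tp y (f2 p) (f2 p) = tp y (f p) (f p)
  hne : ∀ p, tp y (c p) (f2 p) ≠ tp y (c p) (f p)
  inj : ∀ p q, tp y (c p) (c p) = tp y (c q) (c q) → tp y (f p) (f p) = tp y (f q) (f q) → p = q
  clus : ∀ n, Clus y (c (n, false)) (c (n, true))

namespace Trip

variable {y : St a ℕ} (E : Trip y)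

open Classical in
/-- swaps in a class -/
noncomputable def cl (y : St a ℕ) (f i j : ℕ) : Equiv.Perm ℕ :=
  if tp y i i = tp y f f ∧ tp y j j = tp y f f then Equiv.swap i j else 1

theorem cl_tp (f i j : ℕ) {u : ℕ} (hu : tp y u u = tp y f f) :
    tp y (cl y f i j u) (cl y f i j u) = tp y f f := by
  unfold cl
  split_ifs with h
  · rcases eq_or_ne u i with h1 | h1
    · rw [h1, Equiv.swap_apply_left]
      exact h.2
    · rcases eq_or_ne u j with h2 | h2
      · rw [h2, Equiv.swap_apply_right]
        exact h.1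
      · rw [Equiv.swap_apply_of_ne_of_ne h1 h2]
        exact hu
  · exact hu

theorem cl_apply {f i j : ℕ} (hi : tp y i i = tp y f f) (hj : tp y j j = tp y f f) :
    cl y f i j i = j := by
  unfold cl
  rw [if_pos ⟨hi, hj⟩, Equiv.swap_apply_left]

/-- first permutation -/
noncomputable def al (n j : ℕ) : Equiv.Perm ℕ :=
  cl y (E.f (n, false)) j.unpair.1.unpair.1 j.unpair.1.unpair.2

/-- second permutation -/
noncomputable def al' (n j : ℕ) : Equiv.Perm ℕ :=
  cl y (E.f (n, true)) j.unpair.2.unpair.1 j.unpair.2.unpair.2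

/-- bad copies -/
def bad (β : Bool) (n j : ℕ) : Prop :=
  β = false ∧ tp y (E.c (n, false)) (E.al n j (E.f (n, false))) =
    tp y (E.c (n, false)) (E.f (n, false)) ∧
  tp y (E.c (n, true)) (E.al' n j (E.f (n, true))) = tp y (E.c (n, true)) (E.f (n, true))

open Classical in
/-- the permutations -/
noncomputable def rho (β : Bool) (p : ℕ × Bool) (j : ℕ) : Equiv.Perm ℕ :=
  if p.2 = false then E.al p.1 j else if E.bad β p.1 j then Equiv.swap (E.f p) (E.f2 p)
  else E.al' p.1 j

theorem rho_tp (β : Bool) (p : ℕ × Bool) (j : ℕ) {u : ℕ} (hu : tp y u u = tp y (E.f p) (E.f p)) :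
    tp y (E.rho β p j u) (E.rho β p j u) = tp y (E.f p) (E.f p) := by
  unfold rho
  obtain ⟨n, β'⟩ := p
  split_ifs with h1 h2
  · subst h1
    exact cl_tp _ _ _ hu
  · rcases eq_or_ne u (E.f (n, β')) with h3 | h3
    · rw [h3, Equiv.swap_apply_left]
      exact E.h2 _
    · rcases eq_or_ne u (E.f2 (n, β')) with h4 | h4
      · rw [h4, Equiv.swap_apply_right]
      · rw [Equiv.swap_apply_of_ne_of_ne h3 h4]
        exact hu
  · have h3 : β' = true := by
      cases β'
      · exact absurd rfl h1
      · rfl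
    subst h3
    exact cl_tp _ _ _ hu

theorem rho_trans (β : Bool) (p : ℕ × Bool) {u w : ℕ} (hu : tp y u u = tp y (E.f p) (E.f p))
    (hw : tp y w w = tp y (E.f p) (E.f p)) : ∃ j, E.rho β p j u = w := by
  obtain ⟨n, β'⟩ := p
  cases β'
  · refine ⟨Nat.pair (Nat.pair u w) 0, ?_⟩
    unfold rho
    rw [if_pos rfl]
    unfold al
    rw [Nat.unpair_pair, Nat.unpair_pair]
    exact cl_apply hu hw
  · refine ⟨Nat.pair (Nat.pair (E.f (n, false)) (E.f2 (n, false))) (Nat.pair u w), ?_⟩
    unfold rho
    rw [if_neg (by simp), if_neg]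
    · unfold al'
      rw [Nat.unpair_pair, Nat.unpair_pair]
      exact cl_apply hu hw
    · rintro ⟨_, h, _⟩
      unfold al at h
      rw [Nat.unpair_pair, Nat.unpair_pair, cl_apply rfl (E.h2 _)] at h
      exact E.hne _ h

/-- the vertices -/
abbrev V (y : St a ℕ) : Type := {p : ℕ × ℕ // Fi y p.1 → p.2 = 0}

open Classical in
/-- generic pairs -/
noncomputable def gen (v w : V y) : ℕ × ℕ :=
  if Nat.pairEquiv v.1 < Nat.pairEquiv w.1 then gp y v.1.1 w.1.1 else (gp y w.1.1 v.1.1).swap

theorem gen_spec (hy : Rich y) (v w : V y) (hv : ¬ Fi y v.1.1) (hw : ¬ Fi y w.1.1) :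
    MB y (gen v w).1 (gen v w).2 ∧ tp y (gen v w).1 (gen v w).1 = tp y v.1.1 v.1.1 ∧
      tp y (gen v w).2 (gen v w).2 = tp y w.1.1 w.1.1 := by
  unfold gen
  split_ifs
  · exact gp_spec hy hv hw
  · have := gp_spec hy hw hv
    exact ⟨this.1.symm, this.2.2, this.2.1⟩

/-- standard reference pairs -/
noncomputable def rf0 : V y → V y → ℕ × ℕ :=
  cref y (fun v => v.1.1) (fun v w => v.1.2 = w.1.2) gen

theorem good0 (hy : Rich y) : Good y (fun v : V y => v.1.1) (rf0 (y := y)) := by
  classical
  refine copies hy _ _ _ ?_ ?_ ?_ ?_ ?_ ?_ ?_ ?_ ?_ ?_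
  · intro v w hv hvw
    apply Subtype.ext
    refine Prod.ext hvw ?_
    rw [v.2 hv, w.2 (by rw [← hvw]; exact hv)]
  · intro u hu
    exact ⟨⟨(u, 0), fun _ => rfl⟩, rfl⟩
  · intro u hu
    refine infinite_of_injective_forall_mem (f := fun n : ℕ => (⟨(u, n),
      fun h => absurd h hu⟩ : V y)) ?_ fun n => rfl
    intro m n h
    have := congrArg (fun v : V y => v.1.2) h
    exact this
  · intro v w h
    exact h.symm
  · intro v w h _ h2 h3
    exact h (Subtype.ext (Prod.ext h3 h2))
  · intro v w _ _ hne _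
    have hne2 : Nat.pairEquiv v.1 ≠ Nat.pairEquiv w.1 := fun h =>
      hne (Subtype.ext (Nat.pairEquiv.injective h))
    unfold gen
    rcases lt_or_gt_of_ne hne2 with h | h
    · rw [if_pos h, if_neg (not_lt_of_gt h)]
    · rw [if_pos h, if_neg (not_lt_of_gt h)]
      rfl
  · intro v w hv hw _ _
    exact (gen_spec hy v w hv hw).1
  · intro v w hv hw _ _
    exact (gen_spec hy v w hv hw).2.1
  · intro v hv u hu huv _
    refine ⟨⟨(u, v.1.2), fun h => absurd h hu⟩, ⟨rfl, rfl⟩, ?_⟩
    rintro w ⟨rfl, hw⟩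
    exact Subtype.ext (Prod.ext rfl hw.symm)
  · intro v hv u hu hmb
    have h1 : {w1 | tp y v.1.1 w1 = tp y v.1.1 u}.Infinite := hmb.2.1
    intro hf
    apply h1
    refine (hf.image fun w : V y => w.1.1).subset ?_
    intro w1 hw1
    have h2 : ¬ Fi y w1 := fun h => hu ((Fi.congr (tp_right hw1)).1 h)
    refine ⟨⟨(w1, v.1.2), fun h => absurd h h2⟩, ⟨?_, ?_⟩, rfl⟩
    · intro h
      have h3 : w1 = v.1.1 := congrArg (fun v : V y => v.1.1) h
      exact hmb.1 ((tp_ne hw1).1 h3.symm)
    · unfold cref
      rw [if_pos (Or.inr (Or.inr rfl))]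
      exact hw1

open Classical in
/-- the new pairs, for `v` of infinite and `w` of finite type -/
noncomputable def O (b : ℕ → Bool) (v w : V y) : ℕ × ℕ :=
  if h : ∃ p, tp y v.1.1 v.1.1 = tp y (E.c p) (E.c p) ∧ tp y w.1.1 w.1.1 = tp y (E.f p) (E.f p)
  then (E.c (Classical.choose h),
    E.rho (b (Classical.choose h).1) (Classical.choose h) v.1.2 w.1.1)
  else (v.1.1, w.1.1)

theorem O_pos (b : ℕ → Bool) {v w : V y} {p : ℕ × Bool}
    (h1 : tp y v.1.1 v.1.1 = tp y (E.c p) (E.c p))
    (h2 : tp y w.1.1 w.1.1 = tp y (E.f p) (E.f p)) :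
    E.O b v w = (E.c p, E.rho (b p.1) p v.1.2 w.1.1) := by
  classical
  have h : ∃ p, tp y v.1.1 v.1.1 = tp y (E.c p) (E.c p) ∧
    tp y w.1.1 w.1.1 = tp y (E.f p) (E.f p) := ⟨p, h1, h2⟩
  unfold O
  rw [dif_pos h]
  have h3 := Classical.choose_spec h
  have h4 : Classical.choose h = p :=
    E.inj _ _ (h3.1.symm.trans h1) (h3.2.symm.trans h2)
  rw [h4]

theorem O_left (b : ℕ → Bool) (v w : V y) :
    tp y (E.O b v w).1 (E.O b v w).1 = tp y v.1.1 v.1.1 := by
  classical
  by_cases h : ∃ p, tp y v.1.1 v.1.1 = tp y (E.c p) (E.c p) ∧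
    tp y w.1.1 w.1.1 = tp y (E.f p) (E.f p)
  · obtain ⟨p, h1, h2⟩ := h
    rw [E.O_pos b h1 h2]
    exact h1.symm
  · unfold O
    rw [dif_neg h]

theorem O_right (b : ℕ → Bool) (v w : V y) :
    tp y (E.O b v w).2 (E.O b v w).2 = tp y w.1.1 w.1.1 := by
  classical
  by_cases h : ∃ p, tp y v.1.1 v.1.1 = tp y (E.c p) (E.c p) ∧
    tp y w.1.1 w.1.1 = tp y (E.f p) (E.f p)
  · obtain ⟨p, h1, h2⟩ := h
    rw [E.O_pos b h1 h2]
    exact (E.rho_tp _ _ _ h2).trans h2.symm
  · unfold O
    rw [dif_neg h]

open Classical in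
/-- the reference pairs -/
noncomputable def rf (b : ℕ → Bool) (v w : V y) : ℕ × ℕ :=
  if Fi y v.1.1 ↔ Fi y w.1.1 then rf0 v w else if Fi y w.1.1 then E.O b v w else (E.O b w v).swap

theorem good (hy : Rich y) (b : ℕ → Bool) : Good y (fun v : V y => v.1.1) (E.rf b) := by
  classical
  refine Good.modify hy (good0 hy) ?_ ?_ ?_ ?_
  · intro v w h
    unfold rf
    rw [if_pos h]
  · intro v w h
    unfold rf
    rw [if_neg h, if_neg (fun h' => h h'.symm)]
    by_cases h1 : Fi y w.1.1
    · have h2 : ¬ Fi y v.1.1 := fun h3 => h ⟨fun _ => h1, fun _ => h3⟩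
      rw [if_pos h1, if_neg h2]
    · have h2 : Fi y v.1.1 := by
        by_contra h3
        exact h ⟨fun h4 => absurd h4 h3, fun h4 => absurd h4 h1⟩
      rw [if_neg h1, if_pos h2]
      rfl
  · intro v w h
    unfold rf
    rw [if_neg h]
    split_ifs
    · exact E.O_left b v w
    · exact E.O_right b w v
  · intro v u h
    by_cases h1 : Fi y u
    · have h2 : ¬ Fi y v.1.1 := fun h3 => h ⟨fun _ => h1, fun _ => h3⟩
      -- only elements of finite type matter
      have hB : {w' : V y | w' ≠ v ∧ tp y (E.rf b v w').1 (E.rf b v w').2 = tp y v.1.1 u} =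
          {w' : V y | Fi y w'.1.1 ∧ tp y (E.O b v w').1 (E.O b v w').2 = tp y v.1.1 u} := by
        ext w'
        simp only [mem_ofPred_eq]
        constructor
        · rintro ⟨h3, h4⟩
          have h5 : Fi y w'.1.1 := by
            by_contra h5
            have h6 : Fi y v.1.1 ↔ Fi y w'.1.1 := ⟨fun h => absurd h h2, fun h => absurd h h5⟩
            have h7 : E.rf b v w' = rf0 v w' := by unfold rf; rw [if_pos h6]
            rw [h7] at h4
            have h8 := (good0 hy).typ w' v h3
            rw [(good0 hy).swap v w' h3.symm] at h8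
            have h9 : tp y (rf0 v w').2 (rf0 v w').2 = tp y w'.1.1 w'.1.1 := h8
            exact h5 ((Fi.congr (h9.symm.trans (tp_right h4))).2 h1)
          refine ⟨h5, ?_⟩
          have h6 : E.rf b v w' = E.O b v w' := by
            unfold rf
            rw [if_neg (fun h => h2 (h.2 h5)), if_pos h5]
          rw [← h6]
          exact h4
        · rintro ⟨h5, h4⟩
          refine ⟨?_, ?_⟩
          · rintro rfl
            exact h2 h5
          · have h6 : E.rf b v w' = E.O b v w' := by
              unfold rf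
              rw [if_neg (fun h => h2 (h.2 h5)), if_pos h5]
            rw [h6]
            exact h4
      show {w' : V y | w' ≠ v ∧ tp y (E.rf b v w').1 (E.rf b v w').2 = tp y v.1.1 u}.encard = _
      rw [hB]
      have hfin : ∀ w1, tp y w1 w1 = tp y u u → Fi y w1 := fun w1 hw1 => (Fi.congr hw1).2 h1
      by_cases hp : ∃ p, tp y v.1.1 v.1.1 = tp y (E.c p) (E.c p) ∧
          tp y u u = tp y (E.f p) (E.f p)
      · obtain ⟨p, hp1, hp2⟩ := hp
        have h3 : {w' : V y | Fi y w'.1.1 ∧ tp y (E.O b v w').1 (E.O b v w').2 = tp y v.1.1 u} =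
            {w' : V y | Fi y w'.1.1 ∧ tp y (E.c p) (E.rho (b p.1) p v.1.2 w'.1.1) =
              tp y v.1.1 u ∧ tp y w'.1.1 w'.1.1 = tp y u u} := by
          ext w'
          simp only [mem_ofPred_eq]
          refine and_congr_right fun _ => ?_
          constructor
          · intro h4
            have h5 : tp y w'.1.1 w'.1.1 = tp y u u := (E.O_right b v w').symm.trans (tp_right h4)
            rw [E.O_pos b hp1 (h5.trans hp2)] at h4
            exact ⟨h4, h5⟩
          · rintro ⟨h4, h5⟩
            rw [E.O_pos b hp1 (h5.trans hp2)]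
            exact h4
        rw [h3, hy.eq hp1 (tp y v.1.1 u)]
        have h4 : {w | tp y (E.c p) w = tp y v.1.1 u} =
            (fun w' : V y => E.rho (b p.1) p v.1.2 w'.1.1) '' {w' : V y | Fi y w'.1.1 ∧
              tp y (E.c p) (E.rho (b p.1) p v.1.2 w'.1.1) =
              tp y v.1.1 u ∧ tp y w'.1.1 w'.1.1 = tp y u u} := by
          ext w
          constructor
          · intro h5
            have h6 : tp y w w = tp y (E.f p) (E.f p) := (tp_right h5).trans hp2
            have h7 : tp y ((E.rho (b p.1) p v.1.2).symm w) ((E.rho (b p.1) p v.1.2).symm w) =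
                tp y (E.f p) (E.f p) := by
              by_contra h8
              -- the permutation preserves the class, which is finite
              have h9 : MapsTo (E.rho (b p.1) p v.1.2) {w | tp y w w = tp y (E.f p) (E.f p)}
                {w | tp y w w = tp y (E.f p) (E.f p)} := fun w hw => E.rho_tp _ _ _ hw
              have h10 : {w | tp y w w = tp y (E.f p) (E.f p)}.Finite := E.hf p
              have h11 := (h10.injOn_iff_bijOn_of_mapsTo h9).1
                (E.rho (b p.1) p v.1.2).injective.injOn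
              obtain ⟨w2, hw2, hw3⟩ := h11.surjOn h6
              rw [← hw3, Equiv.symm_apply_apply] at h8
              exact h8 hw2
            refine ⟨⟨((E.rho (b p.1) p v.1.2).symm w, 0), fun _ => rfl⟩, ⟨?_, ?_, ?_⟩, ?_⟩
            · exact hfin _ (h7.trans hp2.symm)
            · show tp y (E.c p) (E.rho (b p.1) p v.1.2 ((E.rho (b p.1) p v.1.2).symm w)) = _
              rw [Equiv.apply_symm_apply]
              exact h5
            · exact h7.trans hp2.symm
            · show E.rho (b p.1) p v.1.2 ((E.rho (b p.1) p v.1.2).symm w) = w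
              rw [Equiv.apply_symm_apply]
          · rintro ⟨w', ⟨_, h5, _⟩, rfl⟩
            exact h5
        rw [h4, InjOn.encard_image]
        rintro w' ⟨h5, _⟩ w'' ⟨h6, _⟩ h7
        have h8 : w'.1.1 = w''.1.1 := (E.rho (b p.1) p v.1.2).injective h7
        apply Subtype.ext
        refine Prod.ext h8 ?_
        rw [w'.2 h5, w''.2 h6]
      · have h3 : {w' : V y | Fi y w'.1.1 ∧ tp y (E.O b v w').1 (E.O b v w').2 = tp y v.1.1 u} =
            {w' : V y | Fi y w'.1.1 ∧ tp y v.1.1 w'.1.1 = tp y v.1.1 u} := by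
          ext w'
          simp only [mem_ofPred_eq]
          refine and_congr_right fun _ => ?_
          have key : tp y w'.1.1 w'.1.1 = tp y u u → E.O b v w' = (v.1.1, w'.1.1) := by
            intro h5
            unfold O
            rw [dif_neg]
            rintro ⟨p, h6, h7⟩
            exact hp ⟨p, h6, h5.symm.trans h7⟩
          constructor
          · intro h4
            have h5 : tp y w'.1.1 w'.1.1 = tp y u u := (E.O_right b v w').symm.trans (tp_right h4)
            rw [key h5] at h4
            exact h4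
          · intro h4
            rw [key (tp_right h4)]
            exact h4
        have h4 : {w1 | tp y v.1.1 w1 = tp y v.1.1 u} = (fun w' : V y => w'.1.1) ''
            {w' : V y | Fi y w'.1.1 ∧ tp y v.1.1 w'.1.1 = tp y v.1.1 u} := by
          ext w1
          constructor
          · intro h5
            exact ⟨⟨(w1, 0), fun _ => rfl⟩, ⟨hfin w1 (tp_right h5), h5⟩, rfl⟩
          · rintro ⟨w', ⟨_, h5⟩, rfl⟩
            exact h5
        rw [h3, h4, InjOn.encard_image]
        rintro w' ⟨h5, _⟩ w'' ⟨h6, _⟩ h7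
        apply Subtype.ext
        refine Prod.ext h7 ?_
        rw [w'.2 h5, w''.2 h6]
    · have h2 : Fi y v.1.1 := by
        by_contra h3
        exact h ⟨fun h4 => absurd h4 h3, fun h4 => absurd h4 h1⟩
      have hA : {w1 | tp y v.1.1 w1 = tp y v.1.1 u}.Infinite := hy.fi_inf h2 h1
      have hrf : ∀ w' : V y, ¬ Fi y w'.1.1 → E.rf b v w' = (E.O b w' v).swap := by
        intro w' h3
        unfold rf
        rw [if_neg (fun h => h3 (h.1 h2)), if_neg h3]
      have hB : {w' : V y | w' ≠ v ∧ tp y (E.rf b v w').1 (E.rf b v w').2 =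
          tp y v.1.1 u}.Infinite := by
        by_cases hp : ∃ p, tp y u u = tp y (E.c p) (E.c p) ∧
            tp y v.1.1 v.1.1 = tp y (E.f p) (E.f p)
        · obtain ⟨p, hp1, hp2⟩ := hp
          obtain ⟨a', ha'⟩ := hy.ex (R := y) (u := E.c p) (u' := u) (w' := v.1.1) hp1.symm
          have h3 : tp y a' a' = tp y (E.f p) (E.f p) := (tp_right ha').trans hp2
          obtain ⟨j, hj⟩ := E.rho_trans (b p.1) p hp2 h3
          have h4 : {w1 | tp y w1 w1 = tp y u u}.Infinite := h1
          intro hf
          apply h4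
          refine (hf.image fun w : V y => w.1.1).subset ?_
          intro w1 hw1
          have h5 : ¬ Fi y w1 := fun h => h1 ((Fi.congr hw1).1 h)
          refine ⟨⟨(w1, j), fun h => absurd h h5⟩, ⟨?_, ?_⟩, rfl⟩
          · rintro rfl
            exact h5 h2
          · rw [hrf _ h5, E.O_pos b (p := p) (hw1.trans hp1) hp2]
            show tp y (E.rho (b p.1) p j v.1.1) (E.c p) = _
            rw [hj]
            exact tp_inv ha'
        · refine infinite_of_injective_forall_mem (f := fun n : ℕ => (⟨(u, n),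
            fun h => absurd h h1⟩ : V y)) ?_ fun n => ?_
          · intro m n h
            have := congrArg (fun v : V y => v.1.2) h
            exact this
          · refine ⟨?_, ?_⟩
            · rintro rfl
              exact h1 h2
            · rw [hrf _ h1]
              unfold O
              rw [dif_neg hp]
              rfl
      exact hB.encard_eq.trans hA.encard_eq.symm

theorem cont (v w : V y) : Continuous fun b => E.rf b v w := by
  classical
  have hO : ∀ v w : V y, Continuous fun b => E.O b v w := by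
    intro v w
    unfold O
    by_cases h : ∃ p, tp y v.1.1 v.1.1 = tp y (E.c p) (E.c p) ∧
      tp y w.1.1 w.1.1 = tp y (E.f p) (E.f p)
    · simp only [dif_pos h]
      exact (continuous_of_discreteTopology (f := fun β : Bool =>
        (E.c (Classical.choose h), E.rho β (Classical.choose h) v.1.2 w.1.1))).comp
        (continuous_apply _)
    · simp only [dif_neg h]
      exact continuous_const
  unfold rf
  split_ifs
  · exact continuous_const
  · exact hO v w
  · exact continuous_swap.comp (hO w v)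

end Trip

/-- Independent triples give perfectly many structures. -/
theorem perf_trip {B : Set (Str a)} {x : Str a} (hx : x ∈ B) (hcl : Closed B)
    (hy : Rich (toS x)) (E : Trip (toS x)) : Perf B := by
  classical
  have hinf : Infinite (Trip.V (toS x)) := by
    refine Infinite.of_injective (fun n : ℕ => (⟨(E.c (0, false), n),
      fun h => absurd h (E.hc _)⟩ : Trip.V (toS x))) ?_
    intro m n h
    have := congrArg (fun v : Trip.V (toS x) => v.1.2) h
    exact this
  have hne : Nonempty (Trip.V (toS x)) := ⟨⟨(E.c (0, false), 0), fun _ => rfl⟩⟩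
  obtain ⟨z, ε, hz1, hz2, hz3⟩ := fam hx hcl (fun v : Trip.V (toS x) => v.1.1) E.rf
    (E.good hy) E.cont
  let LT : Set (Set (Fo a)) := {s | ∃ u w, Link (toS x) u w ∧ tp (toS x) u w = s}
  have hLT2 : ∀ u w, tp (toS x) u w ∈ LT ↔ Link (toS x) u w := by
    intro u w
    constructor
    · rintro ⟨u', w', h6, h7⟩
      exact (hy.link h7).1 h6
    · intro h6
      exact ⟨u, w, h6, rfl⟩
  have hLT : ∀ b v w, tp (toS (z b)) (ε v) (ε w) ∈ LT →
      v.1.2 = w.1.2 := by
    intro b v w h
    rw [hz3, hLT2] at h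
    by_contra hne
    have hvw : v ≠ w := fun h => hne (by rw [h])
    simp only [rp, if_neg hvw] at h
    have hg := E.good hy b
    have hv : ¬ Fi (toS x) v.1.1 := fun h1 => h.2.1 ((Fi.congr (hg.typ v w hvw)).2 h1)
    have hw : ¬ Fi (toS x) w.1.1 := by
      intro h1
      have h2 := hg.typ w v hvw.symm
      rw [hg.swap v w hvw] at h2
      exact h.2.2.1 ((Fi.congr h2).2 h1)
    have h1 : E.rf b v w = Trip.rf0 v w := by
      unfold Trip.rf
      rw [if_pos ⟨fun h => absurd h hv, fun h => absurd h hw⟩]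
    rw [h1] at h
    unfold Trip.rf0 cref at h
    rw [if_neg] at h
    · exact h.2.2.2 (Trip.gen_spec hy v w hv hw).1
    · rintro (h2 | h2 | h2)
      · exact hv h2
      · exact hw h2
      · exact hne h2
  have hLT3 : ∀ b (j u w : ℕ) (hu : ¬ Fi (toS x) u) (hw : ¬ Fi (toS x) w),
      Link (toS x) u w → tp (toS (z b)) (ε ⟨(u, j), fun h => absurd h hu⟩)
        (ε ⟨(w, j), fun h => absurd h hw⟩) ∈ LT := by
    intro b j u w hu hw h
    rw [hz3]
    have hvw : (⟨(u, j), fun h => absurd h hu⟩ : Trip.V (toS x)) ≠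
        ⟨(w, j), fun h => absurd h hw⟩ := by
      intro h1
      have := congrArg (fun v : Trip.V (toS x) => v.1.1) h1
      exact h.1 this
    simp only [rp, if_neg hvw]
    have h1 : E.rf b ⟨(u, j), fun h => absurd h hu⟩ ⟨(w, j), fun h => absurd h hw⟩ = (u, w) := by
      unfold Trip.rf
      rw [if_pos ⟨fun h => absurd h hu, fun h => absurd h hw⟩]
      unfold Trip.rf0 cref
      rw [if_pos (Or.inr (Or.inr rfl))]
    rw [h1, hLT2]
    exact h
  let D : Str a → ℕ → Prop := fun z n => ∀ u w,
    tp (toS z) u u = tp (toS x) (E.f (n, false)) (E.f (n, false)) →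
    tp (toS z) w w = tp (toS x) (E.f (n, true)) (E.f (n, true)) →
    ∃ p q, Relation.ReflTransGen (fun p q => tp (toS z) p q ∈ LT) p q ∧
      tp (toS z) p u = tp (toS x) (E.c (n, false)) (E.f (n, false)) ∧
      tp (toS z) q w = tp (toS x) (E.c (n, true)) (E.f (n, true))
  have hO : ∀ b (p : ℕ × Bool) (v w : Trip.V (toS x)),
      tp (toS x) v.1.1 v.1.1 = tp (toS x) (E.c p) (E.c p) →
      tp (toS x) w.1.1 w.1.1 = tp (toS x) (E.f p) (E.f p) →
      tp (toS (z b)) (ε v) (ε w) = tp (toS x) (E.c p) (E.rho (b p.1) p v.1.2 w.1.1) := by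
    intro b p v w h1 h2
    have hv : ¬ Fi (toS x) v.1.1 := fun h => E.hc p ((Fi.congr h1).1 h)
    have hw : Fi (toS x) w.1.1 := (Fi.congr h2).2 (E.hf p)
    have hvw : v ≠ w := by rintro rfl; exact hv hw
    rw [hz3]
    simp only [rp, if_neg hvw]
    unfold Trip.rf
    rw [if_neg (fun h => hv (h.2 hw)), if_pos hw, E.O_pos b h1 h2]
  have hself : ∀ b v, tp (toS (z b)) (ε v) (ε v) = tp (toS x) v.1.1 v.1.1 := by
    intro b v
    rw [hz3]
    simp [rp]
  have hD : ∀ b n, D (z b) n ↔ b n = true := by
    intro b n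
    constructor
    · intro h
      by_contra hb
      rw [Bool.not_eq_true] at hb
      obtain ⟨p, q, h1, h2, h3⟩ := h (ε ⟨(E.f (n, false), 0), fun _ => rfl⟩)
        (ε ⟨(E.f (n, true), 0), fun _ => rfl⟩) (hself _ _) (hself _ _)
      obtain ⟨p, rfl⟩ := ε.surjective p
      obtain ⟨q, rfl⟩ := ε.surjective q
      have hpq : p.1.2 = q.1.2 := by
        have key : ∀ p' q', Relation.ReflTransGen (fun p q => tp (toS (z b)) p q ∈ LT) p' q' →
            (ε.symm p').1.2 = (ε.symm q').1.2 := by
          intro p' q' h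
          induction h with
          | refl => rfl
          | tail _ h5 ih =>
            rw [ih]
            apply hLT b
            rw [Equiv.apply_symm_apply, Equiv.apply_symm_apply]
            exact h5
        have := key _ _ h1
        rwa [Equiv.symm_apply_apply, Equiv.symm_apply_apply] at this
      have hp : tp (toS x) p.1.1 p.1.1 = tp (toS x) (E.c (n, false)) (E.c (n, false)) := by
        rw [← hself b p]
        exact tp_left h2
      have hq : tp (toS x) q.1.1 q.1.1 = tp (toS x) (E.c (n, true)) (E.c (n, true)) := by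
        rw [← hself b q]
        exact tp_left h3
      rw [hO b (n, false) p ⟨(E.f (n, false), 0), fun _ => rfl⟩ hp rfl] at h2
      rw [hO b (n, true) q ⟨(E.f (n, true), 0), fun _ => rfl⟩ hq rfl, ← hpq] at h3
      simp only [Trip.rho, if_true] at h2
      simp only [Trip.rho, Bool.true_eq_false, if_false] at h3
      by_cases h4 : E.bad (b n) n p.1.2
      · rw [if_pos h4, Equiv.swap_apply_left] at h3
        exact E.hne _ h3
      · rw [if_neg h4] at h3
        exact h4 ⟨hb, h2, h3⟩
    · intro hb u w hu hw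
      obtain ⟨u, rfl⟩ := ε.surjective u
      obtain ⟨w, rfl⟩ := ε.surjective w
      rw [hself] at hu hw
      obtain ⟨w', hw1, hw2⟩ := E.clus n
      let j := Nat.pair (Nat.pair u.1.1 (E.f (n, false))) (Nat.pair w.1.1 (E.f (n, true)))
      have hw'inf : ¬ Fi (toS x) w' := fun h => E.hc (n, true) ((Fi.congr hw1).1 h)
      refine ⟨ε ⟨(E.c (n, false), j), fun h => absurd h (E.hc _)⟩,
        ε ⟨(w', j), fun h => absurd h hw'inf⟩, ?_, ?_, ?_⟩
      · have key : ∀ w', Relation.ReflTransGen (Link (toS x)) (E.c (n, false)) w' →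
            ∀ hw' : ¬ Fi (toS x) w', Relation.ReflTransGen
            (fun p q => tp (toS (z b)) p q ∈ LT)
            (ε ⟨(E.c (n, false), j), fun h => absurd h (E.hc _)⟩)
            (ε ⟨(w', j), fun h => absurd h hw'⟩) := by
          intro w' h
          induction h with
          | refl => intro _; exact Relation.ReflTransGen.refl
          | tail h4 h5 ih =>
            intro hw'
            exact (ih h5.2.1).tail (hLT3 b j _ _ h5.2.1 hw' h5)
        exact key w' hw2 hw'inf
      · rw [hO b (n, false) _ u rfl hu]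
        simp only [Trip.rho, if_true]
        unfold Trip.al
        rw [Nat.unpair_pair, Nat.unpair_pair, Trip.cl_apply hu rfl]
      · rw [hO b (n, true) _ w hw1 hw]
        simp only [Trip.rho, Bool.true_eq_false, if_false]
        rw [if_neg]
        · unfold Trip.al'
          rw [Nat.unpair_pair, Nat.unpair_pair, Trip.cl_apply hw rfl]
        · rintro ⟨h4, _⟩
          have h5 : b n = false := h4
          rw [hb] at h5
          exact absurd h5 (by simp)
  have hiso : ∀ x' y' : Str a, Iso x' y' → ∀ n, D x' n → D y' n := by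
    rintro x' y' ⟨σ, hσ⟩ n h u w hu hw
    obtain ⟨u, rfl⟩ := σ.surjective u
    obtain ⟨w, rfl⟩ := σ.surjective w
    rw [tp_iso hσ] at hu hw
    obtain ⟨p, q, h1, h2, h3⟩ := h u w hu hw
    refine ⟨σ p, σ q, ?_, ?_, ?_⟩
    · refine h1.lift σ ?_
      intro p q hpq
      show tp (toS y') (σ p) (σ q) ∈ LT
      rw [tp_iso hσ]
      exact hpq
    · rw [tp_iso hσ]; exact h2
    · rw [tp_iso hσ]; exact h3
  refine ⟨z, hz1, hz2, fun b b' hbb => ?_⟩
  have hbb' : Iso (z b') (z b) := COV.Iso.symm hbb
  funext n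
  rw [Bool.eq_iff_iff, ← hD, ← hD]
  exact ⟨fun h => hiso _ _ hbb n h, fun h => hiso _ _ hbb' n h⟩

end Pool.Agent.L7h71.CC
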