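import Pool.Agent.L7h71.CC.E3

set_option autoImplicit false

/-!
Two algebraic types joined by infinitely many disjoint paths give perfectly many structures.
-/

namespace Pool.Agent.L7h71.CC

open Function Set MeasureTheory Filter
open Pool.Agent.L7h71.COV (Str Iso)

variable {a : ℕ → ℕ}

/-- permutations preserving the types -/
def TPerm (y : St a ℕ) (ρ : Equiv.Perm ℕ) : Prop := ∀ z, tp y (ρ z) (ρ z) = tp y z z

theorem TPerm.one (y : St a ℕ) : TPerm y 1 := fun _ => rfl

theorem TPerm.mul {y : St a ℕ} {ρ σ : Equiv.Perm ℕ} (h : TPerm y ρ) (h' : TPerm y σ) :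
    TPerm y (ρ * σ) := fun z => (h _).trans (h' z)

theorem TPerm.swap {y : St a ℕ} {u w : ℕ} (h : tp y u u = tp y w w) :
    TPerm y (Equiv.swap u w) := by
  intro z
  rcases eq_or_ne z u with h1 | h1
  · rw [h1, Equiv.swap_apply_left, h]
  · rcases eq_or_ne z w with h2 | h2
    · rw [h2, Equiv.swap_apply_right, h]
    · rw [Equiv.swap_apply_of_ne_of_ne h1 h2]

/-- twisted structures -/
theorem Rich.twist {y : St a ℕ} (hy : Rich y) (θ : ℕ → ℕ → Equiv.Perm ℕ)
    (h1 : ∀ u w, TPerm y (θ u w))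
    (h2 : ∀ u w u' w', tp y u u = tp y u' u' → tp y w w = tp y w' w' → θ u w = θ u' w') :
    Good y (fun v : ℕ => v) (fun v w => (θ v w v, θ w v w)) := by
  refine hy.good ?_ ?_ ?_ ?_
  · intro v w _
    rfl
  · intro v w h h3
    apply h
    have h4 : tp y v v = tp y w w := by
      have h5 := h1 v w v
      have h6 := h1 w v w
      have h7 : θ v w v = θ w v w := h3
      rw [← h5, h7, h6]
    have h5 : θ v w = θ w v := h2 _ _ _ _ h4 h4.symm
    have h6 : θ v w v = θ w v w := h3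
    rw [h5] at h6
    exact (θ w v).injective h6
  · intro v w _
    exact h1 v w v
  · intro v u hu
    have hu' : u ≠ v := hu
    have h3 : {w | tp y (θ v u v) w = tp y v u} =
        (θ u v) '' {w' | w' ≠ v ∧ tp y (θ v w' v) (θ w' v w') = tp y v u} := by
      ext w
      constructor
      · intro h4
        have h5 : tp y ((θ u v).symm w) ((θ u v).symm w) = tp y u u := by
          have h6 := h1 u v ((θ u v).symm w)
          rw [Equiv.apply_symm_apply] at h6
          rw [← h6]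
          exact tp_right h4
        refine ⟨(θ u v).symm w, ⟨?_, ?_⟩, by simp⟩
        · intro h6
          have h7 : tp y v v = tp y u u := by rw [← h6]; exact h5
          have h8 : w = θ v u v := by
            have e1 : w = θ u v ((θ u v).symm w) := by simp
            rw [h6] at e1
            rw [h2 v u u v h7 h7.symm]
            exact e1
          rw [h8] at h4
          exact hu' ((tp_ne h4).1 rfl).symm
        · rw [h2 v ((θ u v).symm w) v u rfl h5, h2 ((θ u v).symm w) v u v h5 rfl,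
            Equiv.apply_symm_apply]
          exact h4
      · rintro ⟨w', ⟨h4, h5⟩, rfl⟩
        have h6 : tp y w' w' = tp y u u := (h1 w' v w').symm.trans (tp_right h5)
        show tp y (θ v u v) (θ u v w') = tp y v u
        rw [h2 v u v w' rfl h6.symm, h2 u v w' v h6.symm rfl]
        exact h5
    show {w' | w' ≠ v ∧ tp y (θ v w' v) (θ w' v w') = tp y v u}.encard = _
    rw [← hy.eq (h1 v u v) (tp y v u), h3, (θ u v).injective.encard_image]

/-- non-constant pair of types -/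
def NC (y : St a ℕ) (u w : ℕ) : Prop :=
  ∃ w1 w2, tp y w1 w1 = tp y w w ∧ tp y w2 w2 = tp y w w ∧ tp y u w1 ≠ tp y u w2

theorem Rich.nc_col {y : St a ℕ} (hy : Rich y) {u w : ℕ} {s : Set (Fo a)} {w1 w2 : ℕ}
    (h1 : tp y w1 w1 = tp y w w) (h2 : tp y w2 w2 = tp y w w) (h3 : tp y u w1 ≠ tp y u w2)
    (hs : s = tp y u w1) : (∃ u1, tp y u1 w = s) ∧
      ∃ u2, tp y u2 u2 = tp y u u ∧ tp y u2 w ≠ s := by
  obtain ⟨u1, hu1⟩ := hy.ex (R := y) (u := w) (u' := w1) (w' := u) h1.symm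
  obtain ⟨u2, hu2⟩ := hy.ex (R := y) (u := w) (u' := w2) (w' := u) h2.symm
  have h4 := tp_inv hu1
  have h5 := tp_inv hu2
  refine ⟨⟨u1, h4.trans hs.symm⟩, u2, tp_left h5, ?_⟩
  rw [h5, hs]
  exact h3.symm

open Classical in
/-- the step of the weights -/
noncomputable def stp (y : St a ℕ) (K : Finset ℕ) (s : Set (Fo a)) (π : Equiv.Perm ℕ)
    (X : ℕ → ℕ) (w : ℕ) : ℕ := ∑ u ∈ K, if tp y (π u) w = s then X u else 0

/-- two different values -/
theorem stp_two {y : St a ℕ} {K : Finset ℕ} {s : Set (Fo a)} {X : ℕ → ℕ} {w : ℕ} {u0 : ℕ}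
    (hK : ∀ u, u ∈ K ↔ tp y u u = tp y u0 u0) {v1 v2 u3 u4 : ℕ} (h1 : v1 ∈ K) (h2 : v2 ∈ K)
    (h3 : u3 ∈ K) (h4 : u4 ∈ K) (h5 : X v1 ≠ X v2) (h6 : tp y u3 w = s) (h7 : tp y u4 w ≠ s) :
    ∃ π π', TPerm y π ∧ TPerm y π' ∧ stp y K s π X w ≠ stp y K s π' X w := by
  classical
  have h12 : v1 ≠ v2 := fun h => h5 (by rw [h])
  have h34 : u3 ≠ u4 := by
    rintro rfl
    exact h7 h6
  let t := Equiv.swap v1 u3 v2
  have ht3 : t ≠ u3 := by
    intro h
    have h8 : Equiv.swap v1 u3 v2 = Equiv.swap v1 u3 v1 := by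
      rw [Equiv.swap_apply_left]; exact h
    exact h12 ((Equiv.swap v1 u3).injective h8).symm
  have htp1 : TPerm y (Equiv.swap v1 u3) := TPerm.swap (((hK v1).1 h1).trans ((hK u3).1 h3).symm)
  have htt : tp y t t = tp y u0 u0 := (htp1 v2).trans ((hK v2).1 h2)
  let π : Equiv.Perm ℕ := Equiv.swap t u4 * Equiv.swap v1 u3
  have hπ1 : π v1 = u3 := by
    show Equiv.swap t u4 (Equiv.swap v1 u3 v1) = u3
    rw [Equiv.swap_apply_left, Equiv.swap_apply_of_ne_of_ne ht3.symm h34]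
  have hπ2 : π v2 = u4 := by
    show Equiv.swap t u4 (Equiv.swap v1 u3 v2) = u4
    exact Equiv.swap_apply_left _ _
  have hπ : TPerm y π := (TPerm.swap (htt.trans ((hK u4).1 h4).symm)).mul htp1
  let π' : Equiv.Perm ℕ := Equiv.swap u3 u4 * π
  have hπ' : TPerm y π' := (TPerm.swap (((hK u3).1 h3).trans ((hK u4).1 h4).symm)).mul hπ
  refine ⟨π, π', hπ, hπ', ?_⟩
  have hrest : ∀ u ∈ (K.erase v1).erase v2, (if tp y (π u) w = s then X u else 0) =
      if tp y (π' u) w = s then X u else 0 := by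
    intro u hu
    rw [Finset.mem_erase, Finset.mem_erase] at hu
    have h8 : π' u = π u := by
      show Equiv.swap u3 u4 (π u) = π u
      refine Equiv.swap_apply_of_ne_of_ne ?_ ?_
      · intro h
        exact hu.2.1 (π.injective (h.trans hπ1.symm))
      · intro h
        exact hu.1 (π.injective (h.trans hπ2.symm))
    rw [h8]
  have hsum : ∀ g : ℕ → ℕ, ∑ u ∈ K, g u = g v1 + (g v2 + ∑ u ∈ (K.erase v1).erase v2, g u) := by
    intro g
    rw [← Finset.add_sum_erase K g h1,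
      ← Finset.add_sum_erase (K.erase v1) g (Finset.mem_erase.2 ⟨h12.symm, h2⟩)]
  unfold stp
  rw [hsum, hsum, Finset.sum_congr rfl hrest]
  have e1 : π' v1 = u4 := by
    show Equiv.swap u3 u4 (π v1) = u4
    rw [hπ1, Equiv.swap_apply_left]
  have e2 : π' v2 = u3 := by
    show Equiv.swap u3 u4 (π v2) = u3
    rw [hπ2, Equiv.swap_apply_right]
  rw [hπ1, hπ2, e1, e2]
  simp only [if_pos h6, if_neg h7]
  omega

/-- A twist keeps the weights non-constant. -/
theorem stp_step {y : St a ℕ} (hy : Rich y) {K K' : Finset ℕ} {s : Set (Fo a)} {X : ℕ → ℕ}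
    {u0 w0 : ℕ} (hK : ∀ u, u ∈ K ↔ tp y u u = tp y u0 u0)
    (hK' : ∀ w, w ∈ K' ↔ tp y w w = tp y w0 w0) {v1 v2 : ℕ} (h1 : v1 ∈ K) (h2 : v2 ∈ K)
    (h5 : X v1 ≠ X v2) {w1 w2 : ℕ} (hw1 : tp y w1 w1 = tp y w0 w0)
    (hw2 : tp y w2 w2 = tp y w0 w0) (hne : tp y u0 w1 ≠ tp y u0 w2) (hs : s = tp y u0 w1) :
    ∃ π, TPerm y π ∧ ∃ w3 ∈ K', ∃ w4 ∈ K', stp y K s π X w3 ≠ stp y K s π X w4 := by
  classical
  by_contra hc
  push Not at hc
  obtain ⟨⟨u3, hu3⟩, u4, hu4, hu4'⟩ := hy.nc_col (w := w0) hw1 hw2 hne hs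
  have h3 : u3 ∈ K := (hK u3).2 (by rw [hs] at hu3; exact tp_left hu3)
  have h4 : u4 ∈ K := (hK u4).2 hu4
  obtain ⟨π, π', hπ, hπ', hne2⟩ := stp_two hK h1 h2 h3 h4 h5 hu3 hu4'
  have hw0 : w0 ∈ K' := (hK' w0).2 rfl
  have htot : ∀ π, TPerm y π → K'.card * stp y K s π X w0 =
      (K'.filter fun w => tp y u0 w = s).card * ∑ u ∈ K, X u := by
    intro π hπ
    have e1 : ∑ w ∈ K', stp y K s π X w = K'.card * stp y K s π X w0 := by
      rw [Finset.sum_congr rfl fun w hw => hc π hπ w hw w0 hw0, Finset.sum_const, smul_eq_mul]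
    rw [← e1]
    unfold stp
    rw [Finset.sum_comm, Finset.mul_sum]
    refine Finset.sum_congr rfl fun u hu => ?_
    rw [← Finset.sum_filter, Finset.sum_const, smul_eq_mul]
    congr 1
    have h6 : tp y (π u) (π u) = tp y u0 u0 := (hπ u).trans ((hK u).1 hu)
    have h7 := hy.eq h6 s
    have h8 : ∀ v, tp y v v = tp y u0 u0 → {w | tp y v w = s} =
        ((K'.filter fun w => tp y v w = s : Finset ℕ) : Set ℕ) := by
      intro v _
      ext w
      simp only [mem_ofPred_eq, Finset.coe_filter]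
      constructor
      · intro h9
        refine ⟨(hK' w).2 ?_, h9⟩
        rw [hs] at h9
        exact (tp_right h9).trans hw1
      · exact fun h9 => h9.2
    rw [h8 _ h6, h8 _ rfl, encard_coe_eq_coe_finsetCard, encard_coe_eq_coe_finsetCard] at h7
    exact_mod_cast h7
  have hpos : 0 < K'.card := Finset.card_pos.2 ⟨w0, hw0⟩
  apply hne2
  have h8 := (htot π hπ).trans (htot π' hπ').symm
  exact Nat.eq_of_mul_eq_mul_left hpos h8

end Pool.Agent.L7h71.CC
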