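import Pool.Agent.L7h71.CC.E4

set_option autoImplicit false

/-!
Two algebraic types joined by infinitely many disjoint paths give perfectly many structures, second
part.
-/

namespace Pool.Agent.L7h71.CC

open Function Set MeasureTheory Filter
open scoped ENNReal
open Pool.Agent.L7h71.COV (Str Iso)

variable {a : ℕ → ℕ}

/-- infinitely many disjoint paths of algebraic types -/
structure Pths (y : St a ℕ) where
  len : ℕ → ℕ
  node : ℕ → ℕ → ℕ
  f0 : ℕ
  f1 : ℕ
  h0 : ∀ n, node n 0 = f0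
  h1 : ∀ n, node n (len n + 1) = f1
  hlen : ∀ n, 1 ≤ len n
  fin : ∀ n i, i ≤ len n + 1 → Fi y (node n i)
  nc : ∀ n i, i ≤ len n → NC y (node n i) (node n (i + 1))
  inj : ∀ n i m j, 1 ≤ i → i ≤ len n → 1 ≤ j → j ≤ len m →
    tp y (node n i) (node n i) = tp y (node m j) (node m j) → n = m ∧ i = j
  ne0 : ∀ n i, 1 ≤ i → i ≤ len n → tp y (node n i) (node n i) ≠ tp y f0 f0
  ne1 : ∀ n i, 1 ≤ i → i ≤ len n → tp y (node n i) (node n i) ≠ tp y f1 f1
  ne01 : tp y f0 f0 ≠ tp y f1 f1

namespace Pths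

variable {y : St a ℕ} (E : Pths y)

theorem edge_inj {n i m j : ℕ} (hi : i ≤ E.len n) (hj : j ≤ E.len m)
    (h1 : tp y (E.node n i) (E.node n i) = tp y (E.node m j) (E.node m j))
    (h2 : tp y (E.node n (i + 1)) (E.node n (i + 1)) =
      tp y (E.node m (j + 1)) (E.node m (j + 1))) : n = m ∧ i = j := by
  have hn := E.hlen n
  have hm := E.hlen m
  rcases Nat.eq_zero_or_pos i with rfl | hi0
  · rcases Nat.eq_zero_or_pos j with rfl | hj0
    · exact ⟨(E.inj n 1 m 1 le_rfl hn le_rfl hm h2).1, rfl⟩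
    · rw [E.h0] at h1
      exact absurd h1.symm (E.ne0 m j hj0 hj)
  · rcases Nat.eq_zero_or_pos j with rfl | hj0
    · rw [E.h0] at h1
      exact absurd h1 (E.ne0 n i hi0 hi)
    · exact E.inj n i m j hi0 hi hj0 hj h1

theorem edge_rev {n i m j : ℕ} (hi : i ≤ E.len n) (hj : j ≤ E.len m)
    (h1 : tp y (E.node n i) (E.node n i) = tp y (E.node m (j + 1)) (E.node m (j + 1)))
    (h2 : tp y (E.node n (i + 1)) (E.node n (i + 1)) = tp y (E.node m j) (E.node m j)) :
    False := by
  have hn := E.hlen n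
  have hm := E.hlen m
  rcases Nat.eq_zero_or_pos i with rfl | hi0
  · rw [E.h0] at h1
    rcases Nat.lt_or_ge j (E.len m) with h3 | h3
    · exact E.ne0 m (j + 1) (by omega) h3 h1.symm
    · have h4 : j = E.len m := by omega
      rw [h4, E.h1] at h1
      exact E.ne01 h1
  · rcases Nat.lt_or_ge j (E.len m) with h3 | h3
    · obtain ⟨rfl, h4⟩ := E.inj n i m (j + 1) hi0 hi (by omega) h3 h1
      rcases Nat.eq_zero_or_pos j with rfl | hj0
      · rw [E.h0] at h2
        rcases Nat.lt_or_ge i (E.len n) with h5 | h5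
        · exact E.ne0 n (i + 1) (by omega) h5 h2
        · have h6 : i = E.len n := by omega
          rw [h6, E.h1] at h2
          exact E.ne01 h2.symm
      · rcases Nat.lt_or_ge i (E.len n) with h5 | h5
        · have := (E.inj n (i + 1) n j (by omega) h5 hj0 hj h2).2
          omega
        · have h6 : i = E.len n := by omega
          rw [h6, E.h1] at h2
          exact E.ne1 n j hj0 hj h2.symm
    · have h4 : j = E.len m := by omega
      rw [h4, E.h1] at h1
      exact E.ne1 n i hi0 hi h1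

theorem edge_ne {n i : ℕ} (hi : i ≤ E.len n) :
    tp y (E.node n i) (E.node n i) ≠ tp y (E.node n (i + 1)) (E.node n (i + 1)) := by
  intro h
  exact E.edge_rev hi hi h h.symm

/-- the label of an edge -/
noncomputable def s (n i : ℕ) : Set (Fo a) :=
  open Classical in if h : NC y (E.node n i) (E.node n (i + 1)) then
    tp y (E.node n i) (Classical.choose h) else ∅

theorem s_spec {n i : ℕ} (hi : i ≤ E.len n) : ∃ w1 w2,
    tp y w1 w1 = tp y (E.node n (i + 1)) (E.node n (i + 1)) ∧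
    tp y w2 w2 = tp y (E.node n (i + 1)) (E.node n (i + 1)) ∧
    tp y (E.node n i) w1 ≠ tp y (E.node n i) w2 ∧ E.s n i = tp y (E.node n i) w1 := by
  have h := E.nc n i hi
  obtain ⟨w2, h1, h2, h3⟩ := Classical.choose_spec h
  refine ⟨Classical.choose h, w2, h1, h2, h3, ?_⟩
  unfold s
  rw [dif_pos h]

open Classical in
/-- the finite classes -/
noncomputable def K (n i : ℕ) : Finset ℕ :=
  if h : {w | tp y w w = tp y (E.node n i) (E.node n i)}.Finite then h.toFinset else ∅

theorem mem_K {n i : ℕ} (hi : i ≤ E.len n + 1) (u : ℕ) :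
    u ∈ E.K n i ↔ tp y u u = tp y (E.node n i) (E.node n i) := by
  have h : {w | tp y w w = tp y (E.node n i) (E.node n i)}.Finite := E.fin n i hi
  unfold K
  rw [dif_pos h, Finite.mem_toFinset]
  rfl

theorem exists_weights (hy : Rich y) (n : ℕ) : ∀ m, m ≤ E.len n →
    ∃ (π : ℕ → Equiv.Perm ℕ) (X : ℕ → ℕ → ℕ), (∀ w, X 0 w = if w = E.f0 then 1 else 0) ∧
      (∀ i < m, TPerm y (π i) ∧ ∀ w, X (i + 1) w = stp y (E.K n i) (E.s n i) (π i) (X i) w) ∧
      ∃ v1 ∈ E.K n m, ∃ v2 ∈ E.K n m, X m v1 ≠ X m v2 := by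
  classical
  intro m
  induction m with
  | zero =>
    intro _
    refine ⟨fun _ => 1, fun _ w => if w = E.f0 then 1 else 0, fun w => rfl,
      fun i hi => absurd hi (by omega), ?_⟩
    -- the first class has at least two elements
    obtain ⟨w1, w2, h1, h2, h3, h4⟩ := E.s_spec (n := n) (i := 0) (Nat.zero_le _)
    have h5 : E.f0 ∈ E.K n 0 := by
      rw [E.mem_K (Nat.zero_le _), E.h0]
    obtain ⟨u, hu⟩ := hy.ex (R := y) (u := w1) (u' := w2) (w' := E.node n 0) (h1.trans h2.symm)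
    refine ⟨E.f0, h5, u, ?_, ?_⟩
    · rw [E.mem_K (Nat.zero_le _)]
      exact tp_right hu
    · have h6 : u ≠ E.f0 := by
        rintro rfl
        apply h3
        rw [E.h0] at hu ⊢
        exact tp_inv hu
      simp [h6]
  | succ m ih =>
    intro hm
    obtain ⟨π, X, hX0, hX, v1, hv1, v2, hv2, hne⟩ := ih (by omega)
    obtain ⟨w1, w2, h1, h2, h3, h4⟩ := E.s_spec (n := n) (i := m) (by omega)
    obtain ⟨ρ, hρ, w3, hw3, w4, hw4, hne2⟩ := stp_step hy (K := E.K n m) (K' := E.K n (m + 1))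
      (s := E.s n m) (X := X m) (E.mem_K (by omega)) (E.mem_K (by omega)) hv1 hv2 hne h1 h2 h3 h4
    refine ⟨update π m ρ, update X (m + 1) (stp y (E.K n m) (E.s n m) ρ (X m)), ?_, ?_, w3, hw3,
      w4, hw4, ?_⟩
    · intro w
      rw [update_of_ne (by omega)]
      exact hX0 w
    · intro i hi
      rcases Nat.lt_succ_iff_lt_or_eq.1 hi with h | h
      · rw [update_of_ne (by omega : i ≠ m), update_of_ne (by omega : i ≠ m + 1),
          update_of_ne (by omega : i + 1 ≠ m + 1)]
        exact hX i h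
      · subst h
        rw [update_self, update_self, update_of_ne (by omega : i ≠ i + 1)]
        exact ⟨hρ, fun w => rfl⟩
    · rw [update_self]
      exact hne2

/-- the data of a path -/
structure Wd (n : ℕ) where
  π : ℕ → Equiv.Perm ℕ
  X : ℕ → ℕ → ℕ
  ρ : Bool → Equiv.Perm ℕ
  X0 : ∀ w, X 0 w = if w = E.f0 then 1 else 0
  hπ : ∀ i < E.len n, TPerm y (π i)
  hX : ∀ i < E.len n, ∀ w, X (i + 1) w = stp y (E.K n i) (E.s n i) (π i) (X i) w
  hρ : ∀ β, TPerm y (ρ β)
  ne : stp y (E.K n (E.len n)) (E.s n (E.len n)) (ρ false) (X (E.len n)) E.f1 ≠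
    stp y (E.K n (E.len n)) (E.s n (E.len n)) (ρ true) (X (E.len n)) E.f1

theorem exists_wd (hy : Rich y) (n : ℕ) : Nonempty (E.Wd n) := by
  classical
  obtain ⟨π, X, hX0, hX, v1, hv1, v2, hv2, hne⟩ := E.exists_weights hy n (E.len n) le_rfl
  obtain ⟨w1, w2, h1, h2, h3, h4⟩ := E.s_spec (n := n) (i := E.len n) le_rfl
  rw [E.h1] at h1 h2
  obtain ⟨⟨u3, hu3⟩, u4, hu4, hu4'⟩ := hy.nc_col (w := E.f1) h1 h2 h3 h4
  have h5 : u3 ∈ E.K n (E.len n) := by
    rw [E.mem_K (by omega)]
    rw [h4] at hu3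
    exact tp_left hu3
  have h6 : u4 ∈ E.K n (E.len n) := by
    rw [E.mem_K (by omega)]
    exact hu4
  obtain ⟨ρ, ρ', hρ, hρ', hne2⟩ := stp_two (K := E.K n (E.len n)) (s := E.s n (E.len n))
    (X := X (E.len n)) (w := E.f1) (E.mem_K (by omega)) hv1 hv2 h5 h6 hne hu3 hu4'
  exact ⟨⟨π, X, fun β => cond β ρ' ρ, hX0, fun i hi => (hX i hi).1, fun i hi => (hX i hi).2,
    fun β => by cases β; exacts [hρ, hρ'], hne2⟩⟩

/-- the data of all paths -/
noncomputable def wd (hy : Rich y) (n : ℕ) : E.Wd n := Classical.choice (E.exists_wd hy n)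

open Classical in
/-- the twists -/
noncomputable def th (hy : Rich y) (b : ℕ → Bool) (u w : ℕ) : Equiv.Perm ℕ :=
  if h : ∃ p : ℕ × ℕ, p.2 ≤ E.len p.1 ∧ tp y u u = tp y (E.node p.1 p.2) (E.node p.1 p.2) ∧
    tp y w w = tp y (E.node p.1 (p.2 + 1)) (E.node p.1 (p.2 + 1)) then
    (if (Classical.choose h).2 = E.len (Classical.choose h).1 then
      (E.wd hy (Classical.choose h).1).ρ (b (Classical.choose h).1)
    else (E.wd hy (Classical.choose h).1).π (Classical.choose h).2) else 1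

theorem th_pos (hy : Rich y) (b : ℕ → Bool) {u w n i : ℕ} (hi : i ≤ E.len n)
    (h1 : tp y u u = tp y (E.node n i) (E.node n i))
    (h2 : tp y w w = tp y (E.node n (i + 1)) (E.node n (i + 1))) :
    E.th hy b u w = if i = E.len n then (E.wd hy n).ρ (b n) else (E.wd hy n).π i := by
  classical
  have h : ∃ p : ℕ × ℕ, p.2 ≤ E.len p.1 ∧ tp y u u = tp y (E.node p.1 p.2) (E.node p.1 p.2) ∧
    tp y w w = tp y (E.node p.1 (p.2 + 1)) (E.node p.1 (p.2 + 1)) := ⟨(n, i), hi, h1, h2⟩
  unfold th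
  rw [dif_pos h]
  have h3 := Classical.choose_spec h
  have h4 : Classical.choose h = (n, i) := by
    have h5 := E.edge_inj h3.1 hi (h3.2.1.symm.trans h1) (h3.2.2.symm.trans h2)
    exact Prod.ext h5.1 h5.2
  rw [h4]

theorem th_neg (hy : Rich y) (b : ℕ → Bool) {u w n i : ℕ} (hi : i ≤ E.len n)
    (h1 : tp y u u = tp y (E.node n i) (E.node n i))
    (h2 : tp y w w = tp y (E.node n (i + 1)) (E.node n (i + 1))) : E.th hy b w u = 1 := by
  classical
  unfold th
  rw [dif_neg]
  rintro ⟨p, h3, h4, h5⟩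
  exact E.edge_rev hi h3 (h1.symm.trans h5) (h2.symm.trans h4)

theorem th_tperm (hy : Rich y) (b : ℕ → Bool) (u w : ℕ) : TPerm y (E.th hy b u w) := by
  classical
  unfold th
  split_ifs with h h1
  · exact (E.wd hy _).hρ _
  · have h3 := (Classical.choose_spec h).1
    exact (E.wd hy _).hπ _ (by omega)
  · exact TPerm.one y

theorem th_congr (hy : Rich y) (b : ℕ → Bool) (u w u' w' : ℕ) (h1 : tp y u u = tp y u' u')
    (h2 : tp y w w = tp y w' w') : E.th hy b u w = E.th hy b u' w' := by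
  classical
  by_cases h : ∃ p : ℕ × ℕ, p.2 ≤ E.len p.1 ∧ tp y u u = tp y (E.node p.1 p.2) (E.node p.1 p.2) ∧
    tp y w w = tp y (E.node p.1 (p.2 + 1)) (E.node p.1 (p.2 + 1))
  · obtain ⟨p, h3, h4, h5⟩ := h
    rw [E.th_pos hy b h3 h4 h5, E.th_pos hy b h3 (h1.symm.trans h4) (h2.symm.trans h5)]
  · unfold th
    rw [dif_neg h, dif_neg]
    rintro ⟨p, h3, h4, h5⟩
    exact h ⟨p, h3, h1.trans h4, h2.trans h5⟩

theorem th_cont (hy : Rich y) (u w : ℕ) : Continuous fun b => E.th hy b u w u := by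
  classical
  unfold th
  by_cases h : ∃ p : ℕ × ℕ, p.2 ≤ E.len p.1 ∧ tp y u u = tp y (E.node p.1 p.2) (E.node p.1 p.2) ∧
    tp y w w = tp y (E.node p.1 (p.2 + 1)) (E.node p.1 (p.2 + 1))
  · simp only [dif_pos h]
    split_ifs
    · exact (continuous_of_discreteTopology (f := fun β : Bool =>
        (E.wd hy (Classical.choose h).1).ρ β u)).comp (continuous_apply _)
    · exact continuous_const
  · simp only [dif_neg h]
    exact continuous_const

open Classical in
/-- the weights in a structure -/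
noncomputable def Wt (z : St a ℕ) (u0 n : ℕ) : ℕ → ℕ → ℝ≥0∞
  | 0, w => if w = u0 then 1 else 0
  | i + 1, w => ∑' u, if tp z u w = E.s n i then Wt z u0 n i u else 0

theorem Wt_meas (u0 n i w : ℕ) : Measurable fun x : Str a => E.Wt (toS x) u0 n i w := by
  classical
  induction i generalizing w with
  | zero => exact measurable_const
  | succ i ih =>
    show Measurable fun x : Str a => ∑' u, if tp (toS x) u w = E.s n i then
      E.Wt (toS x) u0 n i u else 0
    refine Measurable.tsum fun u => ?_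
    exact Measurable.ite (measurableSet_setOfPred.2 (measurable_tp _ _ _)) (ih u) measurable_const

theorem Wt_iso {x x' : Str a} {σ : Equiv.Perm ℕ}
    (h : ∀ (i : ℕ) (v : Fin (a i) → ℕ), x' i (⇑σ ∘ v) = x i v) (u0 n i w : ℕ) :
    E.Wt (toS x') (σ u0) n i (σ w) = E.Wt (toS x) u0 n i w := by
  classical
  induction i generalizing w with
  | zero =>
    simp only [Wt, EmbeddingLike.apply_eq_iff_eq]
  | succ i ih =>
    show (∑' u, if tp (toS x') u (σ w) = E.s n i then E.Wt (toS x') (σ u0) n i u else 0) =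
      ∑' u, if tp (toS x) u w = E.s n i then E.Wt (toS x) u0 n i u else 0
    rw [← σ.tsum_eq]
    refine tsum_congr fun u => ?_
    rw [tp_iso h, ih]

end Pths

/-- Infinitely many disjoint paths give perfectly many structures. -/
theorem perf_pths {B : Set (Str a)} {x : Str a} (hx : x ∈ B) (hcl : Closed B)
    (hy : Rich (toS x)) (E : Pths (toS x)) : Perf B := by
  classical
  obtain ⟨z, ε, hz1, hz2, hz3⟩ := fam hx hcl (fun v : ℕ => v)
    (fun b v w => (E.th hy b v w v, E.th hy b w v w))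
    (fun b => hy.twist _ (E.th_tperm hy b) (E.th_congr hy b))
    (fun v w => (E.th_cont hy v w).prodMk (E.th_cont hy w v))
  have hself : ∀ b v, tp (toS (z b)) (ε v) (ε v) = tp (toS x) v v := by
    intro b v
    rw [hz3]
    simp [rp]
  have hedge : ∀ b n i u w, i ≤ E.len n → tp (toS x) u u = tp (toS x) (E.node n i) (E.node n i) →
      tp (toS x) w w = tp (toS x) (E.node n (i + 1)) (E.node n (i + 1)) →
      tp (toS (z b)) (ε u) (ε w) = tp (toS x)
        ((if i = E.len n then (E.wd hy n).ρ (b n) else (E.wd hy n).π i) u) w := by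
    intro b n i u w hi h1 h2
    have huw : u ≠ w := by
      rintro rfl
      exact E.edge_ne hi (h1.symm.trans h2)
    rw [hz3]
    simp only [rp, if_neg huw]
    rw [E.th_pos hy b hi h1 h2, E.th_neg hy b hi h1 h2]
    rfl
  have hstep : ∀ b n i w (X : ℕ → ℕ) (W : ℕ → ℝ≥0∞), i ≤ E.len n →
      tp (toS x) w w = tp (toS x) (E.node n (i + 1)) (E.node n (i + 1)) →
      (∀ u ∈ E.K n i, W (ε u) = X u) →
      (∑' u, if tp (toS (z b)) u (ε w) = E.s n i then W u else 0) =
        (stp (toS x) (E.K n i) (E.s n i)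
          (if i = E.len n then (E.wd hy n).ρ (b n) else (E.wd hy n).π i) X w : ℕ) := by
    intro b n i w X W hi hw hW
    rw [← ε.tsum_eq, tsum_eq_sum (s := E.K n i)]
    · unfold stp
      rw [Nat.cast_sum]
      refine Finset.sum_congr rfl fun u hu => ?_
      rw [hedge b n i u w hi ((E.mem_K (by omega) u).1 hu) hw]
      by_cases h : tp (toS x) ((if i = E.len n then (E.wd hy n).ρ (b n) else
          (E.wd hy n).π i) u) w = E.s n i
      · rw [if_pos h, if_pos h]
        exact hW u hu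
      · rw [if_neg h, if_neg h]
        simp
    · intro u hu
      rw [if_neg]
      intro h
      apply hu
      rw [E.mem_K (by omega), ← hself b u]
      obtain ⟨w1, w2, h1, h2, h3, h4⟩ := E.s_spec (n := n) (i := i) hi
      rw [h4] at h
      exact tp_left h
  have hW : ∀ b n i, i ≤ E.len n → ∀ w ∈ E.K n i,
      E.Wt (toS (z b)) (ε E.f0) n i (ε w) = ((E.wd hy n).X i w : ℕ) := by
    intro b n i
    induction i with
    | zero =>
      intro _ w _
      simp only [Pths.Wt, EmbeddingLike.apply_eq_iff_eq, (E.wd hy n).X0]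
      split_ifs <;> simp
    | succ i ih =>
      intro hi w hw
      have h1 := hstep b n i w ((E.wd hy n).X i) (E.Wt (toS (z b)) (ε E.f0) n i) (by omega)
        ((E.mem_K (by omega) w).1 hw) (ih (by omega))
      rw [if_neg (by omega : ¬ i = E.len n), ← (E.wd hy n).hX i (by omega)] at h1
      exact h1
  have hfinal : ∀ b n, E.Wt (toS (z b)) (ε E.f0) n (E.len n + 1) (ε E.f1) =
      (stp (toS x) (E.K n (E.len n)) (E.s n (E.len n)) ((E.wd hy n).ρ (b n))
        ((E.wd hy n).X (E.len n)) E.f1 : ℕ) := by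
    intro b n
    have h1 := hstep b n (E.len n) E.f1 ((E.wd hy n).X (E.len n))
      (E.Wt (toS (z b)) (ε E.f0) n (E.len n)) le_rfl (by rw [E.h1]) (hW b n _ le_rfl)
    rw [if_pos rfl] at h1
    exact h1
  refine perf_of_dec (ι := ℕ × ℕ) z hz1 hz2
    (fun p x' n => E.Wt (toS x') p.1 n (E.len n + 1) p.2 =
      (stp (toS x) (E.K n (E.len n)) (E.s n (E.len n)) ((E.wd hy n).ρ true)
        ((E.wd hy n).X (E.len n)) E.f1 : ℕ)) ?_ ?_ (ε E.f0, ε E.f1) ?_
  · intro p n
    apply measurableSet_setOfPred.1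
    exact (E.Wt_meas p.1 n _ p.2) (measurableSet_singleton _)
  · rintro p x' y' ⟨σ, hσ⟩
    refine ⟨(σ p.1, σ p.2), fun n => ?_⟩
    show E.Wt (toS x') p.1 n (E.len n + 1) p.2 = _ ↔
      E.Wt (toS y') (σ p.1) n (E.len n + 1) (σ p.2) = _
    rw [E.Wt_iso hσ]
  · intro b n
    show E.Wt (toS (z b)) (ε E.f0) n (E.len n + 1) (ε E.f1) = _ ↔ _
    rw [hfinal, Nat.cast_inj]
    cases hb : b n
    · simp only [Bool.false_eq_true, iff_false]
      exact (E.wd hy n).ne
    · simp

end Pool.Agent.L7h71.CC
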