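import Pool.Agent.L7h71.CC.Ric

set_option autoImplicit false

/-!
Rich structures: degrees, generic pairs, and families of structures.
-/

namespace Pool.Agent.L7h71.CC

open Function Set MeasureTheory Filter
open Pool.Agent.L7h71.COV (Str Iso)

variable {a : ℕ → ℕ}

/-- elements of algebraic type -/
def Fi (y : St a ℕ) (u : ℕ) : Prop := {w | tp y w w = tp y u u}.Finite

/-- big from the left -/
def LB (y : St a ℕ) (u w : ℕ) : Prop := {w1 | tp y u w1 = tp y u w}.Infinite

/-- big from both sides -/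
def MB (y : St a ℕ) (u w : ℕ) : Prop := u ≠ w ∧ LB y u w ∧ LB y w u

variable {y : St a ℕ}

theorem Fi.congr {u u' : ℕ} (h : tp y u u = tp y u' u') : Fi y u ↔ Fi y u' := by
  unfold Fi
  rw [h]

theorem Rich.lb (hy : Rich y) {u w u' w' : ℕ} (h : tp y u w = tp y u' w') :
    LB y u w ↔ LB y u' w' := by
  unfold LB
  have h1 := hy.eq (tp_left h) (tp y u w)
  rw [← h]
  rw [← encard_eq_top_iff, ← encard_eq_top_iff, h1]

theorem Rich.mb (hy : Rich y) {u w u' w' : ℕ} (h : tp y u w = tp y u' w') :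
    MB y u w ↔ MB y u' w' := by
  unfold MB
  rw [hy.lb h, hy.lb (tp_inv h), ne_eq, ne_eq, tp_ne h]

theorem Rich.fi_inf (hy : Rich y) {u w : ℕ} (hu : Fi y u) (hw : ¬ Fi y w) : LB y u w := by
  by_contra h
  unfold LB at h
  rw [not_infinite] at h
  apply hw
  unfold Fi at hu ⊢
  have h1 : {w2 | tp y w2 w2 = tp y w w} ⊆
      ⋃ u' ∈ {u' | tp y u' u' = tp y u u}, {w1 | tp y u' w1 = tp y u w} := by
    intro w2 hw2
    obtain ⟨u', hu'⟩ := hy.ex (R := y) (u' := w) (w' := u) hw2
    exact mem_biUnion (tp_right hu') (tp_inv hu')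
  refine (hu.biUnion fun u' hu' => ?_).subset h1
  have h2 := hy.eq hu' (tp y u w)
  rw [← encard_lt_top_iff] at h ⊢
  rw [h2]
  exact h

theorem Rich.mb_inf {u w : ℕ} (hu : LB y u w) : ¬ Fi y w := by
  intro h
  apply hu
  refine h.subset ?_
  intro w1 hw1
  exact tp_right hw1

/-- Between two infinite types there is a generic pair. -/
theorem Rich.mb_ex (hy : Rich y) {u w : ℕ} (hu : ¬ Fi y u) (hw : ¬ Fi y w) :
    ∃ w', tp y w' w' = tp y w w ∧ MB y u w' := by
  classical
  let SL : Fo a → Prop := fun φ => ∃ k, Fo.cnt k φ ∉ tp y u u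
  let SR : Fo a → Prop := fun φ => ∃ k, Fo.cnt k (Fo.sub not φ) ∉ tp y w w
  have hsub : ∀ (φ : Fo a) (c d : ℕ), Fo.sub not φ ∈ tp y c d ↔ φ ∈ tp y d c := by
    intro φ c d
    show Sat y φ (pk c d ∘ not) ↔ _
    rw [pk_comp]
    rfl
  have hsl : ∀ φ, SL φ → ∀ u', tp y u' u' = tp y u u → {w' | φ ∈ tp y u' w'}.Finite := by
    rintro φ ⟨k, hk⟩ u' hu'
    rw [← hu', cnt_iff_encard, not_le] at hk
    exact finite_of_encard_le_coe hk.le
  have hsr : ∀ φ, ∃ k : ℕ, SR φ → ∀ w', tp y w' w' = tp y w w →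
      {u' | φ ∈ tp y u' w'}.encard ≤ k := by
    intro φ
    by_cases h : SR φ
    · obtain ⟨k, hk⟩ := h
      refine ⟨k, fun _ w' hw' => ?_⟩
      rw [← hw', cnt_iff_encard, not_le] at hk
      refine le_trans (encard_le_encard ?_) hk.le
      intro u' hu'
      exact (hsub φ w' u').2 hu'
    · exact ⟨0, fun h' => absurd h' h⟩
  choose K hK using hsr
  have key : ∀ n, ∃ w', u ≠ w' ∧ tp y w' w' = tp y w w ∧
      ∀ l < n, (SL (en l) → en l ∉ tp y u w') ∧ (SR (en l) → en l ∉ tp y u w') := by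
    intro n
    have h1 : ∃ u' w', tp y u' u' = tp y u u ∧ tp y w' w' = tp y w w ∧ u' ≠ w' ∧
        ∀ l < n, (SL (en l) → en l ∉ tp y u' w') ∧ (SR (en l) → en l ∉ tp y u' w') := by
      obtain ⟨P0, hP0, hP1⟩ := (show {u' | tp y u' u' = tp y u u}.Infinite from
        hu).exists_subset_card_eq (∑ l ∈ Finset.range n, K (en l) + 1)
      have hfin : ((⋃ u' ∈ P0, ⋃ l ∈ Finset.range n, {w' | SL (en l) ∧ en l ∈ tp y u' w'}) ∪
          (P0 : Set ℕ)).Finite := by
        refine Finite.union ?_ P0.finite_toSet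
        refine P0.finite_toSet.biUnion fun u' hu' => ?_
        refine (Finset.range n).finite_toSet.biUnion fun l _ => ?_
        by_cases h : SL (en l)
        · refine (hsl _ h u' (hP0 hu')).subset ?_
          intro w' hw'
          exact hw'.2
        · refine finite_empty.subset ?_
          intro w' hw'
          exact absurd hw'.1 h
      obtain ⟨w', hw'1, hw'2⟩ := (show {w' | tp y w' w' = tp y w w}.Infinite from
        hw).exists_notMem_finite hfin
      simp only [mem_union, mem_iUnion, not_or, not_exists, mem_ofPred_eq, not_and] at hw'2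
      by_contra hc
      push Not at hc
      have h2 : ∀ u' ∈ P0, ∃ l ∈ Finset.range n, SR (en l) ∧ en l ∈ tp y u' w' := by
        intro u' hu'
        have h3 : u' ≠ w' := by
          rintro rfl
          exact hw'2.2 hu'
        obtain ⟨l, hl, h4⟩ := hc u' w' (hP0 hu') hw'1 h3
        have h5 : SL (en l) → en l ∉ tp y u' w' := fun h6 =>
          hw'2.1 u' hu' l (Finset.mem_range.2 hl) h6
        exact ⟨l, Finset.mem_range.2 hl, h4 h5⟩
      have h3 : (P0 : Set ℕ) ⊆ ⋃ l ∈ Finset.range n, {u' | SR (en l) ∧ en l ∈ tp y u' w'} := by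
        intro u' hu'
        obtain ⟨l, hl, h4⟩ := h2 u' hu'
        exact mem_biUnion hl h4
      have h4 : ∀ m, (⋃ l ∈ Finset.range m, {u' | SR (en l) ∧ en l ∈ tp y u' w'}).encard ≤
          ((∑ l ∈ Finset.range m, K (en l) : ℕ) : ℕ∞) := by
        intro m
        induction m with
        | zero => simp
        | succ m ih =>
          rw [Finset.range_add_one, Finset.set_biUnion_insert,
            Finset.sum_insert Finset.notMem_range_self]
          refine (encard_union_le _ _).trans ?_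
          rw [Nat.cast_add]
          refine add_le_add ?_ ih
          by_cases h : SR (en m)
          · refine le_trans (encard_le_encard ?_) (hK _ h w' hw'1)
            exact fun u' hu' => hu'.2
          · have : {u' | SR (en m) ∧ en m ∈ tp y u' w'} = ∅ := by
              ext u'
              simp [h]
            rw [this]
            simp
      have h5 := (encard_le_encard h3).trans (h4 n)
      rw [encard_coe_eq_coe_finsetCard, hP1] at h5
      have h6 : ∑ l ∈ Finset.range n, K (en l) + 1 ≤ ∑ l ∈ Finset.range n, K (en l) := by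
        exact_mod_cast h5
      omega
    obtain ⟨u', w', h2, h3, h4, h5⟩ := h1
    obtain ⟨w'', hw''⟩ := hy.ex (R := y) (w' := w') h2.symm
    refine ⟨w'', fun h => h4 ((tp_ne hw'').1 h), (tp_right hw'').trans h3, fun l hl => ?_⟩
    rw [hw'']
    exact h5 l hl
  choose w' hw1 hw2 hw3 using key
  let s : Set (Fo a) := {φ | ∀ᶠ n in (U : Filter ℕ), φ ∈ tp y u (w' n)}
  have hfin : ∀ m, ∀ᶠ n in (U : Filter ℕ), fp s m ∈ tp y u (w' n) := by
    intro m
    have h1 : ∀ l, ∀ᶠ n in (U : Filter ℕ), (en l ∈ tp y u (w' n) ↔ en l ∈ s) := by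
      intro l
      by_cases h : en l ∈ s
      · filter_upwards [h] with n hn
        exact ⟨fun _ => h, fun _ => hn⟩
      · have h2 : ∀ᶠ n in (U : Filter ℕ), ¬ en l ∈ tp y u (w' n) := by
          rw [Ultrafilter.eventually_not]
          exact h
        filter_upwards [h2] with n hn
        exact ⟨fun h' => absurd h' hn, fun h' => absurd h' h⟩
    have h2 : ∀ᶠ n in (U : Filter ℕ), ∀ l ∈ Finset.range m,
        (en l ∈ tp y u (w' n) ↔ en l ∈ s) := by
      rw [eventually_all_finset]
      exact fun l _ => h1 l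
    filter_upwards [h2] with n hn
    rw [mem_fp]
    exact fun l hl => hn l (Finset.mem_range.2 hl)
  obtain ⟨v, hv⟩ : ∃ v, tp y u v = s := by
    have h1 : ((1 : ℕ) : ℕ∞) ≤ {v | tp y u v = s}.encard := by
      refine hy u s 1 fun m => ?_
      obtain ⟨n, hn⟩ := (hfin m).exists
      rw [cnt_iff]
      exact ⟨fun _ => w' n, fun j l _ => Subsingleton.elim _ _, fun _ => hn⟩
    rw [Nat.cast_one, one_le_encard_iff_nonempty] at h1
    exact h1
  have hge : ∀ m, ∀ᶠ n in (U : Filter ℕ), m < n := fun m =>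
    Nat.hyperfilter_le_atTop (eventually_gt_atTop m)
  have hsmall : ∀ φ, φ ∈ s → ¬ SL φ ∧ ¬ SR φ := by
    intro φ hφ
    obtain ⟨l, rfl⟩ := en_surj φ
    obtain ⟨n, hn1, hn2⟩ := (Eventually.and hφ (hge l)).exists
    exact ⟨fun h => (hw3 n l hn2).1 h hn1, fun h => (hw3 n l hn2).2 h hn1⟩
  refine ⟨v, ?_, ?_, ?_, ?_⟩
  · ext φ
    obtain ⟨l, rfl⟩ := en_surj φ
    have h1 : en l ∈ tp y v v ↔ Fo.sub (fun _ => true) (en l) ∈ tp y u v := by
      show _ ↔ Sat y (en l) (pk u v ∘ fun _ => true)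
      rw [pk_comp]
      rfl
    rw [h1, hv]
    have h2 : ∀ n, Fo.sub (fun _ => true) (en l) ∈ tp y u (w' n) ↔ en l ∈ tp y w w := by
      intro n
      rw [← hw2 n]
      show Sat y (en l) (pk u (w' n) ∘ fun _ => true) ↔ _
      rw [pk_comp]
      rfl
    show (∀ᶠ n in (U : Filter ℕ), Fo.sub (fun _ => true) (en l) ∈ tp y u (w' n)) ↔ _
    simp only [h2]
    exact eventually_const
  · rintro rfl
    have h1 : Fo.eq false true ∈ tp y u u := rfl
    rw [hv] at h1
    obtain ⟨n, hn⟩ := Eventually.exists h1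
    exact hw1 n hn
  · unfold LB
    rw [← encard_eq_top_iff, ENat.eq_top_iff_forall_ge]
    intro k
    rw [hv]
    refine hy u s k fun m => ?_
    by_contra h
    have h1 : fp s m ∈ s := by
      rw [← hv]
      exact fp_of_eq m
    exact (hsmall _ h1).1 ⟨k, h⟩
  · unfold LB
    rw [← encard_eq_top_iff, ENat.eq_top_iff_forall_ge]
    intro k
    refine hy v _ k fun m => ?_
    by_contra h
    have h1 : Fo.sub not (fp (tp y v u) m) ∈ s := by
      rw [← hv, hsub]
      exact fp_of_eq m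
    apply (hsmall _ h1).2
    refine ⟨k, fun h2 => h ?_⟩
    have h3 : tp y v v = tp y w w := by
      ext φ
      obtain ⟨l, rfl⟩ := en_surj φ
      have h1 : en l ∈ tp y v v ↔ Fo.sub (fun _ => true) (en l) ∈ tp y u v := by
        show _ ↔ Sat y (en l) (pk u v ∘ fun _ => true)
        rw [pk_comp]
        rfl
      rw [h1, hv]
      have h2 : ∀ n, Fo.sub (fun _ => true) (en l) ∈ tp y u (w' n) ↔ en l ∈ tp y w w := by
        intro n
        rw [← hw2 n]
        show Sat y (en l) (pk u (w' n) ∘ fun _ => true) ↔ _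
        rw [pk_comp]
        rfl
      show (∀ᶠ n in (U : Filter ℕ), Fo.sub (fun _ => true) (en l) ∈ tp y u (w' n)) ↔ _
      simp only [h2]
      exact eventually_const
    rw [h3, cnt_iff]
    rw [cnt_iff] at h2
    obtain ⟨x, hx1, hx2⟩ := h2
    refine ⟨x, hx1, fun j => ?_⟩
    have := hx2 j
    rw [hsub, hsub] at this
    exact this

/-- the structure given by reference pairs in a rich structure -/
theorem Rich.good (hy : Rich y) {V : Type} {κ : V → ℕ} {ref : V → V → ℕ × ℕ}
    (swap : ∀ v w, v ≠ w → ref w v = (ref v w).swap)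
    (ne : ∀ v w, v ≠ w → (ref v w).1 ≠ (ref v w).2)
    (typ : ∀ v w, v ≠ w → tp y (ref v w).1 (ref v w).1 = tp y (κ v) (κ v))
    (cnt : ∀ v w, w ≠ κ v →
      {w' | w' ≠ v ∧ tp y (ref v w').1 (ref v w').2 = tp y (κ v) w}.encard =
      {w1 | tp y (κ v) w1 = tp y (κ v) w}.encard) : Good y κ ref :=
  ⟨swap, ne, typ, fun v w' h => hy.ex (typ v w' h.symm).symm, cnt⟩

/-- Families of structures. -/
theorem fam {B : Set (Str a)} {x : Str a} (hx : x ∈ B) (hcl : Closed B) {V : Type} [Countable V]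
    [Infinite V] [Nonempty V] (κ : V → ℕ) (ref : (ℕ → Bool) → V → V → ℕ × ℕ)
    (hg : ∀ c, Good (toS x) κ (ref c)) (hc : ∀ v w, Continuous fun c => ref c v w) :
    ∃ (z : (ℕ → Bool) → Str a) (ε : V ≃ ℕ), Continuous z ∧ (∀ c, z c ∈ B) ∧
      ∀ c v w, tp (toS (z c)) (ε v) (ε w) =
        tp (toS x) (rp κ (ref c) v w).1 (rp κ (ref c) v w).2 := by
  classical
  obtain ⟨ε⟩ : Nonempty (V ≃ ℕ) := nonempty_equiv_of_countable
  have htp : ∀ c v w, tp (toS (ofS (pull (mkR (toS x) κ (ref c)) ε.symm))) (ε v) (ε w) =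
      tp (toS x) (rp κ (ref c) v w).1 (rp κ (ref c) v w).2 := by
    intro c v w
    rw [toS_ofS, pull_tp ε.symm.injective, Equiv.symm_apply_apply, Equiv.symm_apply_apply]
    · exact (hg c).tp_eq v w
    · intro u φ k hk
      obtain ⟨z, hz1, hz2⟩ := cnt_iff.1 hk
      refine ⟨fun j => ε (z j), fun j l hjl => hz1 (ε.injective hjl), fun j => ?_⟩
      simp only [Equiv.symm_apply_apply]
      exact hz2 j
  refine ⟨fun c => ofS (pull (mkR (toS x) κ (ref c)) ε.symm), ε, ?_, fun c => ?_, htp⟩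
  · rw [continuous_pi_iff]
    intro i
    rw [continuous_pi_iff]
    intro t
    show Continuous fun c => decide (toS x i fun k =>
      if h : ∃ j, (ε.symm ∘ t) j ≠ (ε.symm ∘ t) k then
        (ref c ((ε.symm ∘ t) k) ((ε.symm ∘ t) (Classical.choose h))).1 else κ ((ε.symm ∘ t) k))
    have h1 : Continuous fun c => fun k => (if h : ∃ j, (ε.symm ∘ t) j ≠ (ε.symm ∘ t) k then
        (ref c ((ε.symm ∘ t) k) ((ε.symm ∘ t) (Classical.choose h))).1 else
          κ ((ε.symm ∘ t) k)) := by
      rw [continuous_pi_iff]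
      intro k
      by_cases h : ∃ j, (ε.symm ∘ t) j ≠ (ε.symm ∘ t) k
      · simp only [dif_pos h]
        exact continuous_fst.comp (hc _ _)
      · simp only [dif_neg h]
        exact continuous_const
    exact (continuous_of_discreteTopology (f := fun t : Fin (a i) → ℕ =>
      decide (toS x i t))).comp h1
  · obtain ⟨v⟩ := ‹Nonempty V›
    refine hcl.tp hx (u := κ v) (w := ε v) ?_
    rw [htp]
    simp [rp]

end Pool.Agent.L7h71.CC
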