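import Pool.Agent.L7h71.CC.E4b

set_option autoImplicit false

/-!
The graph of the special pairs of a rich structure, first part.
-/

namespace Pool.Agent.L7h71.CC

open Function Set MeasureTheory Filter Relation
open Pool.Agent.L7h71.COV (Str Iso Cyc)

variable {a : ℕ → ℕ}

theorem NC.symm {y : St a ℕ} (hy : Rich y) {u w : ℕ} (h : NC y u w) : NC y w u := by
  obtain ⟨w1, w2, h1, h2, h3⟩ := h
  obtain ⟨⟨u1, hu1⟩, u2, hu2, hne⟩ := hy.nc_col h1 h2 h3 rfl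
  refine ⟨u1, u2, tp_left hu1, hu2, fun h => hne ?_⟩
  exact (tp_inv h).symm.trans hu1

theorem NC.congr {y : St a ℕ} (hy : Rich y) {u w u' w' : ℕ} (hu : tp y u u = tp y u' u')
    (hw : tp y w w = tp y w' w') (h : NC y u w) : NC y u' w' := by
  obtain ⟨w1, w2, h1, h2, h3⟩ := h
  obtain ⟨v1, hv1⟩ := hy.ex (R := y) (u := u') (u' := u) (w' := w1) hu.symm
  obtain ⟨v2, hv2⟩ := hy.ex (R := y) (u := u') (u' := u) (w' := w2) hu.symm
  refine ⟨v1, v2, (tp_right hv1).trans (h1.trans hw), (tp_right hv2).trans (h2.trans hw), ?_⟩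
  rw [hv1, hv2]
  exact h3

/-- attached algebraic types -/
def At (y : St a ℕ) (c f : ℕ) : Prop := ¬ Fi y c ∧ Fi y f ∧ NC y c f

/-- special pairs -/
def Sp (y : St a ℕ) (u w : ℕ) : Prop := u ≠ w ∧ (Link y u w ∨ ((Fi y u ∨ Fi y w) ∧ NC y u w))

theorem Sp.symm {y : St a ℕ} (hy : Rich y) {u w : ℕ} (h : Sp y u w) : Sp y w u := by
  refine ⟨h.1.symm, ?_⟩
  rcases h.2 with h1 | ⟨h1, h2⟩
  · exact Or.inl h1.symm
  · exact Or.inr ⟨h1.symm, h2.symm hy⟩

/-- a good set to be removed -/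
structure Thin (y : St a ℕ) (Z : Set ℕ) : Prop where
  fin : Z.Finite
  fi : ∀ u ∈ Z, Fi y u
  cl : ∀ u w, tp y u u = tp y w w → u ∈ Z → w ∈ Z
  thin : ∀ c c' f f', At y c f → At y c' f' → ReflTransGen (Link y) c c' → f ∉ Z → f' ∉ Z →
    tp y f f = tp y f' f'

theorem exists_thin {B : Set (Str a)} {x : Str a} (hx : x ∈ B) (hcl : Closed B)
    (hy : Rich (toS x)) (hP : ¬ Perf B) : ∃ Z, Thin (toS x) Z := by
  classical
  by_contra hc
  apply hP
  let P : (Bool → ℕ × ℕ) → Prop := fun t => (∀ β, At (toS x) (t β).1 (t β).2) ∧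
    ReflTransGen (Link (toS x)) (t false).1 (t true).1 ∧
    tp (toS x) (t false).2 (t false).2 ≠ tp (toS x) (t true).2 (t true).2
  let r : (Bool → ℕ × ℕ) → (Bool → ℕ × ℕ) → Prop := fun t t' => ∀ β β',
    tp (toS x) (t β).1 (t β).1 = tp (toS x) (t' β').1 (t' β').1 →
    tp (toS x) (t β).2 (t β).2 = tp (toS x) (t' β').2 (t' β').2 → False
  have key : ∀ s : Finset (Bool → ℕ × ℕ), (∀ t ∈ s, P t) → ∃ t', P t' ∧ ∀ t ∈ s, r t t' := by
    intro s hs
    by_contra hc2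
    push Not at hc2
    apply hc
    refine ⟨{w | ∃ t ∈ s, ∃ β, tp (toS x) w w = tp (toS x) (t β).2 (t β).2}, ?_, ?_, ?_, ?_⟩
    · have h1 : {w | ∃ t ∈ s, ∃ β, tp (toS x) w w = tp (toS x) (t β).2 (t β).2} =
          ⋃ t ∈ s, ⋃ β, {w | tp (toS x) w w = tp (toS x) (t β).2 (t β).2} := by
        ext w; simp
      rw [h1]
      refine s.finite_toSet.biUnion fun t ht => finite_iUnion fun β => ?_
      exact ((hs t ht).1 β).2.1
    · rintro w ⟨t, ht, β, h1⟩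
      exact (Fi.congr h1).2 ((hs t ht).1 β).2.1
    · rintro u w huw ⟨t, ht, β, h1⟩
      exact ⟨t, ht, β, huw.symm.trans h1⟩
    · intro c c' f f' h1 h2 h3 h4 h5
      by_contra h6
      obtain ⟨t, ht, h7⟩ := hc2 (fun β => cond β (c', f') (c, f))
        ⟨fun β => by cases β; exacts [h1, h2], h3, h6⟩
      apply h7
      intro β β' h8 h9
      cases β'
      · exact h4 ⟨t, ht, β, h9.symm⟩
      · exact h5 ⟨t, ht, β, h9.symm⟩
  obtain ⟨T, hT1, hT2⟩ := exists_seq_of_forall_finset_exists P r key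
  have hf2 : ∀ p : ℕ × Bool, ∃ f2, tp (toS x) f2 f2 =
      tp (toS x) (T p.1 p.2).2 (T p.1 p.2).2 ∧
      tp (toS x) (T p.1 p.2).1 f2 ≠ tp (toS x) (T p.1 p.2).1 (T p.1 p.2).2 := by
    intro p
    obtain ⟨w1, w2, h1, h2, h3⟩ := ((hT1 p.1).1 p.2).2.2
    by_cases h4 : tp (toS x) (T p.1 p.2).1 w1 = tp (toS x) (T p.1 p.2).1 (T p.1 p.2).2
    · exact ⟨w2, h2, fun h5 => h3 (h4.trans h5.symm)⟩
    · exact ⟨w1, h1, h4⟩
  choose f2 hf2a hf2b using hf2
  refine perf_trip hx hcl hy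
    ⟨fun p => (T p.1 p.2).1, fun p => (T p.1 p.2).2, f2, fun p => ((hT1 p.1).1 p.2).1,
      fun p => ((hT1 p.1).1 p.2).2.1, hf2a, hf2b, ?_, fun n => ⟨_, rfl, (hT1 n).2.1⟩⟩
  rintro ⟨n, β⟩ ⟨m, β'⟩ h1 h2
  rcases lt_trichotomy n m with h | h | h
  · exact (hT2 n m h β β' h1 h2).elim
  · subst h
    have h3 := (hT1 n).2.2
    congr 1
    cases β <;> cases β'
    · rfl
    · exact absurd h2 h3
    · exact absurd h2.symm h3
    · rfl
  · exact (hT2 m n h β' β h1.symm h2.symm).elim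

/-- steps avoiding a set -/
def Av (S : ℕ → ℕ → Prop) (Z : Set ℕ) (u w : ℕ) : Prop := S u w ∧ u ∉ Z ∧ w ∉ Z

theorem Av.mono {S : ℕ → ℕ → Prop} {Z Z' : Set ℕ} (h : Z' ⊆ Z) {u w : ℕ}
    (hr : ReflTransGen (Av S Z) u w) : ReflTransGen (Av S Z') u w := by
  induction hr with
  | refl => exact ReflTransGen.refl
  | tail _ h1 ih => exact ih.tail ⟨h1.1, fun h2 => h1.2.1 (h h2), fun h2 => h1.2.2 (h h2)⟩

theorem rtg_symm {S : ℕ → ℕ → Prop} (hS : ∀ u w, S u w → S w u) {u w : ℕ}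
    (hr : ReflTransGen S u w) : ReflTransGen S w u := by
  induction hr with
  | refl => exact ReflTransGen.refl
  | tail _ h1 ih => exact ih.head (hS _ _ h1)

/-- infinite connectivity -/
def IC (S : ℕ → ℕ → Prop) (v : ℕ → ℕ) : Prop :=
  ∀ i j, i ≠ j → ∀ Z : Set ℕ, Z.Finite → v i ∉ Z → v j ∉ Z → ∃ w, w ∉ Z ∧ w ≠ v i ∧ w ≠ v j ∧
    ReflTransGen (Av S (insert (v j) Z)) (v i) w ∧ ReflTransGen (Av S (insert (v i) Z)) (v j) w

/-- the graph of links without some vertices and an edge -/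
def lg (y : St a ℕ) (Z : Set ℕ) (f0 f1 : ℕ) : SimpleGraph ℕ :=
  ⟨fun u w => Link y u w ∧ u ∉ Z ∧ w ∉ Z ∧ ¬ (u = f0 ∧ w = f1) ∧ ¬ (u = f1 ∧ w = f0),
    ⟨fun _ _ h => ⟨h.1.symm, h.2.2.1, h.2.1, fun h1 => h.2.2.2.2 h1.symm,
      fun h1 => h.2.2.2.1 h1.symm⟩⟩, ⟨fun _ h => h.1.1 rfl⟩⟩

/-- the graph of links -/
def lg0 (y : St a ℕ) : SimpleGraph ℕ := ⟨Link y, ⟨fun _ _ h => h.symm⟩, ⟨fun _ h => h.1 rfl⟩⟩

theorem lg0_acyclic {y : St a ℕ} (h : ∀ k, ¬ Cyc (Link y) k) : (lg0 y).IsAcyclic := by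
  intro u c hc
  refine h c.length ⟨hc.three_le_length, fun i => c.getVert (i % c.length), ?_, ?_, ?_⟩
  · intro i
    have h3 := hc.three_le_length
    have h4 : i % c.length < c.length := Nat.mod_lt _ (by omega)
    have h1 : (lg0 y).Adj (c.getVert (i % c.length)) (c.getVert (i % c.length + 1)) :=
      c.adj_getVert_succ h4
    have h2 : c.getVert ((i + 1) % c.length) = c.getVert (i % c.length + 1) := by
      rw [Nat.add_mod, Nat.mod_eq_of_lt (show 1 < c.length by omega)]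
      rcases Nat.lt_or_ge (i % c.length + 1) c.length with h5 | h5
      · rw [Nat.mod_eq_of_lt h5]
      · have h6 : i % c.length + 1 = c.length := by omega
        rw [h6, Nat.mod_self, c.getVert_zero, c.getVert_length]
    show Link y (c.getVert (i % c.length)) (c.getVert ((i + 1) % c.length))
    rw [h2]
    exact h1
  · intro i
    show c.getVert _ = c.getVert _
    rw [Nat.add_mod_right]
  · intro i j hi hj hij
    simp only [Nat.mod_eq_of_lt hi, Nat.mod_eq_of_lt hj] at hij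
    exact hc.getVert_injOn' (by simp; omega) (by simp; omega) hij

/-- Two infinitely connected vertices of infinite types give a contradiction. -/
theorem IC.inf {y : St a ℕ} (hy : Rich y) (hac : ∀ k, ¬ Cyc (Link y) k) {Z0 : Set ℕ}
    (hZ : Thin y Z0) {v : ℕ → ℕ} (hv : Injective v) (h : IC (Sp y) v) {i j : ℕ} (hij : i ≠ j)
    (hi : ¬ Fi y (v i)) (hj : ¬ Fi y (v j)) : False := by
  classical
  have hls : ∀ u w, Link y u w → Link y w u := fun u w h => h.symm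
  let A : Set ℕ := {f | f ∉ Z0 ∧ ∃ c, At y c f ∧ ReflTransGen (Link y) (v i) c}
  have hA : A.Finite := by
    by_cases h1 : A.Nonempty
    · obtain ⟨f1, h2, c1, h3, h4⟩ := h1
      refine h3.2.1.subset ?_
      rintro f ⟨h5, c, h6, h7⟩
      exact hZ.thin c c1 f f1 h6 h3 ((rtg_symm hls h7).trans h4) h5 h2
    · rw [not_nonempty_iff_eq_empty] at h1
      rw [h1]
      exact finite_empty
  have hstep : ∀ Z, Z0 ∪ A ⊆ Z → ∀ u0, ReflTransGen (Link y) (v i) u0 → ¬ Fi y u0 → ∀ w,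
      ReflTransGen (Av (Sp y) Z) u0 w → ReflTransGen (Av (Link y) Z) u0 w ∧
        ReflTransGen (Link y) (v i) w ∧ ¬ Fi y w := by
    intro Z hZZ u0 hu0 hu0' w hw
    induction hw with
    | refl => exact ⟨ReflTransGen.refl, hu0, hu0'⟩
    | @tail b c _ h1 ih =>
      obtain ⟨⟨h2, h3⟩, h4, h5⟩ := h1
      obtain ⟨ih1, ih2, ih3⟩ := ih
      rcases h3 with h3 | ⟨h3, h6⟩
      · exact ⟨ih1.tail ⟨h3, h4, h5⟩, ih2.tail h3, h3.2.2.1⟩
      · exfalso
        have h7 : Fi y c := h3.resolve_left ih3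
        apply h5
        apply hZZ
        by_cases h8 : c ∈ Z0
        · exact Or.inl h8
        · exact Or.inr ⟨h8, b, ⟨ih3, h7, h6⟩, ih2⟩
  have hnm : ∀ u, ¬ Fi y u → u ∉ Z0 ∪ A := by
    rintro u hu (h1 | ⟨_, c, h1, _⟩)
    · exact hu (hZ.fi u h1)
    · exact hu h1.2.1
  -- the component contains both vertices
  have hcomp : ∀ Z : Set ℕ, Z.Finite → Z0 ∪ A ⊆ Z → v i ∉ Z → v j ∉ Z → ∃ w,
      ReflTransGen (Av (Link y) (insert (v j) Z)) (v i) w ∧
      ReflTransGen (Av (Link y) (insert (v i) Z)) w (v j) := by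
    intro Z hf hZZ h1 h2
    obtain ⟨w, _, _, _, h3, h4⟩ := h i j hij Z hf h1 h2
    obtain ⟨h5, h6, h7⟩ := hstep _ (hZZ.trans (subset_insert _ _)) _ ReflTransGen.refl hi _ h3
    have h8 : ReflTransGen (Av (Sp y) (insert (v i) Z)) w (v j) :=
      rtg_symm (fun u w h => ⟨h.1.symm hy, h.2.2, h.2.1⟩) h4
    obtain ⟨h9, _, _⟩ := hstep _ (hZZ.trans (subset_insert _ _)) _ h6 h7 _ h8
    exact ⟨w, h5, h9⟩
  have hreach : ∀ Z : Set ℕ, Z.Finite → Z0 ∪ A ⊆ Z → v i ∉ Z → v j ∉ Z →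
      (lg y Z (v i) (v j)).Reachable (v i) (v j) := by
    intro Z hf hZZ h1 h2
    obtain ⟨w, h3, h4⟩ := hcomp Z hf hZZ h1 h2
    rw [SimpleGraph.reachable_iff_reflTransGen]
    have h5 : ∀ u w, Av (Link y) (insert (v j) Z) u w → (lg y Z (v i) (v j)).Adj u w := by
      rintro u w ⟨h5, h6, h7⟩
      rw [mem_insert_iff, not_or] at h6 h7
      exact ⟨h5, h6.2, h7.2, fun h8 => h7.1 h8.2, fun h8 => h6.1 h8.1⟩
    have h6 : ∀ u w, Av (Link y) (insert (v i) Z) u w → (lg y Z (v i) (v j)).Adj u w := by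
      rintro u w ⟨h5, h6, h7⟩
      rw [mem_insert_iff, not_or] at h6 h7
      exact ⟨h5, h6.2, h7.2, fun h8 => h6.1 h8.1, fun h8 => h7.1 h8.2⟩
    exact (ReflTransGen.mono h5 _ _ h3).trans (ReflTransGen.mono h6 _ _ h4)
  have hle : ∀ Z f0 f1, lg y Z f0 f1 ≤ lg0 y := fun Z f0 f1 u w h => h.1
  obtain ⟨p1, hp1⟩ := (hreach _ (hZ.fin.union hA) Subset.rfl (hnm _ hi) (hnm _ hj)).exists_isPath
  let p : (lg0 y).Walk (v i) (v j) := p1.mapLe (hle _ _ _)
  have hp : p.IsPath := (SimpleGraph.Walk.isPath_mapLe _).2 hp1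
  let Z2 : Set ℕ := (Z0 ∪ A) ∪ {u | u ∈ p.support ∧ u ≠ v i ∧ u ≠ v j}
  have hZ2 : Z2.Finite := (hZ.fin.union hA).union
    (p.support.finite_toSet.subset fun u hu => hu.1)
  obtain ⟨p2, hp2⟩ := (hreach Z2 hZ2 subset_union_left
    (by rintro (h1 | h1); exacts [hnm _ hi h1, h1.2.1 rfl])
    (by rintro (h1 | h1); exacts [hnm _ hj h1, h1.2.2 rfl])).exists_isPath
  let q : (lg0 y).Walk (v i) (v j) := p2.mapLe (hle _ _ _)
  have hq : q.IsPath := (SimpleGraph.Walk.isPath_mapLe _).2 hp2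
  have hpq : p = q := by
    have := (SimpleGraph.isAcyclic_iff_subsingleton_path.1 (lg0_acyclic hac) (v i) (v j)).elim
      ⟨p, hp⟩ ⟨q, hq⟩
    exact congrArg Subtype.val this
  have hpos : 0 < p2.length := by
    by_contra h1
    have h2 : p2.length = 0 := by omega
    exact hij (hv (SimpleGraph.Walk.eq_of_length_eq_zero h2))
  have hadj := p2.adj_getVert_succ hpos
  rw [p2.getVert_zero] at hadj
  obtain ⟨h1, h2, h3, h4, h5⟩ := hadj
  apply h3
  refine Or.inr ⟨?_, ?_, ?_⟩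
  · rw [hpq]
    show _ ∈ (p2.mapLe (hle _ _ _)).support
    rw [SimpleGraph.Walk.support_mapLe_eq_support]
    exact p2.getVert_mem_support _
  · exact h1.1.symm
  · exact fun h6 => h4 ⟨rfl, h6⟩

end Pool.Agent.L7h71.CC
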