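import Pool.Agent.L7h71.CC.G1

set_option autoImplicit false

/-!
The graph of the special pairs of a rich structure, second part.
-/

namespace Pool.Agent.L7h71.CC

open Function Set MeasureTheory Filter Relation
open Pool.Agent.L7h71.COV (Str Iso Cyc)

variable {a : ℕ → ℕ}

open Classical in
/-- the representative of a type -/
noncomputable def rt (y : St a ℕ) (u : ℕ) : ℕ :=
  Nat.find (⟨u, rfl⟩ : ∃ w, tp y w w = tp y u u)

theorem rt_tp (y : St a ℕ) (u : ℕ) : tp y (rt y u) (rt y u) = tp y u u := by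
  classical
  exact Nat.find_spec (⟨u, rfl⟩ : ∃ w, tp y w w = tp y u u)

theorem rt_congr {y : St a ℕ} {u w : ℕ} (h : tp y u u = tp y w w) : rt y u = rt y w := by
  unfold rt
  simp only [h]

theorem rt_rt (y : St a ℕ) (u : ℕ) : rt y (rt y u) = rt y u := rt_congr (rt_tp y u)

/-- steps between algebraic types -/
def TR (y : St a ℕ) (D : Set ℕ) (f f' : ℕ) : Prop :=
  f ≠ f' ∧ (Fi y f ∧ rt y f = f ∧ f ∉ D) ∧ (Fi y f' ∧ rt y f' = f' ∧ f' ∉ D) ∧ NC y f f'

theorem walk_proj {y : St a ℕ} (hy : Rich y) {Z0 : Set ℕ} (hZ : Thin y Z0) {D : Set ℕ}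
    (hD0 : Z0 ⊆ D) (hD : ∀ u w, tp y u u = tp y w w → u ∈ D → w ∈ D) {u0 : ℕ} (hu0 : Fi y u0)
    {w : ℕ} (hw : ReflTransGen (Av (Sp y) D) u0 w) :
    (Fi y w → ReflTransGen (TR y D) (rt y u0) (rt y w)) ∧
    (¬ Fi y w → ∃ f c, At y c f ∧ f ∉ D ∧ ReflTransGen (Link y) c w ∧
      ReflTransGen (TR y D) (rt y u0) (rt y f)) := by
  induction hw with
  | refl => exact ⟨fun _ => ReflTransGen.refl, fun h => absurd hu0 h⟩
  | @tail b c _ h1 ih =>
    obtain ⟨⟨h2, h3⟩, h4, h5⟩ := h1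
    obtain ⟨ih1, ih2⟩ := ih
    have hD' : ∀ u, u ∉ D → rt y u ∉ D := fun u hu h => hu (hD _ _ (rt_tp y u) h)
    have hF : ∀ u, Fi y u → Fi y (rt y u) := fun u hu => (Fi.congr (rt_tp y u)).2 hu
    by_cases hb : Fi y b
    · have h6 : NC y b c := by
        rcases h3 with h3 | h3
        · exact absurd hb h3.2.1
        · exact h3.2
      refine ⟨fun hc => ?_, fun hc => ⟨b, c, ⟨hc, hb, h6.symm hy⟩, h4, ReflTransGen.refl, ih1 hb⟩⟩
      by_cases h7 : rt y b = rt y c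
      · rw [← h7]
        exact ih1 hb
      · exact (ih1 hb).tail ⟨h7, ⟨hF b hb, rt_rt y b, hD' b h4⟩, ⟨hF c hc, rt_rt y c, hD' c h5⟩,
          h6.congr hy (rt_tp y b).symm (rt_tp y c).symm⟩
    · obtain ⟨f, c1, h6, h7, h8, h9⟩ := ih2 hb
      constructor
      · intro hc
        have h10 : At y b c := by
          rcases h3 with h3 | h3
          · exact absurd hc h3.2.2.1
          · exact ⟨hb, hc, h3.2⟩
        have h11 := hZ.thin c1 b f c h6 h10 h8 (fun h => h7 (hD0 h)) (fun h => h5 (hD0 h))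
        rw [← rt_congr h11]
        exact h9
      · intro hc
        refine ⟨f, c1, h6, h7, h8.tail ?_, h9⟩
        rcases h3 with h3 | ⟨h3, _⟩
        · exact h3
        · exact absurd h3 (by simp [hb, hc])

/-- the graph of algebraic types without some vertices and an edge -/
def tg (y : St a ℕ) (hy : Rich y) (Z : Set ℕ) (f0 f1 : ℕ) : SimpleGraph ℕ :=
  ⟨fun u w => TR y Z u w ∧ ¬ (u = f0 ∧ w = f1) ∧ ¬ (u = f1 ∧ w = f0),
    ⟨fun _ _ h => ⟨⟨h.1.1.symm, h.1.2.2.1, h.1.2.1, h.1.2.2.2.symm hy⟩, fun h1 => h.2.2 h1.symm,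
      fun h1 => h.2.1 h1.symm⟩⟩, ⟨fun _ h => h.1.1 rfl⟩⟩

theorem IC.reach {y : St a ℕ} (hy : Rich y) {Z0 : Set ℕ} (hZ : Thin y Z0) {v : ℕ → ℕ}
    (h : IC (Sp y) v) {i j : ℕ} (hij : i ≠ j) (hi : Fi y (v i)) (hj : Fi y (v j)) {Z : Set ℕ}
    (hZf : Z.Finite) (hZ0 : Z0 ⊆ Z) (hZc : ∀ u w, tp y u u = tp y w w → u ∈ Z → w ∈ Z)
    (hi' : v i ∉ Z) (hj' : v j ∉ Z) (hne : tp y (v i) (v i) ≠ tp y (v j) (v j)) :
    (tg y hy Z (rt y (v i)) (rt y (v j))).Reachable (rt y (v i)) (rt y (v j)) := by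
  classical
  let C : ℕ → Set ℕ := fun k => {u | tp y u u = tp y (v k) (v k)}
  have hC : ∀ k, Fi y (v k) → (C k).Finite := fun k hk => hk
  let Z' : Set ℕ := Z ∪ ({u | u ∈ C i ∧ u ≠ v i} ∪ {u | u ∈ C j ∧ u ≠ v j})
  have hZ'f : Z'.Finite := hZf.union (((hC i hi).subset fun u hu => hu.1).union
    ((hC j hj).subset fun u hu => hu.1))
  obtain ⟨w, hw1, hw2, hw3, hw4, hw5⟩ := h i j hij Z' hZ'f
    (by rintro (h1 | h1 | h1); exacts [hi' h1, h1.2 rfl, hne h1.1])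
    (by rintro (h1 | h1 | h1); exacts [hj' h1, hne h1.1.symm, h1.2 rfl])
  have hD1 : Z ∪ C j ⊆ insert (v j) Z' := by
    rintro u (h1 | h1)
    · exact Or.inr (Or.inl h1)
    · by_cases h2 : u = v j
      · exact Or.inl h2
      · exact Or.inr (Or.inr (Or.inr ⟨h1, h2⟩))
  have hD0 : Z ∪ C i ⊆ insert (v i) Z' := by
    rintro u (h1 | h1)
    · exact Or.inr (Or.inl h1)
    · by_cases h2 : u = v i
      · exact Or.inl h2
      · exact Or.inr (Or.inr (Or.inl ⟨h1, h2⟩))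
  have hc : ∀ k u w, tp y u u = tp y w w → u ∈ Z ∪ C k → w ∈ Z ∪ C k := by
    rintro k u w huw (h1 | h1)
    · exact Or.inl (hZc u w huw h1)
    · exact Or.inr (huw.symm.trans h1)
  have p1 := walk_proj hy hZ (hZ0.trans subset_union_left) (hc j) hi (Av.mono hD1 hw4)
  have p2 := walk_proj hy hZ (hZ0.trans subset_union_left) (hc i) hj (Av.mono hD0 hw5)
  have hg : ∃ g, ReflTransGen (TR y (Z ∪ C j)) (rt y (v i)) g ∧
      ReflTransGen (TR y (Z ∪ C i)) (rt y (v j)) g := by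
    by_cases hw : Fi y w
    · exact ⟨_, p1.1 hw, p2.1 hw⟩
    · obtain ⟨f, c, h1, h2, h3, h4⟩ := p1.2 hw
      obtain ⟨f', c', h1', h2', h3', h4'⟩ := p2.2 hw
      have h5 := hZ.thin c c' f f' h1 h1' (h3.trans (rtg_symm (fun u w h => h.symm) h3'))
        (fun h => h2 (Or.inl (hZ0 h))) (fun h => h2' (Or.inl (hZ0 h)))
      refine ⟨_, h4, ?_⟩
      rw [rt_congr h5]
      exact h4'
  obtain ⟨g, hg1, hg2⟩ := hg
  rw [SimpleGraph.reachable_iff_reflTransGen]
  have hne2 : rt y (v i) ≠ rt y (v j) := by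
    intro h1
    apply hne
    rw [← rt_tp, h1, rt_tp]
  have e1 : ∀ u w, TR y (Z ∪ C j) u w →
      (tg y hy Z (rt y (v i)) (rt y (v j))).Adj u w := by
    rintro u w ⟨h1, ⟨h2, h3, h4⟩, ⟨h5, h6, h7⟩, h8⟩
    refine ⟨⟨h1, ⟨h2, h3, fun h => h4 (Or.inl h)⟩, ⟨h5, h6, fun h => h7 (Or.inl h)⟩, h8⟩, ?_, ?_⟩
    · rintro ⟨_, h9⟩
      rw [h9] at h7
      exact h7 (Or.inr (rt_tp y _))
    · rintro ⟨h9, _⟩
      rw [h9] at h4
      exact h4 (Or.inr (rt_tp y _))
  have e2 : ∀ u w, TR y (Z ∪ C i) u w →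
      (tg y hy Z (rt y (v i)) (rt y (v j))).Adj u w := by
    rintro u w ⟨h1, ⟨h2, h3, h4⟩, ⟨h5, h6, h7⟩, h8⟩
    refine ⟨⟨h1, ⟨h2, h3, fun h => h4 (Or.inl h)⟩, ⟨h5, h6, fun h => h7 (Or.inl h)⟩, h8⟩, ?_, ?_⟩
    · rintro ⟨h9, _⟩
      rw [h9] at h4
      exact h4 (Or.inr (rt_tp y _))
    · rintro ⟨_, h9⟩
      rw [h9] at h7
      exact h7 (Or.inr (rt_tp y _))
  refine (ReflTransGen.mono e1 _ _ hg1).trans (rtg_symm (fun u w h => h.symm) ?_)
  exact ReflTransGen.mono e2 _ _ hg2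

/-- Two infinitely connected vertices of different algebraic types give perfectly many
structures. -/
theorem IC.fin {B : Set (Str a)} {x : Str a} (hx : x ∈ B) (hcl : Closed B)
    (hy : Rich (toS x)) {Z0 : Set ℕ} (hZ : Thin (toS x) Z0) {v : ℕ → ℕ}
    (h : IC (Sp (toS x)) v) {i j : ℕ} (hij : i ≠ j) (hi : Fi (toS x) (v i))
    (hj : Fi (toS x) (v j)) (hi' : v i ∉ Z0) (hj' : v j ∉ Z0)
    (hne : tp (toS x) (v i) (v i) ≠ tp (toS x) (v j) (v j)) : Perf B := by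
  classical
  let y := toS x
  let F0 := rt y (v i)
  let F1 := rt y (v j)
  have hF0 : tp y F0 F0 = tp y (v i) (v i) := rt_tp y _
  have hF1 : tp y F1 F1 = tp y (v j) (v j) := rt_tp y _
  let P : ℕ × (ℕ → ℕ) → Prop := fun q => 1 ≤ q.1 ∧ q.2 0 = F0 ∧ q.2 (q.1 + 1) = F1 ∧
    (∀ i ≤ q.1 + 1, Fi y (q.2 i)) ∧ (∀ i ≤ q.1, NC y (q.2 i) (q.2 (i + 1))) ∧
    ∀ i j, i ≤ q.1 + 1 → j ≤ q.1 + 1 → tp y (q.2 i) (q.2 i) = tp y (q.2 j) (q.2 j) → i = j
  let r : ℕ × (ℕ → ℕ) → ℕ × (ℕ → ℕ) → Prop := fun q q' => ∀ i j, 1 ≤ i → i ≤ q.1 → 1 ≤ j →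
    j ≤ q'.1 → tp y (q.2 i) (q.2 i) ≠ tp y (q'.2 j) (q'.2 j)
  have key : ∀ s : Finset (ℕ × (ℕ → ℕ)), (∀ t ∈ s, P t) → ∃ t', P t' ∧ ∀ t ∈ s, r t t' := by
    intro s hs
    let Z : Set ℕ := Z0 ∪ {w | ∃ t ∈ s, ∃ i, (1 ≤ i ∧ i ≤ t.1) ∧ tp y w w = tp y (t.2 i) (t.2 i)}
    have hZf : Z.Finite := by
      refine hZ.fin.union ?_
      have h1 : {w | ∃ t ∈ s, ∃ i, (1 ≤ i ∧ i ≤ t.1) ∧ tp y w w = tp y (t.2 i) (t.2 i)} =
          ⋃ t ∈ s, ⋃ i ∈ {i | 1 ≤ i ∧ i ≤ t.1}, {w | tp y w w = tp y (t.2 i) (t.2 i)} := by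
        ext w
        simp only [mem_iUnion, mem_ofPred_eq, exists_prop]
      rw [h1]
      refine s.finite_toSet.biUnion fun t ht => Finite.biUnion ((finite_Iic t.1).subset
        fun i hi => hi.2) fun i hi => ?_
      exact (hs t ht).2.2.2.1 i (by have := hi.2; omega)
    have hZc : ∀ u w, tp y u u = tp y w w → u ∈ Z → w ∈ Z := by
      rintro u w huw (h1 | ⟨t, ht, k, hk, h1⟩)
      · exact Or.inl (hZ.cl u w huw h1)
      · exact Or.inr ⟨t, ht, k, hk, huw.symm.trans h1⟩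
    have h0 : v i ∉ Z := by
      rintro (h1 | ⟨t, ht, k, hk, h1⟩)
      · exact hi' h1
      · have h2 := hs t ht
        have h3 := h2.2.2.2.2.2 0 k (by omega) (by omega) (by rw [h2.2.1, hF0]; exact h1)
        omega
    have h1 : v j ∉ Z := by
      rintro (h1 | ⟨t, ht, k, hk, h1⟩)
      · exact hj' h1
      · have h2 := hs t ht
        have h3 := h2.2.2.2.2.2 (t.1 + 1) k (by omega) (by omega)
          (by rw [h2.2.2.1, hF1]; exact h1)
        omega
    obtain ⟨p, hp⟩ := (h.reach hy hZ hij hi hj hZf subset_union_left hZc h0 h1 hne).exists_isPath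
    have hlen : 2 ≤ p.length := by
      by_contra h2
      have h3 : p.length = 0 ∨ p.length = 1 := by omega
      rcases h3 with h3 | h3
      · apply hne
        rw [← rt_tp, SimpleGraph.Walk.eq_of_length_eq_zero h3, rt_tp]
      · exact (SimpleGraph.Walk.adj_of_length_eq_one h3).2.1 ⟨rfl, rfl⟩
    have hadj : ∀ k, k + 1 ≤ p.length → (tg y hy Z (rt y (v i)) (rt y (v j))).Adj
        (p.getVert k) (p.getVert (k + 1)) := fun k hk => p.adj_getVert_succ (by omega)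
    have hvert : ∀ k, k ≤ p.length → Fi y (p.getVert k) ∧ rt y (p.getVert k) = p.getVert k ∧
        p.getVert k ∉ Z := by
      intro k hk
      rcases Nat.lt_or_ge k p.length with h2 | h2
      · exact (hadj k h2).1.2.1
      · have h3 : k = p.length - 1 + 1 := by omega
        rw [h3]
        exact (hadj (p.length - 1) (by omega)).1.2.2.1
    refine ⟨(p.length - 1, p.getVert), ⟨?_, ?_, ?_, ?_, ?_, ?_⟩, ?_⟩
    · show 1 ≤ p.length - 1
      omega
    · exact p.getVert_zero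
    · show p.getVert (p.length - 1 + 1) = F1
      rw [show p.length - 1 + 1 = p.length by omega]
      exact p.getVert_length
    · intro k hk
      exact (hvert k (by have : k ≤ p.length - 1 + 1 := hk; omega)).1
    · intro k hk
      exact (hadj k (by have : k ≤ p.length - 1 := hk; omega)).1.2.2.2
    · intro k l hk hl hkl
      have hk' : k ≤ p.length - 1 + 1 := hk
      have hl' : l ≤ p.length - 1 + 1 := hl
      have h2 := rt_congr hkl
      have h3 : p.getVert k = p.getVert l := by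
        rw [← (hvert k (by omega)).2.1, ← (hvert l (by omega)).2.1]
        exact h2
      exact hp.getVert_injOn (by simp; omega) (by simp; omega) h3
    · intro t ht k l hk1 hk2 hl1 hl2 hkl
      have hl2' : l ≤ p.length - 1 := hl2
      exact (hvert l (by omega)).2.2 (Or.inr ⟨t, ht, k, ⟨hk1, hk2⟩, hkl.symm⟩)
  obtain ⟨T, hT1, hT2⟩ := exists_seq_of_forall_finset_exists P r key
  refine perf_pths hx hcl hy ⟨fun n => (T n).1, fun n => (T n).2, F0, F1,
    fun n => (hT1 n).2.1, fun n => (hT1 n).2.2.1, fun n => (hT1 n).1,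
    fun n i hi => (hT1 n).2.2.2.1 i hi, fun n i hi => (hT1 n).2.2.2.2.1 i hi, ?_, ?_, ?_, ?_⟩
  · intro n k m l hk1 hk2 hl1 hl2 hkl
    rcases lt_trichotomy n m with h1 | h1 | h1
    · exact absurd hkl (hT2 n m h1 k l hk1 hk2 hl1 hl2)
    · subst h1
      exact ⟨rfl, (hT1 n).2.2.2.2.2 k l (by omega) (by omega) hkl⟩
    · exact absurd hkl.symm (hT2 m n h1 l k hl1 hl2 hk1 hk2)
  · intro n k hk1 hk2 hk
    have h2 := hT1 n
    have h3 := h2.2.2.2.2.2 k 0 (by omega) (by omega) (by rw [h2.2.1]; exact hk)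
    omega
  · intro n k hk1 hk2 hk
    have h2 := hT1 n
    have h3 := h2.2.2.2.2.2 k ((T n).1 + 1) (by omega) (by omega) (by rw [h2.2.2.1]; exact hk)
    omega
  · rw [show tp (toS x) F0 F0 = tp (toS x) (v i) (v i) from hF0,
      show tp (toS x) F1 F1 = tp (toS x) (v j) (v j) from hF1]
    exact hne

/-- The graph of the special pairs of a rich structure is sparse. -/
theorem no_ic {B : Set (Str a)} {x : Str a} (hx : x ∈ B) (hcl : Closed B)
    (hy : Rich (toS x)) (hP : ¬ Perf B) {v : ℕ → ℕ} (hv : Injective v) :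
    ¬ IC (Sp (toS x)) v := by
  classical
  intro h
  obtain ⟨Z0, hZ⟩ := exists_thin hx hcl hy hP
  have hac : ∀ k, ¬ Cyc (Link (toS x)) k := fun k hk => hP (perf_cyc hx hcl hy hk)
  have h1 : {i | v i ∈ Z0}.Finite := hZ.fin.preimage hv.injOn
  have h2 : {i | ¬ Fi (toS x) (v i)}.Finite := by
    apply Set.Subsingleton.finite
    intro i hi j hj
    by_contra hij
    exact h.inf hy hac hZ hv hij hi hj
  obtain ⟨i, hi⟩ := (h1.union h2).exists_notMem
  rw [mem_union, not_or] at hi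
  have hi2 : Fi (toS x) (v i) := by
    by_contra h3
    exact hi.2 h3
  have h3 : {j | tp (toS x) (v j) (v j) = tp (toS x) (v i) (v i)}.Finite :=
    (show {w | tp (toS x) w w = tp (toS x) (v i) (v i)}.Finite from hi2).preimage
      (f := v) hv.injOn
  obtain ⟨j, hj⟩ := ((h1.union h2).union h3).exists_notMem
  rw [mem_union, mem_union, not_or, not_or] at hj
  have hj2 : Fi (toS x) (v j) := by
    by_contra h4
    exact hj.1.2 h4
  have hij : i ≠ j := by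
    rintro rfl
    exact hj.2 rfl
  exact hP (h.fin hx hcl hy hZ hij hi2 hj2 hi.1 hj.1.1 fun h4 => hj.2 h4.symm)

end Pool.Agent.L7h71.CC
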