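import Pool.Agent.L7h71.CC.G2

set_option autoImplicit false

/-!
Comparison of different rich members of the class; the default types.
-/

namespace Pool.Agent.L7h71.CC

open Function Set MeasureTheory Filter Relation
open Pool.Agent.L7h71.COV (Str Iso Cyc)

variable {a : ℕ → ℕ}

theorem Rich.bij {y y' : St a ℕ} (hy : Rich y) (hy' : Rich y') {u u' : ℕ}
    (h : tp y u u = tp y' u' u') : ∃ f : ℕ ≃ ℕ, ∀ w, tp y' u' (f w) = tp y u w := by
  refine equiv_of_fibers (fun w => tp y u w) (fun w => tp y' u' w) fun s => ?_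
  show {w | tp y u w = s}.encard = {w | tp y' u' w = s}.encard
  apply le_antisymm
  · rw [← ENat.forall_natCast_le_iff_le]
    intro k hk
    refine hy' u' s k fun m => ?_
    rw [← h]
    exact cnt_fp hk m
  · rw [← ENat.forall_natCast_le_iff_le]
    intro k hk
    refine hy u s k fun m => ?_
    rw [h]
    exact cnt_fp hk m

section transfer

variable {y y' : St a ℕ} (hy : Rich y) (hy' : Rich y')

include hy hy' in
theorem fi_tr {u u' : ℕ} (h : tp y u u = tp y' u' u') (hu : Fi y u) : Fi y' u' := by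
  obtain ⟨f, hf⟩ := hy.bij hy' h
  refine (Set.Finite.image f hu).subset ?_
  intro w hw
  refine ⟨f.symm w, ?_, by simp⟩
  have h1 := tp_right (hf (f.symm w))
  rw [Equiv.apply_symm_apply] at h1
  show tp y (f.symm w) (f.symm w) = tp y u u
  rw [← h1, h]
  exact hw

include hy hy' in
theorem lb_tr {u w u' w' : ℕ} (h : tp y u w = tp y' u' w') (hu : LB y u w) : LB y' u' w' := by
  obtain ⟨f, hf⟩ := hy.bij hy' (tp_left h)
  refine (Set.Infinite.image f.injective.injOn hu).mono ?_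
  rintro _ ⟨w1, hw1, rfl⟩
  show tp y' u' (f w1) = tp y' u' w'
  rw [hf, ← h]
  exact hw1

include hy hy' in
theorem nc_tr {u w u' w' : ℕ} (h : tp y u u = tp y' u' u') (h' : tp y w w = tp y' w' w')
    (hu : NC y u w) : NC y' u' w' := by
  obtain ⟨f, hf⟩ := hy.bij hy' h
  obtain ⟨w1, w2, h1, h2, h3⟩ := hu
  refine ⟨f w1, f w2, (tp_right (hf w1)).trans (h1.trans h'),
    (tp_right (hf w2)).trans (h2.trans h'), ?_⟩
  rw [hf, hf]
  exact h3

include hy hy' in
theorem mb_tr {u w u' w' : ℕ} (h : tp y u w = tp y' u' w') (hu : MB y u w) : MB y' u' w' :=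
  ⟨fun h1 => hu.1 ((tp_ne h).2 h1), lb_tr hy hy' h hu.2.1, lb_tr hy hy' (tp_inv h) hu.2.2⟩

include hy hy' in
theorem sp_tr {u w u' w' : ℕ} (h : tp y u w = tp y' u' w') (hu : Sp y u w) : Sp y' u' w' := by
  refine ⟨fun h1 => hu.1 ((tp_ne h).2 h1), ?_⟩
  rcases hu.2 with h1 | ⟨h1, h2⟩
  · exact Or.inl ⟨fun h3 => h1.1 ((tp_ne h).2 h3), fun h3 => h1.2.1 (fi_tr hy' hy (tp_left h).symm h3),
      fun h3 => h1.2.2.1 (fi_tr hy' hy (tp_right h).symm h3),
      fun h3 => h1.2.2.2 (mb_tr hy' hy h.symm h3)⟩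
  · refine Or.inr ⟨?_, nc_tr hy hy' (tp_left h) (tp_right h) h2⟩
    rcases h1 with h1 | h1
    · exact Or.inl (fi_tr hy hy' (tp_left h) h1)
    · exact Or.inr (fi_tr hy hy' (tp_right h) h1)

end transfer

/-- Pairs that are not special have a type determined by the types of the points. -/
theorem dflt {B : Set (Str a)} (hcl : Closed B) (hP : ¬ Perf B) {x x' : Str a} (hx : x ∈ B)
    (hy : Rich (toS x)) (hy' : Rich (toS x')) {u w u' w' : ℕ}
    (h1 : ¬ Sp (toS x) u w) (h1' : ¬ Sp (toS x') u' w') (hne : u ≠ w) (hne' : u' ≠ w')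
    (hu : tp (toS x) u u = tp (toS x') u' u') (hw : tp (toS x) w w = tp (toS x') w' w') :
    tp (toS x) u w = tp (toS x') u' w' := by
  obtain ⟨v, hv⟩ := hy.ex (R := toS x') (u := u) (w' := w') hu
  rw [← hv]
  have h2 : ¬ Sp (toS x) u v := fun h => h1' (sp_tr hy hy' hv h)
  have h3 : u ≠ v := fun h => hne' ((tp_ne hv).1 h)
  have h4 : tp (toS x) v v = tp (toS x) w w := (tp_right hv).trans hw.symm
  by_cases h5 : Fi (toS x) u ∨ Fi (toS x) w
  · by_contra h6
    exact h1 ⟨hne, Or.inr ⟨h5, w, v, rfl, h4, h6⟩⟩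
  · rw [not_or] at h5
    have h6 : MB (toS x) u w := by
      by_contra h6
      exact h1 ⟨hne, Or.inl ⟨hne, h5.1, h5.2, h6⟩⟩
    have h7 : MB (toS x) u v := by
      by_contra h7
      exact h2 ⟨h3, Or.inl ⟨h3, h5.1, fun h8 => h5.2 ((Fi.congr h4).1 h8), h7⟩⟩
    exact generic_unique hx hcl hy hP h6 h7 rfl h4.symm

/-- the default types -/
def Gen (B : Set (Str a)) : Set (Set (Fo a)) :=
  {s | ∃ x ∈ B, Rich (toS x) ∧ ∃ u w, u ≠ w ∧ ¬ Sp (toS x) u w ∧ tp (toS x) u w = s}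

theorem Gen.countable {B : Set (Str a)} (h : (S2 B).Countable) : (Gen B).Countable := by
  refine h.mono ?_
  rintro s ⟨x, hx, _, u, w, _, _, rfl⟩
  exact ⟨x, hx, u, w, rfl⟩

theorem Gen.inv {B : Set (Str a)} {x : Str a} {u w : ℕ} (h : tp (toS x) u w ∈ Gen B) :
    tp (toS x) w u ∈ Gen B := by
  obtain ⟨x', hx', hy, u', w', h1, h2, h3⟩ := h
  exact ⟨x', hx', hy, w', u', h1.symm, fun h4 => h2 (h4.symm hy), tp_inv h3⟩

theorem Gen.unique {B : Set (Str a)} (hcl : Closed B) (hP : ¬ Perf B) {s s' : Set (Fo a)}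
    (hs : s ∈ Gen B) (hs' : s' ∈ Gen B) (h1 : lft s = lft s') (h2 : rgt s = rgt s') :
    s = s' := by
  obtain ⟨x, hx, hy, u, w, h3, h4, rfl⟩ := hs
  obtain ⟨x', hx', hy', u', w', h3', h4', rfl⟩ := hs'
  rw [lft_tp, lft_tp] at h1
  rw [rgt_tp, rgt_tp] at h2
  exact dflt hcl hP hx hy hy' h4 h4' h3 h3' h1 h2

/-- Infinite connectivity from a subdivision. -/
theorem ic_of_sub (G : SimpleGraph ℕ) {v : ℕ → ℕ} (hv : Injective v)
    (P : ∀ i j, G.Walk (v i) (v j))
    (h2 : ∀ i j k, i < j → v k ∈ (P i j).support → k = i ∨ k = j)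
    (h3 : ∀ i j i' j', i < j → i' < j' → (i, j) ≠ (i', j') → ∀ x, x ∈ (P i j).support →
      x ∈ (P i' j').support → ∃ k, x = v k) : IC G.Adj v := by
  intro i j hij Z hZ hi hj
  have hbad : ∀ l, v l ∉ Z → {k | l < k ∧ ∃ z ∈ Z, z ∈ (P l k).support}.Finite := by
    intro l hl
    have h4 : {k | l < k ∧ ∃ z ∈ Z, z ∈ (P l k).support} =
        ⋃ z ∈ Z, {k | l < k ∧ z ∈ (P l k).support} := by
      ext k
      simp only [mem_ofPred_eq, mem_iUnion, exists_prop]
      constructor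
      · rintro ⟨h5, z, h6, h7⟩
        exact ⟨z, h6, h5, h7⟩
      · rintro ⟨z, h6, h5, h7⟩
        exact ⟨h5, z, h6, h7⟩
    rw [h4]
    refine hZ.biUnion fun z hz => Set.Subsingleton.finite ?_
    rintro k ⟨hk1, hk2⟩ k' ⟨hk1', hk2'⟩
    by_contra hne
    obtain ⟨m, rfl⟩ := h3 l k l k' hk1 hk1' (fun h => hne (congrArg Prod.snd h)) z hk2 hk2'
    rcases h2 l k m hk1 hk2 with h5 | h5
    · subst h5
      exact hl hz
    · rcases h2 l k' m hk1' hk2' with h6 | h6
      · subst h6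
        exact hl hz
      · exact hne (h5.symm.trans h6)
  obtain ⟨k, hk⟩ := (((hbad i hi).union (hbad j hj)).union (finite_Iic (max i j))).exists_notMem
  rw [mem_union, mem_union, not_or, not_or] at hk
  obtain ⟨⟨hk1, hk2⟩, hk3⟩ := hk
  rw [mem_Iic, not_le] at hk3
  have hki : i < k := lt_of_le_of_lt (le_max_left _ _) hk3
  have hkj : j < k := lt_of_le_of_lt (le_max_right _ _) hk3
  have hav : ∀ l, l < k → k ∉ {k | l < k ∧ ∃ z ∈ Z, z ∈ (P l k).support} →
      ∀ z ∈ (P l k).support, z ∉ Z := fun l hl h z hz hzZ => h ⟨hl, z, hzZ, hz⟩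
  have hwalk : ∀ (Z' : Set ℕ) {u w : ℕ} (p : G.Walk u w), (∀ z ∈ p.support, z ∉ Z') →
      ReflTransGen (Av G.Adj Z') u w := by
    intro Z' u w p
    induction p with
    | nil => exact fun _ => ReflTransGen.refl
    | @cons u1 u2 u3 h p ih =>
      intro hz
      refine (ih fun z hz' => hz z (by simp [hz'])).head ⟨h, hz u1 (by simp), hz u2 (by simp)⟩
  refine ⟨v k, hav i hki hk1 _ (SimpleGraph.Walk.end_mem_support _),
    fun h => hki.ne (hv h).symm, fun h => hkj.ne (hv h).symm, hwalk _ (P i k) ?_,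
    hwalk _ (P j k) ?_⟩
  · rintro z hz (h4 | h4)
    · subst h4
      rcases h2 i k j hki hz with h5 | h5
      · exact hij h5.symm
      · exact hkj.ne h5
    · exact hav i hki hk1 z hz h4
  · rintro z hz (h4 | h4)
    · subst h4
      rcases h2 j k i hkj hz with h5 | h5
      · exact hij h5
      · exact hki.ne h5
    · exact hav j hkj hk2 z hz h4

/-- The pairs without default types form a sparse graph. -/
theorem no_ic2 {B : Set (Str a)} (hcl : Closed B) (hS : (S2 B).Countable) (hP : ¬ Perf B)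
    {x : Str a} (hx : x ∈ B) {v : ℕ → ℕ} (hv : Injective v) :
    ¬ IC (fun u w => u ≠ w ∧ tp (toS x) u w ∉ Gen B) v := by
  intro h
  obtain ⟨y, hyB, hy, e, he1, he2⟩ := rich_ext hx hcl hS
  refine no_ic hyB hcl hy hP (he1.comp hv) ?_
  intro i j hij Z hZ hi hj
  obtain ⟨w, h1, h2, h3, h4, h5⟩ := h i j hij (e ⁻¹' Z) (hZ.preimage he1.injOn) hi hj
  have key : ∀ k u w, Av (fun u w => u ≠ w ∧ tp (toS x) u w ∉ Gen B) (insert (v k) (e ⁻¹' Z))
      u w → Av (Sp (toS y)) (insert ((e ∘ v) k) Z) (e u) (e w) := by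
    rintro k u w ⟨⟨h6, h7⟩, h8, h9⟩
    rw [mem_insert_iff, not_or] at h8 h9
    refine ⟨?_, ?_, ?_⟩
    · by_contra h10
      exact h7 ⟨y, hyB, hy, e u, e w, fun h11 => h6 (he1 h11), h10, he2 u w⟩
    · rintro (h10 | h10)
      · exact h8.1 (he1 h10)
      · exact h8.2 h10
    · rintro (h10 | h10)
      · exact h9.1 (he1 h10)
      · exact h9.2 h10
  exact ⟨e w, h1, fun h6 => h2 (he1 h6), fun h6 => h3 (he1 h6),
    ReflTransGen.lift e (key j) _ _ h4, ReflTransGen.lift e (key i) _ _ h5⟩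

end Pool.Agent.L7h71.CC
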