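import Pool.Agent.L7h71.CC.H1
import Pool.Agent.Results.MP_5df2c5_lc.FiniteFlips

set_option autoImplicit false

/-!
The coding of the members of a class without perfectly many members by sparse structures.
-/

namespace Pool.Agent.L7h71.CC

open Function Set MeasureTheory Filter Relation
open Pool.Agent.L7h71.COV (Str Iso Cyc)
open Pool.Agent.Results.MP_5df2c5_lc.FiniteFlips (pair act Coding Coded FlipSparse
  HasInfiniteCliqueSubdivision Tame)

variable {a : ℕ → ℕ}

/-- adjacency -/
def SX (G : Set (Set (Fo a))) (x : Str a) (u w : ℕ) : Prop := u ≠ w ∧ tp (toS x) u w ∉ G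

open Classical in
/-- the coding -/
noncomputable def cc (G : Set (Set (Fo a))) (x : Str a) : Str (fun _ => 2) := fun m t =>
  if m = 0 then decide (SX G x (t 0) (t 1)) else
  if m % 2 = 1 then decide ((t 0 = t 1 ∨ SX G x (t 0) (t 1)) ∧
    x ((m - 1) / 2) (pair (t 0) (t 1)) = true)
  else decide (t 0 = t 1 ∧ en ((m - 2) / 2) ∈ tp (toS x) (t 0) (t 0))

/-- the atom -/
def at0 (a : ℕ → ℕ) (i : ℕ) : Fo a := Fo.rel i fun j => decide (j.val ≠ 0)

theorem at0_mem {x : Str a} {i u w : ℕ} :
    at0 a i ∈ tp (toS x) u w ↔ x i (pair u w) = true := by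
  show x i (pk u w ∘ fun j => decide (j.val ≠ 0)) = true ↔ _
  have : pk u w ∘ (fun j : Fin (a i) => decide (j.val ≠ 0)) = pair u w := by
    funext j
    by_cases h : j.val = 0 <;> simp [pair, pk, h]
  rw [this]

/-- the decoded relation -/
def Dd (G : Set (Set (Fo a))) (z : Str (fun _ => 2)) (i u w : ℕ) : Prop :=
  ((u = w ∨ z 0 (pair u w) = true) ∧ z (2 * i + 1) (pair u w) = true) ∨
  (u ≠ w ∧ ¬ z 0 (pair u w) = true ∧ ∃ g : G, at0 a i ∈ (g : Set (Fo a)) ∧
    (∀ n, en n ∈ lft (g : Set (Fo a)) ↔ z (2 * n + 2) (pair u u) = true) ∧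
    ∀ n, en n ∈ rgt (g : Set (Fo a)) ↔ z (2 * n + 2) (pair w w) = true)

open Classical in
/-- the decoding -/
noncomputable def dd (G : Set (Set (Fo a))) (z : Str (fun _ => 2)) : Str a := fun i t =>
  decide (∃ u w, t = pair u w ∧ Dd G z i u w)

theorem comp_pair (σ : ℕ → ℕ) {n : ℕ} (u w : ℕ) :
    σ ∘ (pair u w : Fin n → ℕ) = pair (σ u) (σ w) := by
  funext j
  simp only [comp, pair]
  split_ifs <;> rfl

theorem pair_two (t : Fin 2 → ℕ) : pair (t 0) (t 1) = t := by
  funext j
  fin_cases j <;> simp [pair]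

theorem tp_act (σ : Equiv.Perm ℕ) (x : Str a) (u w : ℕ) :
    tp (toS (act σ x)) u w = tp (toS x) (σ.symm u) (σ.symm w) := by
  have h := tp_iso (x := x) (y := act σ x) (σ := σ) (by
    intro i v
    show x i (⇑σ.symm ∘ ⇑σ ∘ v) = x i v
    congr 1
    funext j
    simp) (σ.symm u) (σ.symm w)
  rw [Equiv.apply_symm_apply, Equiv.apply_symm_apply] at h
  exact h

theorem SX_act (G : Set (Set (Fo a))) (σ : Equiv.Perm ℕ) (x : Str a) (u w : ℕ) :
    SX G (act σ x) u w ↔ SX G x (σ.symm u) (σ.symm w) := by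
  unfold SX
  rw [tp_act]
  simp

theorem cc_act (G : Set (Set (Fo a))) (σ : Equiv.Perm ℕ) (x : Str a) :
    cc G (act σ x) = act σ (cc G x) := by
  classical
  funext m t
  show cc G (act σ x) m t = cc G x m (⇑σ.symm ∘ t)
  unfold cc
  simp only [SX_act, tp_act, comp_apply, EmbeddingLike.apply_eq_iff_eq]
  have h : ∀ i, (act σ x) i (pair (t 0) (t 1)) = x i (pair (σ.symm (t 0)) (σ.symm (t 1))) := by
    intro i
    show x i (⇑σ.symm ∘ pair (t 0) (t 1)) = _
    rw [comp_pair]
  simp only [h]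

theorem Dd_act (G : Set (Set (Fo a))) (σ : Equiv.Perm ℕ) (z : Str (fun _ => 2)) (i u w : ℕ) :
    Dd G (act σ z) i u w ↔ Dd G z i (σ.symm u) (σ.symm w) := by
  have h : ∀ m u w, (act σ z) m (pair u w) = z m (pair (σ.symm u) (σ.symm w)) := by
    intro m u w
    show z m (⇑σ.symm ∘ pair u w) = _
    rw [comp_pair]
  unfold Dd
  simp only [h, EmbeddingLike.apply_eq_iff_eq, ne_eq]

theorem dd_act (G : Set (Set (Fo a))) (σ : Equiv.Perm ℕ) (z : Str (fun _ => 2)) :
    dd G (act σ z) = act σ (dd G z) := by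
  classical
  funext i t
  show decide (∃ u w, t = pair u w ∧ Dd G (act σ z) i u w) =
    decide (∃ u w, ⇑σ.symm ∘ t = pair u w ∧ Dd G z i u w)
  simp only [Dd_act, decide_eq_decide]
  constructor
  · rintro ⟨u, w, rfl, h⟩
    exact ⟨_, _, comp_pair _ _ _, h⟩
  · rintro ⟨u, w, h1, h2⟩
    refine ⟨σ u, σ w, ?_, by simpa using h2⟩
    rw [← comp_pair, ← h1]
    funext j
    simp

theorem measurable_SX {G : Set (Set (Fo a))} (hG : G.Countable) (u w : ℕ) :
    Measurable fun x : Str a => SX G x u w := by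
  have := hG.to_subtype
  have h : (fun x : Str a => SX G x u w) =
      fun x => u ≠ w ∧ ¬ ∃ g : G, tp (toS x) u w = g := by
    funext x
    apply propext
    unfold SX
    refine and_congr_right fun _ => not_congr ?_
    constructor
    · exact fun h => ⟨⟨_, h⟩, rfl⟩
    · rintro ⟨g, hg⟩
      rw [hg]
      exact g.2
  rw [h]
  exact measurable_const.and (Measurable.exists fun g => measurable_tp _ _ _).not

theorem meas_dec {X : Type} [MeasurableSpace X] {p : X → Prop} (h : Measurable p)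
    (d : ∀ x, Decidable (p x)) : Measurable fun x => @decide (p x) (d x) := by
  apply measurable_to_bool
  have : (fun x => @decide (p x) (d x)) ⁻¹' {true} = {x | p x} := by
    ext x
    simp
  rw [this]
  exact measurableSet_setOfPred.2 h

theorem measurable_cc {G : Set (Set (Fo a))} (hG : G.Countable) : Measurable (cc G) := by
  classical
  rw [measurable_pi_iff]
  intro m
  rw [measurable_pi_iff]
  intro t
  unfold cc
  split_ifs
  · exact meas_dec (measurable_SX hG _ _) _
  · exact meas_dec ((measurable_const.or (measurable_SX hG _ _)).and (measurable_atom _ _)) _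
  · exact meas_dec (measurable_const.and (measurable_sat _ _)) _

theorem measurable_dd {G : Set (Set (Fo a))} (hG : G.Countable) : Measurable (dd G) := by
  classical
  have := hG.to_subtype
  have hz : ∀ (m : ℕ) (t : Fin 2 → ℕ), Measurable fun z : Str (fun _ => 2) => z m t = true :=
    fun m t => measurable_atom (a := fun _ => 2) m t
  rw [measurable_pi_iff]
  intro i
  rw [measurable_pi_iff]
  intro t
  unfold dd
  refine meas_dec (Measurable.exists fun u => Measurable.exists fun w =>
    measurable_const.and ?_) _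
  unfold Dd
  refine ((measurable_const.or (hz _ _)).and (hz _ _)).or (measurable_const.and
    ((hz _ _).not.and (Measurable.exists fun g => measurable_const.and
      ((Measurable.forall fun n => measurable_const.iff (hz _ _)).and
        (Measurable.forall fun n => measurable_const.iff (hz _ _))))))

theorem coding {G : Set (Set (Fo a))} (hG : G.Countable) :
    Coding (a := a) (b := fun _ => 2) (fun _ => cc G) (fun _ => dd G) :=
  ⟨fun _ => measurable_cc hG, fun _ => measurable_dd hG, fun σ _ x => cc_act G σ x,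
    fun σ _ z => dd_act G σ z⟩

theorem pair_exists {n : ℕ} (h : n ≤ 2) (t : Fin n → ℕ) : ∃ u w, t = pair u w := by
  refine ⟨if h0 : 0 < n then t ⟨0, h0⟩ else 0, if h1 : 1 < n then t ⟨1, h1⟩ else 0, ?_⟩
  funext j
  have hj := j.isLt
  unfold pair
  by_cases h0 : j.val = 0
  · rw [if_pos h0, dif_pos (by omega)]
    congr 1
    exact Fin.ext h0
  · rw [if_neg h0, dif_pos (by omega)]
    congr 1
    exact Fin.ext (show j.val = 1 by omega)

theorem cc_zero (G : Set (Set (Fo a))) (x : Str a) (u w : ℕ) :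
    cc G x 0 (pair u w) = true ↔ SX G x u w := by
  classical
  simp [cc, pair]

theorem cc_rel (G : Set (Set (Fo a))) (x : Str a) (i u w : ℕ) :
    cc G x (2 * i + 1) (pair u w) = true ↔
      (u = w ∨ SX G x u w) ∧ x i (pair u w) = true := by
  classical
  have h1 : (2 * i + 1) % 2 = 1 := by omega
  have h2 : (2 * i + 1 - 1) / 2 = i := by omega
  unfold cc
  rw [if_neg (by omega), if_pos h1, h2]
  simp [pair]

theorem cc_ty (G : Set (Set (Fo a))) (x : Str a) (n u w : ℕ) :
    cc G x (2 * n + 2) (pair u w) = true ↔ u = w ∧ en n ∈ tp (toS x) u u := by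
  classical
  have h2 : (2 * n + 2 - 2) / 2 = n := by omega
  unfold cc
  rw [if_neg (by omega), if_neg (by omega), h2]
  simp [pair]

theorem dd_cc {B : Set (Str a)} (hcl : Closed B) (hP : ¬ Perf B) (ha : ∀ i, a i ≤ 2) (x : Str a) :
    dd (Gen B) (cc (Gen B) x) = x := by
  classical
  funext i t
  have key : ∀ u w, Dd (Gen B) (cc (Gen B) x) i u w ↔ x i (pair u w) = true := by
    intro u w
    unfold Dd
    rw [cc_zero, cc_rel]
    simp only [cc_ty, true_and]
    by_cases h1 : u = w ∨ SX (Gen B) x u w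
    · constructor
      · rintro (⟨_, _, h2⟩ | ⟨h2, h3, _⟩)
        · exact h2
        · rcases h1 with h1 | h1
          · exact absurd h1 h2
          · exact absurd h1 h3
      · exact fun h2 => Or.inl ⟨h1, h1, h2⟩
    · rw [not_or] at h1
      have h2 : tp (toS x) u w ∈ Gen B := by
        by_contra h3
        exact h1.2 ⟨h1.1, h3⟩
      constructor
      · rintro (⟨h3, _⟩ | ⟨h3, h4, g, h5, h6, h7⟩)
        · exact absurd h3 (by rw [not_or]; exact h1)
        · have h8 : lft (g : Set (Fo a)) = lft (tp (toS x) u w) := by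
            rw [lft_tp]
            ext φ
            obtain ⟨n, rfl⟩ := en_surj φ
            exact h6 n
          have h9 : rgt (g : Set (Fo a)) = rgt (tp (toS x) u w) := by
            rw [rgt_tp]
            ext φ
            obtain ⟨n, rfl⟩ := en_surj φ
            exact h7 n
          rw [Gen.unique hcl hP g.2 h2 h8 h9, at0_mem] at h5
          exact h5
      · intro h3
        refine Or.inr ⟨h1.1, h1.2, ⟨_, h2⟩, at0_mem.2 h3, fun n => ?_, fun n => ?_⟩
        · rw [lft_tp]
        · rw [rgt_tp]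
  show decide (∃ u w, t = pair u w ∧ Dd (Gen B) (cc (Gen B) x) i u w) = x i t
  rw [Bool.eq_iff_iff, decide_eq_true_iff]
  constructor
  · rintro ⟨u, w, rfl, h⟩
    exact (key u w).1 h
  · intro h
    obtain ⟨u, w, rfl⟩ := pair_exists (ha i) t
    exact ⟨u, w, rfl, (key u w).2 h⟩

theorem flip_cc {B : Set (Str a)} (hcl : Closed B) (hS : (S2 B).Countable) (hP : ¬ Perf B)
    {x : Str a} (hx : x ∈ B) : FlipSparse (cc (Gen B) x) := by
  classical
  let S : SimpleGraph ℕ := ⟨SX (Gen B) x, ⟨fun u w h => ⟨h.1.symm, fun h1 => h.2 (Gen.inv h1)⟩⟩,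
    ⟨fun u h => h.1 rfl⟩⟩
  refine ⟨S, 1, fun _ => 0, fun _ _ _ => false, ?_, ?_, ?_⟩
  · rintro ⟨v, hv, P, hP1, hP2, hP3⟩
    exact no_ic2 hcl hS hP hx hv (ic_of_sub S hv P hP2 hP3)
  · intro m _ u w huw hS
    rw [← Bool.not_eq_true]
    intro h
    rcases Nat.eq_zero_or_pos m with h1 | h1
    · subst h1
      exact hS ((cc_zero _ _ _ _).1 h)
    · rcases Nat.mod_two_eq_zero_or_one m with h2 | h2
      · obtain ⟨n, rfl⟩ : ∃ n, m = 2 * n + 2 := ⟨(m - 2) / 2, by omega⟩
        exact huw ((cc_ty _ _ _ _ _).1 h).1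
      · obtain ⟨n, rfl⟩ : ∃ n, m = 2 * n + 1 := ⟨(m - 1) / 2, by omega⟩
        rcases ((cc_rel _ _ _ _ _).1 h).1 with h3 | h3
        · exact huw h3
        · exact hS h3
  · intro i hi
    exact absurd rfl hi

theorem Closed.iso {B : Set (Str a)} (hcl : Closed B) {x y : Str a} (h : Iso x y) (hx : x ∈ B) :
    y ∈ B := by
  obtain ⟨σ, hσ⟩ := h
  exact hcl.tp hx (tp_iso hσ 0 0).symm

/-- The dichotomy for closed classes. -/
theorem main {B : Set (Str a)} (hB : MeasurableSet B) (hcl : Closed B) (hP : ¬ Perf B) :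
    ∃ C : Set (Str a), C.Countable ∧ ∀ x ∈ B, ∃ y ∈ C, Iso y x := by
  classical
  rcases B.eq_empty_or_nonempty with h0 | ⟨x0, hx0⟩
  · exact ⟨∅, countable_empty, fun x hx => by rw [h0] at hx; exact absurd hx (by simp)⟩
  have ha : ∀ i, a i ≤ 2 := by
    intro i
    by_contra h
    exact hP (perf_three hcl hx0 (i := i) (by omega))
  have hS := S2_countable hB hP
  have hG := Gen.countable hS
  have h1 := (Pool.Agent.Results.MP_5df2c5_lc.FiniteFlips.result a _
    (Tame.coding a (fun _ => 2) _ _ FlipSparse (coding hG) (Tame.flip _))).2 B hB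
    (fun x y h => ⟨hcl.iso h, hcl.iso (COV.Iso.symm h)⟩)
    (fun x hx => ⟨[], flip_cc hcl hS hP hx, dd_cc hcl hP ha x⟩)
  rcases h1 with ⟨f, hf⟩ | h1
  · refine ⟨range f, countable_range f, fun x hx => ?_⟩
    obtain ⟨n, hn⟩ := hf x hx
    exact ⟨f n, ⟨n, rfl⟩, hn⟩
  · exact absurd h1 hP

end Pool.Agent.L7h71.CC
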