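import Pool.Agent.L7h71.CC.Syn
import Pool.Agent.L7h71.COV.Str

set_option autoImplicit false

/-!
Codes of structures, perfect families, and countability of the set of types.
-/

namespace Pool.Agent.L7h71.CC

open Function Set MeasureTheory
open Pool.Agent.L7h71.COV (Str Iso Three TT Rch dec cod dec_iso triple)

variable {a : ℕ → ℕ}

/-- the structure with a given code -/
def toS (x : Str a) : St a ℕ := fun i t => x i t = true

open Classical in
/-- the code of a structure -/
noncomputable def ofS (R : St a ℕ) : Str a := fun i t => decide (R i t)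

theorem toS_ofS (R : St a ℕ) : toS (ofS R) = R := by
  funext i t
  simp [toS, ofS]

/-- perfectly many members -/
def Perf (B : Set (Str a)) : Prop :=
  ∃ g : (ℕ → Bool) → Str a, Continuous g ∧ (∀ c, g c ∈ B) ∧ ∀ c d, Iso (g c) (g d) → c = d

theorem perf_of_inv {B : Set (Str a)} {Y Z ι : Type} [MeasurableSpace Y] [StandardBorelSpace Y]
    (incl : Y → Str a) (hincl : Measurable incl) (hY : ∀ y, incl y ∈ B)
    [TopologicalSpace Z] [T2Space Z] [SecondCountableTopology Z] [MeasurableSpace Z] [BorelSpace Z]
    [Countable ι] (J : ι → Y → Z) (hJ : ∀ i, Measurable (J i))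
    (hE : ∀ y y', Iso (incl y) (incl y') → ∀ i, ∃ j, J i y = J j y')
    (hunc : ¬ (⋃ i, Set.range (J i)).Countable) : Perf B := by
  obtain ⟨h, h1, h2⟩ := Pool.Agent.H565R2.FO2.perfect_of_uncountable incl hincl J hJ
    (fun y y' => Iso (incl y) (incl y')) hE hunc
  refine ⟨incl ∘ h, h1, fun x => hY _, fun x x' hi => ?_⟩
  by_contra hne
  exact h2 x x' hne hi

theorem not_countable_cantor : ¬ (univ : Set (ℕ → Bool)).Countable := by
  intro h1
  have h2 := Set.countable_univ_iff.1 h1
  obtain ⟨f, hf⟩ := exists_surjective_nat (ℕ → Bool)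
  obtain ⟨n, hn⟩ := hf (fun k => !(f k k))
  have := congrFun hn n
  simp at this

/-- Perfect families from decodings with parameters. -/
theorem perf_of_dec {B : Set (Str a)} {ι : Type} [Countable ι] (z : (ℕ → Bool) → Str a)
    (hz : Continuous z) (hB : ∀ c, z c ∈ B) (D : ι → Str a → ℕ → Prop)
    (hD : ∀ p n, Measurable fun x => D p x n)
    (hiso : ∀ (p : ι) (x y : Str a), Iso x y → ∃ q, ∀ n, D p x n ↔ D q y n)
    (p0 : ι) (hp : ∀ c n, D p0 (z c) n ↔ c n = true) : Perf B := by
  classical
  refine perf_of_inv (Y := ℕ → Bool) (Z := ℕ → Bool) (ι := ι) z hz.measurable hB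
    (fun p c n => decide (D p (z c) n)) ?_ ?_ ?_
  · intro p
    rw [measurable_pi_iff]
    intro n
    apply measurable_to_bool
    have : (fun c => decide (D p (z c) n)) ⁻¹' {true} = {c | D p (z c) n} := by
      ext c; simp
    rw [this]
    apply measurableSet_setOfPred.2
    exact (hD p n).comp hz.measurable
  · intro c d hcd p
    obtain ⟨q, hq⟩ := hiso p _ _ hcd
    refine ⟨q, ?_⟩
    funext n
    simp only [decide_eq_decide]
    exact hq n
  · intro hc
    apply not_countable_cantor
    refine hc.mono ?_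
    intro c _
    refine mem_iUnion.2 ⟨p0, c, ?_⟩
    funext n
    rw [Bool.eq_iff_iff, decide_eq_true_iff]
    exact hp c n

theorem measurable_atom (i : ℕ) (t : Fin (a i) → ℕ) :
    Measurable fun x : Str a => toS x i t := by
  apply measurableSet_setOfPred.1
  have h1 : Measurable fun x : Str a => x i t :=
    (measurable_pi_apply t).comp (measurable_pi_apply i)
  exact h1 (measurableSet_singleton true)

theorem measurable_sat (φ : Fo a) (v : Bool → ℕ) :
    Measurable fun x : Str a => Sat (toS x) φ v := by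
  induction φ generalizing v with
  | eq b b' => exact measurable_const
  | rel i s => exact measurable_atom i _
  | neg φ ih => exact (ih v).not
  | and φ ψ ih1 ih2 => exact (ih1 v).and (ih2 v)
  | cnt k φ ih =>
    exact Measurable.exists fun w => measurable_const.and (Measurable.forall fun j => ih _)
  | sub σ φ ih => exact ih _

theorem measurable_tp (s : Set (Fo a)) (u w : ℕ) :
    Measurable fun x : Str a => tp (toS x) u w = s := by
  have : (fun x : Str a => tp (toS x) u w = s) =
      fun x : Str a => ∀ φ : Fo a, (Sat (toS x) φ (pk u w) ↔ φ ∈ s) := by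
    funext x
    apply propext
    rw [Set.ext_iff]
    rfl
  rw [this]
  exact Measurable.forall fun φ => (measurable_sat φ _).iff measurable_const

theorem sat_iso {x y : Str a} {σ : Equiv.Perm ℕ}
    (h : ∀ (i : ℕ) (v : Fin (a i) → ℕ), y i (⇑σ ∘ v) = x i v) (φ : Fo a) (v : Bool → ℕ) :
    Sat (toS y) φ (σ ∘ v) ↔ Sat (toS x) φ v := by
  induction φ generalizing v with
  | eq b b' => simp [Sat]
  | rel i s =>
    simp only [Sat, toS]
    rw [comp_assoc, h]
  | neg φ ih =>
    simp only [Sat]
    rw [ih v]
  | and φ ψ ih1 ih2 =>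
    simp only [Sat]
    rw [ih1, ih2]
  | cnt k φ ih =>
    simp only [Sat]
    have hu : ∀ z, update (σ ∘ v) true (σ z) = σ ∘ update v true z := by
      intro z
      funext b
      cases b
      · simp
      · simp
    constructor
    · rintro ⟨w, hw1, hw2⟩
      refine ⟨fun j => σ.symm (w j), fun j l hjl => hw1 (σ.symm.injective hjl), fun j => ?_⟩
      rw [← ih, ← hu, Equiv.apply_symm_apply]
      exact hw2 j
    · rintro ⟨w, hw1, hw2⟩
      refine ⟨fun j => σ (w j), fun j l hjl => hw1 (σ.injective hjl), fun j => ?_⟩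
      rw [hu, ih]
      exact hw2 j
  | sub τ φ ih =>
    simp only [Sat]
    rw [← ih]
    rfl

theorem tp_iso {x y : Str a} {σ : Equiv.Perm ℕ}
    (h : ∀ (i : ℕ) (v : Fin (a i) → ℕ), y i (⇑σ ∘ v) = x i v) (u w : ℕ) :
    tp (toS y) (σ u) (σ w) = tp (toS x) u w := by
  ext φ
  show Sat (toS y) φ (pk (σ u) (σ w)) ↔ Sat (toS x) φ (pk u w)
  rw [← sat_iso h]
  have : σ ∘ pk u w = pk (σ u) (σ w) := by
    funext b; cases b <;> rfl
  rw [this]

/-- the types realised in members of `B` -/
def S2 (B : Set (Str a)) : Set (Set (Fo a)) := {s | ∃ x ∈ B, ∃ u w, s = tp (toS x) u w}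

theorem S2_countable {B : Set (Str a)} (hB : MeasurableSet B) (h : ¬ Perf B) :
    (S2 B).Countable := by
  classical
  by_contra hc
  apply h
  have : StandardBorelSpace {x // x ∈ B} := hB.standardBorel
  refine perf_of_inv (B := B) (Y := {x // x ∈ B}) (Z := Fo a → Bool) (ι := ℕ × ℕ) (fun y => y.1)
    measurable_subtype_coe (fun y => y.2)
    (fun p y φ => decide (φ ∈ tp (toS y.1) p.1 p.2)) ?_ ?_ ?_
  · intro p
    rw [measurable_pi_iff]
    intro φ
    apply measurable_to_bool
    have : (fun y : {x // x ∈ B} => decide (φ ∈ tp (toS y.1) p.1 p.2)) ⁻¹' {true} =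
        {y | Sat (toS y.1) φ (pk p.1 p.2)} := by
      ext c
      exact decide_eq_true_iff
    rw [this]
    apply measurableSet_setOfPred.2
    exact (measurable_sat φ _).comp measurable_subtype_coe
  · rintro y y' ⟨σ, hσ⟩ p
    refine ⟨(σ p.1, σ p.2), ?_⟩
    funext φ
    simp only
    rw [tp_iso hσ]
  · intro hc2
    apply hc
    have hinj : Injective fun (s : Set (Fo a)) (φ : Fo a) => decide (φ ∈ s) := by
      intro s s' h
      ext φ
      simpa using congrFun h φ
    refine Set.MapsTo.countable_of_injOn (f := fun (s : Set (Fo a)) (φ : Fo a) =>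
      decide (φ ∈ s)) ?_ hinj.injOn hc2
    rintro s ⟨x, hx, u, w, rfl⟩
    exact mem_iUnion.2 ⟨(u, w), ⟨x, hx⟩, rfl⟩

/-- closed under equivalence for two-variable logic with counting -/
def Closed (B : Set (Str a)) : Prop :=
  ∀ x ∈ B, ∀ y : Str a, (∀ φ : Fo a, (∀ z, Sat (toS x) φ (pk z z)) ↔
    ∀ z, Sat (toS y) φ (pk z z)) → y ∈ B

theorem Closed.tp {B : Set (Str a)} (h : Closed B) {x y : Str a} (hx : x ∈ B) {u w : ℕ}
    (huw : tp (toS x) u u = tp (toS y) w w) : y ∈ B := by
  refine h x hx y fun φ => ?_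
  have h1 : ∀ (x : Str a) (u : ℕ), (∀ z, Sat (toS x) φ (pk z z)) ↔
      Fo.neg (Fo.cnt 1 (Fo.neg (Fo.sub (fun _ => true) φ))) ∈ CC.tp (toS x) u u := by
    intro x u
    show _ ↔ ¬ (Fo.cnt 1 (Fo.neg (Fo.sub (fun _ => true) φ)) ∈ CC.tp (toS x) u u)
    rw [cnt_iff]
    constructor
    · rintro h2 ⟨z, _, hz⟩
      apply hz 0
      show Sat (toS x) φ (pk u (z 0) ∘ fun _ => true)
      rw [pk_comp]
      exact h2 (z 0)
    · intro h2 z
      by_contra h3
      apply h2
      refine ⟨fun _ => z, fun j l _ => Subsingleton.elim _ _, fun j => ?_⟩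
      show ¬ Sat (toS x) φ (pk u z ∘ fun _ => true)
      rw [pk_comp]
      exact h3
  rw [h1 x u, h1 y w, huw]

theorem sat_congr {R R' : St a ℕ} (h : ∀ i t, ¬ Three t → (R i t ↔ R' i t)) (φ : Fo a)
    (v : Bool → ℕ) : Sat R φ v ↔ Sat R' φ v := by
  induction φ generalizing v with
  | eq b b' => exact Iff.rfl
  | rel i s =>
    simp only [Sat]
    apply h
    apply Pool.Agent.L7h71.COV.not_three (u := v false) (v := v true)
    rintro _ ⟨j, rfl⟩
    simp only [comp]
    cases s j <;> simp
  | neg φ ih =>
    simp only [Sat]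
    rw [ih v]
  | and φ ψ ih1 ih2 =>
    simp only [Sat]
    rw [ih1, ih2]
  | cnt k φ ih =>
    simp only [Sat]
    simp only [ih]
  | sub τ φ ih =>
    simp only [Sat]
    rw [ih]

/-- Relations of arity at least three. -/
theorem perf_three {B : Set (Str a)} (hcl : Closed B) {x : Str a} (hx : x ∈ B) {i : ℕ}
    (hi : 3 ≤ a i) : Perf B := by
  classical
  let y : (ℕ → Bool) → Str a := fun c i t => if Three t then cod c i t else x i t
  have hcont : Continuous y := by
    rw [continuous_pi_iff]
    intro i
    rw [continuous_pi_iff]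
    intro t
    show Continuous fun c : ℕ → Bool => if Three t then cod c i t else x i t
    by_cases h7 : Three t
    · simp only [if_pos h7]
      unfold cod
      by_cases h8 : 3 ≤ a i
      · simp only [dif_pos h8]
        exact (continuous_of_discreteTopology (f := fun b : Bool => _ || (_ && b))).comp
          (continuous_apply _)
      · simp only [dif_neg h8]
        exact continuous_const
    · simp only [if_neg h7]
      exact continuous_const
  have hT : ∀ c u v w, TT i (y c) u v w ↔
      ((u = 0 ∧ 1 ≤ v ∧ w = v + 1) ∨ (v = 0 ∧ 1 ≤ u ∧ w = u + 1 ∧ c (u - 1) = true)) := by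
    intro c u v w
    have h1 : ∀ (h : u ≠ v ∧ v ≠ w ∧ u ≠ w), y c i (triple u v w) =
        (decide (u = 0 ∧ 1 ≤ v ∧ w = v + 1) || (decide (v = 0 ∧ 1 ≤ u ∧ w = u + 1) &&
          c (u - 1))) := by
      intro h
      have h2 : Three (triple u v w : Fin (a i) → ℕ) :=
        ⟨⟨0, by omega⟩, ⟨1, by omega⟩, ⟨2, by omega⟩, by simp [triple, h.1],
          by simp [triple, h.2.1], by simp [triple, h.2.2]⟩
      show (if Three (triple u v w : Fin (a i) → ℕ) then cod c i (triple u v w) else
        x i (triple u v w)) = _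
      rw [if_pos h2]
      unfold cod
      rw [dif_pos hi]
      simp [triple]
    unfold TT
    constructor
    · rintro ⟨h2, h3, h4, h5⟩
      rw [h1 ⟨h2, h3, h4⟩] at h5
      simpa [and_assoc] using h5
    · intro h
      have h2 : u ≠ v ∧ v ≠ w ∧ u ≠ w := by
        rcases h with ⟨h3, h4, h5⟩ | ⟨h3, h4, h5, _⟩ <;> refine ⟨?_, ?_, ?_⟩ <;> omega
      refine ⟨h2.1, h2.2.1, h2.2.2, ?_⟩
      rw [h1 h2]
      simpa [and_assoc] using h
  have hR : ∀ c n w, Rch i (y c) 0 1 n w ↔ w = n + 1 := by
    intro c n
    induction n with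
    | zero => intro w; simp [Rch]
    | succ n ih =>
      intro w
      constructor
      · rintro ⟨v, h1, h2⟩
        rw [ih] at h1
        rw [hT] at h2
        subst h1
        rcases h2 with h | h
        · exact h.2.2
        · omega
      · intro h
        exact ⟨n + 1, (ih _).2 rfl, (hT _ _ _ _).2 (Or.inl ⟨rfl, by omega, h⟩)⟩
  have hmT : ∀ u v w, Measurable fun x : Str a => TT i x u v w := by
    intro u v w
    unfold TT
    exact measurable_const.and (measurable_const.and (measurable_const.and (measurable_atom _ _)))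
  have hmR : ∀ p q n w, Measurable fun x : Str a => Rch i x p q n w := by
    intro p q n
    induction n with
    | zero => intro w; exact measurable_const
    | succ n ih =>
      intro w
      exact Measurable.exists fun v => (ih v).and (hmT _ _ _)
  refine perf_of_dec (ι := ℕ × ℕ) y hcont ?_
    (fun p x n => ∃ v w, Rch i x p.1 p.2 n v ∧ TT i x v p.1 w) ?_ ?_ (0, 1) ?_
  · intro c
    refine hcl x hx _ fun φ => forall_congr' fun z => ?_
    apply sat_congr
    intro i t ht
    show x i t = true ↔ (if Three t then cod c i t else x i t) = true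
    rw [if_neg ht]
  · intro p n
    exact Measurable.exists fun v => Measurable.exists fun w => (hmR _ _ _ _).and (hmT _ _ _)
  · rintro p x y ⟨σ, hσ⟩
    refine ⟨(σ p.1, σ p.2), fun n => ?_⟩
    have := congrFun (dec_iso (i := i) hσ p.1 p.2) n
    unfold dec at this
    rw [Bool.eq_iff_iff, decide_eq_true_iff, decide_eq_true_iff] at this
    exact this
  · intro c n
    constructor
    · rintro ⟨v, w, h1, h2⟩
      rw [hR] at h1
      rw [hT] at h2
      subst h1
      rcases h2 with h | h
      · omega
      · exact h.2.2.2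
    · intro h
      exact ⟨n + 1, n + 2, (hR _ _ _).2 rfl, (hT _ _ _ _).2 (Or.inr ⟨rfl, by omega, rfl, h⟩)⟩

end Pool.Agent.L7h71.CC
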