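import Pool.Agent.L7h71.CC.Per

set_option autoImplicit false

/-!
Rich structures: every structure has a rich extension.
-/

namespace Pool.Agent.L7h71.CC

open Function Set MeasureTheory Filter
open Pool.Agent.L7h71.COV (Str Iso)

variable {a : ℕ → ℕ}

instance : Nonempty (Fo a) := ⟨Fo.eq false false⟩

/-- an enumeration of the formulas -/
noncomputable def en : ℕ → Fo a := Classical.choose (exists_surjective_nat (Fo a))

theorem en_surj : Surjective (en : ℕ → Fo a) := Classical.choose_spec (exists_surjective_nat (Fo a))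

open Classical in
/-- finite parts of a type -/
noncomputable def fp (s : Set (Fo a)) : ℕ → Fo a
  | 0 => Fo.eq false false
  | m + 1 => Fo.and (fp s m) (if en m ∈ s then en m else Fo.neg (en m))

open Classical in
theorem mem_fp {M : Type} {R : St a M} {u w : M} (s : Set (Fo a)) (m : ℕ) :
    fp s m ∈ tp R u w ↔ ∀ l < m, (en l ∈ tp R u w ↔ en l ∈ s) := by
  induction m with
  | zero => simp [fp, tp, Sat]
  | succ m ih =>
    have h1 : fp s (m + 1) ∈ tp R u w ↔ fp s m ∈ tp R u w ∧
        (if en m ∈ s then en m else Fo.neg (en m)) ∈ tp R u w := Iff.rfl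
    have h2 : (if en m ∈ s then en m else Fo.neg (en m)) ∈ tp R u w ↔
        (en m ∈ tp R u w ↔ en m ∈ s) := by
      by_cases h : en m ∈ s
      · simp [h]
      · rw [if_neg h]
        simp only [h, iff_false]
        rfl
    rw [h1, h2, ih]
    constructor
    · rintro ⟨h3, h4⟩ l hl
      rcases Nat.lt_succ_iff_lt_or_eq.1 hl with h | h
      · exact h3 l h
      · rw [h]; exact h4
    · intro h
      exact ⟨fun l hl => h l (by omega), h m (by omega)⟩

theorem eq_of_fp {M : Type} {R : St a M} {u w : M} {s : Set (Fo a)}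
    (h : ∀ m, fp s m ∈ tp R u w) : tp R u w = s := by
  ext φ
  obtain ⟨l, rfl⟩ := en_surj φ
  exact (mem_fp s (l + 1)).1 (h _) l (by omega)

theorem fp_of_eq {M : Type} {R : St a M} {u w : M} (m : ℕ) : fp (tp R u w) m ∈ tp R u w := by
  rw [mem_fp]
  intro l _
  exact Iff.rfl

/-- saturation with multiplicities over one element -/
def Rich (y : St a ℕ) : Prop :=
  ∀ (u : ℕ) (s : Set (Fo a)) (k : ℕ), (∀ m, Fo.cnt k (fp s m) ∈ tp y u u) →
    (k : ℕ∞) ≤ {w | tp y u w = s}.encard

theorem cnt_fp {M : Type} {R : St a M} {u : M} {s : Set (Fo a)} {k : ℕ}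
    (h : (k : ℕ∞) ≤ {w | tp R u w = s}.encard) (m : ℕ) : Fo.cnt k (fp s m) ∈ tp R u u := by
  rw [cnt_iff_encard]
  refine h.trans (encard_le_encard ?_)
  rintro w rfl
  exact fp_of_eq m

theorem Rich.eq {y : St a ℕ} (h : Rich y) {u u' : ℕ} (huu : tp y u u = tp y u' u')
    (s : Set (Fo a)) : {w | tp y u w = s}.encard = {w | tp y u' w = s}.encard := by
  apply le_antisymm
  · rw [← ENat.forall_natCast_le_iff_le]
    intro k hk
    refine h u' s k fun m => ?_
    rw [← huu]
    exact cnt_fp hk m
  · rw [← ENat.forall_natCast_le_iff_le]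
    intro k hk
    refine h u s k fun m => ?_
    rw [huu]
    exact cnt_fp hk m

/-- types realised elsewhere are realised -/
theorem Rich.ex {y : St a ℕ} (h : Rich y) {M : Type} {R : St a M} {u : ℕ} {u' w' : M}
    (huu : tp y u u = tp R u' u') : ∃ w, tp y u w = tp R u' w' := by
  have h1 : ((1 : ℕ) : ℕ∞) ≤ {w | tp y u w = tp R u' w'}.encard := by
    refine h u _ 1 fun m => ?_
    rw [huu]
    apply cnt_fp
    rw [Nat.cast_one, one_le_encard_iff_nonempty]
    exact ⟨w', rfl⟩
  rw [Nat.cast_one, one_le_encard_iff_nonempty] at h1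
  exact h1

section ultra

/-- the ultrafilter -/
noncomputable abbrev U : Ultrafilter ℕ := hyperfilter ℕ

/-- the carrier of the ultrapower -/
abbrev MU : Type := Germ (U : Filter ℕ) ℕ

/-- representatives -/
noncomputable def rep (m : MU) : ℕ → ℕ := Quotient.out m

theorem coe_rep (m : MU) : ((rep m : ℕ → ℕ) : MU) = m := Quotient.out_eq m

theorem rep_coe (f : ℕ → ℕ) : ∀ᶠ n in (U : Filter ℕ), rep (f : MU) n = f n := by
  have h := coe_rep (f : MU)
  exact Germ.coe_eq.1 h

/-- the ultrapower -/
def SU (R : St a ℕ) : St a MU := fun i t => ∀ᶠ n in (U : Filter ℕ), R i fun j => rep (t j) n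

theorem los (R : St a ℕ) (φ : Fo a) (v : Bool → MU) :
    Sat (SU R) φ v ↔ ∀ᶠ n in (U : Filter ℕ), Sat R φ fun b => rep (v b) n := by
  induction φ generalizing v with
  | eq b b' =>
    simp only [Sat]
    rw [← coe_rep (v b), ← coe_rep (v b'), Germ.coe_eq]
    constructor
    · intro h
      filter_upwards [h, rep_coe (rep (v b)), rep_coe (rep (v b'))] with n h1 h2 h3
      rw [h2, h3, h1]
    · intro h
      filter_upwards [h, rep_coe (rep (v b)), rep_coe (rep (v b'))] with n h1 h2 h3
      rw [← h2, ← h3, h1]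
  | rel i s => exact Iff.rfl
  | neg φ ih =>
    simp only [Sat]
    rw [ih, ← Ultrafilter.eventually_not]
  | and φ ψ ih1 ih2 =>
    simp only [Sat]
    rw [ih1, ih2, ← eventually_and]
  | cnt k φ ih =>
    simp only [Sat]
    constructor
    · rintro ⟨w, hw1, hw2⟩
      have h1 : ∀ᶠ n in (U : Filter ℕ), ∀ j l : Fin k, j ≠ l → rep (w j) n ≠ rep (w l) n := by
        rw [eventually_all]
        intro j
        rw [eventually_all]
        intro l
        by_cases hjl : j = l
        · exact Eventually.of_forall fun n h => absurd hjl h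
        · have h2 : ¬ ∀ᶠ n in (U : Filter ℕ), rep (w j) n = rep (w l) n := by
            intro h3
            apply hjl
            apply hw1
            rw [← coe_rep (w j), ← coe_rep (w l)]
            exact Germ.coe_eq.2 h3
          rw [← Ultrafilter.eventually_not] at h2
          filter_upwards [h2] with n h3 _
          exact h3
      have h2 : ∀ᶠ n in (U : Filter ℕ), ∀ j : Fin k,
          Sat R φ (update (fun b => rep (v b) n) true (rep (w j) n)) := by
        rw [eventually_all]
        intro j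
        filter_upwards [(ih _).1 (hw2 j)] with n hn
        have h3 : (fun b => rep (update v true (w j) b) n) =
            update (fun b => rep (v b) n) true (rep (w j) n) := by
          funext b
          cases b
          · simp
          · simp
        rw [← h3]
        exact hn
      filter_upwards [h1, h2] with n h3 h4
      refine ⟨fun j => rep (w j) n, fun j l hjl => ?_, h4⟩
      by_contra hne
      exact h3 j l hne hjl
    · intro h
      have h1 : ∀ n, ∃ w : Fin k → ℕ, (∃ w : Fin k → ℕ, Injective w ∧ ∀ j, Sat R φ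
          (update (fun b => rep (v b) n) true (w j))) → Injective w ∧ ∀ j, Sat R φ
          (update (fun b => rep (v b) n) true (w j)) := by
        intro n
        by_cases h2 : ∃ w : Fin k → ℕ, Injective w ∧ ∀ j, Sat R φ
          (update (fun b => rep (v b) n) true (w j))
        · obtain ⟨w, hw⟩ := h2
          exact ⟨w, fun _ => hw⟩
        · exact ⟨fun _ => 0, fun h3 => absurd h3 h2⟩
      choose w hw using h1
      refine ⟨fun j => ((fun n => w n j : ℕ → ℕ) : MU), ?_, ?_⟩
      · intro j l hjl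
        have h2 : ∀ᶠ n in (U : Filter ℕ), w n j = w n l := Germ.coe_eq.1 hjl
        obtain ⟨n, h3, h4⟩ := (h.and h2).exists
        exact (hw n h3).1 h4
      · intro j
        rw [ih]
        filter_upwards [h, rep_coe fun n => w n j] with n h3 h4
        have h5 : (fun b => rep (update v true ((fun n => w n j : ℕ → ℕ) : MU) b) n) =
            update (fun b => rep (v b) n) true (w n j) := by
          funext b
          cases b
          · simp
          · simp [h4]
        rw [h5]
        exact (hw n h3).2 j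
  | sub σ φ ih =>
    simp only [Sat]
    rw [ih]
    rfl

/-- the diagonal embedding -/
noncomputable def dg (n : ℕ) : MU := ((fun _ => n : ℕ → ℕ) : MU)

theorem dg_inj : Injective dg := by
  intro m n h
  have h1 : ∀ᶠ _ in (U : Filter ℕ), m = n := Germ.coe_eq.1 h
  exact h1.exists.choose_spec

theorem tp_dg (R : St a ℕ) (u w : ℕ) : tp (SU R) (dg u) (dg w) = tp R u w := by
  ext φ
  show Sat (SU R) φ (pk (dg u) (dg w)) ↔ Sat R φ (pk u w)
  rw [los]
  have h : ∀ᶠ n in (U : Filter ℕ), (fun b => rep (pk (dg u) (dg w) b) n) = pk u w := by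
    filter_upwards [rep_coe fun _ => u, rep_coe fun _ => w] with n h1 h2
    funext b
    cases b
    · exact h1
    · exact h2
  constructor
  · intro h1
    obtain ⟨n, h2, h3⟩ := (h1.and h).exists
    rw [h3] at h2
    exact h2
  · intro h1
    filter_upwards [h] with n h2
    rw [h2]
    exact h1

theorem los_tp (R : St a ℕ) (φ : Fo a) (u w : MU) :
    φ ∈ tp (SU R) u w ↔ ∀ᶠ n in (U : Filter ℕ), φ ∈ tp R (rep u n) (rep w n) := by
  show Sat (SU R) φ (pk u w) ↔ _
  rw [los]
  have h : ∀ n, (fun b => rep (pk u w b) n) = pk (rep u n) (rep w n) := by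
    intro n
    funext b
    cases b <;> rfl
  simp only [h]
  rfl

/-- saturation of the ultrapower -/
theorem ultra_sat (R : St a ℕ) (u : MU) (s : Set (Fo a)) (k : ℕ)
    (h : ∀ m, Fo.cnt k (fp s m) ∈ tp (SU R) u u) :
    (k : ℕ∞) ≤ {w | tp (SU R) u w = s}.encard := by
  classical
  have h1 : ∀ m, ∀ᶠ n in (U : Filter ℕ), Fo.cnt k (fp s m) ∈ tp R (rep u n) (rep u n) :=
    fun m => (los_tp R _ u u).1 (h m)
  let P : ℕ → ℕ → Prop := fun n m => Fo.cnt k (fp s m) ∈ tp R (rep u n) (rep u n)
  have h2 : ∀ n, ∃ x : Fin k → ℕ, P n (Nat.findGreatest (P n) n) →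
      Injective x ∧ ∀ j, fp s (Nat.findGreatest (P n) n) ∈ tp R (rep u n) (x j) := by
    intro n
    by_cases h3 : P n (Nat.findGreatest (P n) n)
    · obtain ⟨x, hx⟩ := cnt_iff.1 h3
      exact ⟨x, fun _ => hx⟩
    · exact ⟨fun _ => 0, fun h4 => absurd h4 h3⟩
  choose x hx using h2
  have h3 : ∀ m, ∀ᶠ n in (U : Filter ℕ), Injective (x n) ∧
      ∀ j, fp s m ∈ tp R (rep u n) (x n j) := by
    intro m
    have h4 : ∀ᶠ n in (U : Filter ℕ), m ≤ n :=
      (Nat.hyperfilter_le_atTop (eventually_ge_atTop m))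
    filter_upwards [h1 m, h4] with n h5 h6
    have h7 : P n (Nat.findGreatest (P n) n) := Nat.findGreatest_spec h6 h5
    have h8 : m ≤ Nat.findGreatest (P n) n := Nat.le_findGreatest h6 h5
    refine ⟨(hx n h7).1, fun j => ?_⟩
    have h9 := (hx n h7).2 j
    rw [mem_fp] at h9 ⊢
    exact fun l hl => h9 l (by omega)
  let w : Fin k → MU := fun j => ((fun n => x n j : ℕ → ℕ) : MU)
  have hw : Injective w := by
    intro j l hjl
    have h4 : ∀ᶠ n in (U : Filter ℕ), x n j = x n l := Germ.coe_eq.1 hjl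
    obtain ⟨n, h5, h6⟩ := ((h3 0).and h4).exists
    exact h5.1 h6
  have hws : ∀ j, tp (SU R) u (w j) = s := by
    intro j
    apply eq_of_fp
    intro m
    rw [los_tp]
    filter_upwards [h3 m, rep_coe fun n => x n j] with n h4 h5
    show fp s m ∈ tp R (rep u n) (rep ((fun n => x n j : ℕ → ℕ) : MU) n)
    rw [h5]
    exact h4.2 j
  have h4 : (range w).encard = k := by
    rw [← image_univ, hw.encard_image, encard_univ]
    simp
  rw [← h4]
  refine encard_le_encard ?_
  rintro _ ⟨j, rfl⟩
  exact hws j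

end ultra

/-- closing off -/
theorem closing {M ι : Type} [Countable ι] (F : M → ι → Set M) (hF : ∀ u i, (F u i).Countable)
    {A : Set M} (hA : A.Countable) :
    ∃ N : Set M, A ⊆ N ∧ N.Countable ∧ ∀ u ∈ N, ∀ i, F u i ⊆ N := by
  let G : ℕ → Set M := fun n => Nat.rec A (fun _ S => S ∪ ⋃ u ∈ S, ⋃ i, F u i) n
  have hG : ∀ n, (G n).Countable := by
    intro n
    induction n with
    | zero => exact hA
    | succ n ih =>
      exact ih.union (ih.biUnion fun u _ => countable_iUnion fun i => hF u i)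
  refine ⟨⋃ n, G n, subset_iUnion G 0, countable_iUnion hG, ?_⟩
  intro u hu i w hw
  obtain ⟨n, hn⟩ := mem_iUnion.1 hu
  refine mem_iUnion.2 ⟨n + 1, Or.inr ?_⟩
  exact mem_biUnion hn (mem_iUnion.2 ⟨i, hw⟩)

/-- the pulled back structure -/
def pull {M : Type} (R : St a M) (e : ℕ → M) : St a ℕ := fun i t => R i (e ∘ t)

theorem pull_sat {M : Type} {R : St a M} {e : ℕ → M} (he : Injective e)
    (h : ∀ u φ k, Fo.cnt k φ ∈ tp R (e u) (e u) → ∃ x : Fin k → ℕ, Injective x ∧
      ∀ j, φ ∈ tp R (e u) (e (x j))) (φ : Fo a) (v : Bool → ℕ) :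
    Sat (pull R e) φ v ↔ Sat R φ (e ∘ v) := by
  induction φ generalizing v with
  | eq b b' => exact he.eq_iff.symm
  | rel i s => exact Iff.rfl
  | neg φ ih =>
    simp only [Sat]
    rw [ih v]
  | and φ ψ ih1 ih2 =>
    simp only [Sat]
    rw [ih1, ih2]
  | cnt k φ ih =>
    have h1 : ∀ z, e ∘ update v true z = pk (e (v false)) (e z) := by
      intro z
      funext b
      cases b
      · simp [pk]
      · simp [pk]
    have h2 : Sat R (Fo.cnt k φ) (e ∘ v) ↔ Fo.cnt k φ ∈ tp R (e (v false)) (e (v false)) := by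
      have h3 : e ∘ v = pk (e (v false)) (e (v true)) := by
        funext b
        cases b <;> rfl
      rw [h3]
      show Fo.cnt k φ ∈ tp R (e (v false)) (e (v true)) ↔ _
      rw [cnt_iff, cnt_iff]
    rw [h2]
    constructor
    · rintro ⟨w, hw1, hw2⟩
      rw [cnt_iff]
      refine ⟨fun j => e (w j), fun j l hjl => hw1 (he hjl), fun j => ?_⟩
      have h3 := (ih _).1 (hw2 j)
      rw [h1] at h3
      exact h3
    · intro h3
      obtain ⟨x, hx1, hx2⟩ := h _ _ _ h3
      refine ⟨x, hx1, fun j => (ih _).2 ?_⟩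
      rw [h1]
      exact hx2 j
  | sub τ φ ih =>
    simp only [Sat]
    rw [ih]
    rfl

theorem pull_tp {M : Type} {R : St a M} {e : ℕ → M} (he : Injective e)
    (h : ∀ u φ k, Fo.cnt k φ ∈ tp R (e u) (e u) → ∃ x : Fin k → ℕ, Injective x ∧
      ∀ j, φ ∈ tp R (e u) (e (x j))) (u w : ℕ) : tp (pull R e) u w = tp R (e u) (e w) := by
  ext φ
  show Sat (pull R e) φ (pk u w) ↔ Sat R φ (pk (e u) (e w))
  rw [pull_sat he h]
  have : e ∘ pk u w = pk (e u) (e w) := by
    funext b; cases b <;> rfl
  rw [this]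

/-- Countable elementary substructures. -/
theorem skolem {x : Str a} {B : Set (Str a)} (hx : x ∈ B) (hcl : Closed B) (N : Set MU)
    (hN : N.Countable) (hN2 : range dg ⊆ N)
    (h : ∀ u ∈ N, ∀ φ k, Fo.cnt k φ ∈ tp (SU (toS x)) u u →
      (k : ℕ∞) ≤ {w | w ∈ N ∧ φ ∈ tp (SU (toS x)) u w}.encard) :
    ∃ y ∈ B, ∃ e : ℕ ≃ N, ∀ u w, tp (toS y) u w = tp (SU (toS x)) (e u) (e w) := by
  have h1 : Infinite N := by
    refine Infinite.of_injective (fun n : ℕ => (⟨dg n, hN2 ⟨n, rfl⟩⟩ : N)) ?_
    intro m n hmn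
    exact dg_inj (congrArg Subtype.val hmn)
  have h2 : Countable N := hN.to_subtype
  obtain ⟨e⟩ : Nonempty (ℕ ≃ N) := nonempty_equiv_of_countable
  have he : Injective fun n => (e n : MU) := fun m n h => e.injective (Subtype.ext h)
  have h3 : ∀ u w, tp (pull (SU (toS x)) fun n => (e n : MU)) u w =
      tp (SU (toS x)) (e u) (e w) := by
    apply pull_tp he
    intro u φ k hk
    have h4 := h (e u) (e u).2 φ k hk
    obtain ⟨t, ht, hk⟩ := exists_subset_encard_eq h4
    have hf : t.Finite := finite_of_encard_eq_coe hk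
    have h1 : hf.toFinset.card = k := by
      rw [hf.encard_eq_coe_toFinset_card] at hk
      exact_mod_cast hk
    have h5 : ∀ j, ((hf.toFinset.equivFin.symm (Fin.cast h1.symm j) : MU)) ∈ t := fun j =>
      hf.mem_toFinset.1 (hf.toFinset.equivFin.symm (Fin.cast h1.symm j)).2
    refine ⟨fun j => e.symm ⟨hf.toFinset.equivFin.symm (Fin.cast h1.symm j), (ht (h5 j)).1⟩,
      ?_, fun j => ?_⟩
    · intro j l hjl
      have h6 := congrArg Subtype.val (e.symm.injective hjl)
      have h7 := hf.toFinset.equivFin.symm.injective (Subtype.ext h6)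
      simpa using h7
    · simp only [Equiv.apply_symm_apply]
      exact (ht (h5 j)).2
  refine ⟨ofS (pull (SU (toS x)) fun n => (e n : MU)), ?_, e, ?_⟩
  · refine hcl.tp hx (u := 0) (w := e.symm ⟨dg 0, hN2 ⟨0, rfl⟩⟩) ?_
    rw [toS_ofS, h3, Equiv.apply_symm_apply]
    exact (tp_dg _ _ _).symm
  · intro u w
    rw [toS_ofS, h3]

theorem ultra_types {x : Str a} {B : Set (Str a)} (hx : x ∈ B) (hcl : Closed B) (u w : MU) :
    tp (SU (toS x)) u w ∈ S2 B := by
  classical
  let F : MU → Fo a × ℕ → Set MU := fun u p =>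
    if h : Fo.cnt p.2 p.1 ∈ tp (SU (toS x)) u u then range (Classical.choose (cnt_iff.1 h))
    else ∅
  obtain ⟨N, hN1, hN2, hN3⟩ := closing F (by
    intro u p
    show (if h : Fo.cnt p.2 p.1 ∈ tp (SU (toS x)) u u then range (Classical.choose (cnt_iff.1 h))
      else ∅ : Set MU).Countable
    split_ifs
    · exact countable_range _
    · exact countable_empty) (A := {u, w} ∪ range dg)
    (((countable_singleton w).insert u).union (countable_range _))
  obtain ⟨y, hy, e, he⟩ := skolem hx hcl N hN2 (subset_union_right.trans hN1) (by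
    intro u hu φ k hk
    have h1 := hN3 u hu (φ, k)
    have h2 : F u (φ, k) = range (Classical.choose (cnt_iff.1 hk)) := dif_pos hk
    rw [h2] at h1
    have h3 := Classical.choose_spec (cnt_iff.1 hk)
    have h4 : (range (Classical.choose (cnt_iff.1 hk))).encard = k := by
      rw [← image_univ, h3.1.encard_image, encard_univ]
      simp
    rw [← h4]
    refine encard_le_encard ?_
    rintro _ ⟨j, rfl⟩
    exact ⟨h1 ⟨j, rfl⟩, h3.2 j⟩)
  refine ⟨y, hy, e.symm ⟨u, hN1 (Or.inl (by simp))⟩, e.symm ⟨w, hN1 (Or.inl (by simp))⟩, ?_⟩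
  rw [he]
  simp

/-- Every member has a rich extension. -/
theorem rich_ext {x : Str a} {B : Set (Str a)} (hx : x ∈ B) (hcl : Closed B)
    (hS : (S2 B).Countable) :
    ∃ y ∈ B, Rich (toS y) ∧ ∃ e : ℕ → ℕ, Injective e ∧
      ∀ u w, tp (toS y) (e u) (e w) = tp (toS x) u w := by
  classical
  have := hS.to_subtype
  let F : MU → S2 B → Set MU := fun u s =>
    if h : {w | tp (SU (toS x)) u w = s}.Infinite then
      range (fun n => (h.natEmbedding _ n : MU)) else {w | tp (SU (toS x)) u w = s}
  obtain ⟨N, hN1, hN2, hN3⟩ := closing F (by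
    intro u s
    show (if h : {w | tp (SU (toS x)) u w = s}.Infinite then
      range (fun n => (h.natEmbedding _ n : MU)) else
        {w | tp (SU (toS x)) u w = s} : Set MU).Countable
    split_ifs with h
    · exact countable_range _
    · rw [not_infinite] at h
      exact h.countable) (A := range dg) (countable_range _)
  have hCP : ∀ u ∈ N, ∀ w, w ∉ N →
      {w' | w' ∈ N ∧ tp (SU (toS x)) u w' = tp (SU (toS x)) u w}.Infinite := by
    intro u hu w hw
    have h1 := hN3 u hu ⟨_, ultra_types hx hcl u w⟩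
    by_cases h : {w' | tp (SU (toS x)) u w' = tp (SU (toS x)) u w}.Infinite
    · have h2 : F u ⟨_, ultra_types hx hcl u w⟩ =
          range (fun n => (h.natEmbedding _ n : MU)) := dif_pos h
      rw [h2] at h1
      have h3 : (range (fun n => (h.natEmbedding _ n : MU))).Infinite := by
        refine infinite_range_of_injective ?_
        intro m n hmn
        exact (h.natEmbedding _).injective (Subtype.ext hmn)
      refine h3.mono ?_
      rintro _ ⟨n, rfl⟩
      exact ⟨h1 ⟨n, rfl⟩, (h.natEmbedding _ n).2⟩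
    · have h2 : F u ⟨_, ultra_types hx hcl u w⟩ =
          {w' | tp (SU (toS x)) u w' = tp (SU (toS x)) u w} := dif_neg h
      rw [h2] at h1
      exact absurd (h1 rfl) hw
  obtain ⟨y, hy, e, he⟩ := skolem hx hcl N hN2 hN1 (by
    intro u hu φ k hk
    by_cases h : ∀ w, φ ∈ tp (SU (toS x)) u w → w ∈ N
    · have h1 : {w | w ∈ N ∧ φ ∈ tp (SU (toS x)) u w} = {w | φ ∈ tp (SU (toS x)) u w} := by
        ext w
        exact ⟨fun h2 => h2.2, fun h2 => ⟨h w h2, h2⟩⟩
      rw [h1]
      exact cnt_iff_encard.1 hk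
    · push Not at h
      obtain ⟨w, hw1, hw2⟩ := h
      have h1 : {w | w ∈ N ∧ φ ∈ tp (SU (toS x)) u w}.Infinite := by
        refine (hCP u hu w hw2).mono ?_
        rintro w' ⟨h2, h3⟩
        refine ⟨h2, ?_⟩
        rw [h3]
        exact hw1
      rw [h1.encard_eq]
      exact le_top)
  refine ⟨y, hy, ?_, fun n => e.symm ⟨dg n, hN1 ⟨n, rfl⟩⟩, ?_, ?_⟩
  · intro u s k h
    have h1 := ultra_sat (toS x) (e u) s k (by
      intro m
      rw [← he]
      exact h m)
    have h2 : {w | tp (toS y) u w = s}.encard =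
        {w | w ∈ N ∧ tp (SU (toS x)) (e u) w = s}.encard := by
      have h3 : {w | w ∈ N ∧ tp (SU (toS x)) (e u) w = s} =
          (fun n => (e n : MU)) '' {w | tp (toS y) u w = s} := by
        ext w
        constructor
        · rintro ⟨h4, h5⟩
          refine ⟨e.symm ⟨w, h4⟩, ?_, by simp⟩
          show tp (toS y) u (e.symm ⟨w, h4⟩) = s
          rw [he, Equiv.apply_symm_apply]
          exact h5
        · rintro ⟨n, hn, rfl⟩
          refine ⟨(e n).2, ?_⟩
          rw [← he]
          exact hn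
      rw [h3, Injective.encard_image]
      exact fun m n h => e.injective (Subtype.ext h)
    rw [h2]
    by_cases h3 : ∀ w, tp (SU (toS x)) (e u) w = s → w ∈ N
    · have h4 : {w | w ∈ N ∧ tp (SU (toS x)) (e u) w = s} =
          {w | tp (SU (toS x)) (e u) w = s} := by
        ext w
        exact ⟨fun h2 => h2.2, fun h2 => ⟨h3 w h2, h2⟩⟩
      rw [h4]
      exact h1
    · push Not at h3
      obtain ⟨w, hw1, hw2⟩ := h3
      have h4 := hCP (e u) (e u).2 w hw2
      rw [hw1] at h4
      rw [h4.encard_eq]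
      exact le_top
  · intro m n hmn
    exact dg_inj (congrArg Subtype.val (e.symm.injective hmn))
  · intro u w
    rw [he]
    simp only [Equiv.apply_symm_apply]
    exact tp_dg _ _ _

end Pool.Agent.L7h71.CC
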