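import Mathlib

set_option autoImplicit false

/-!
Two-variable logic with counting: syntax, types, and structures given by reference pairs.
-/

namespace Pool.Agent.L7h71.CC

open Function Set

/-- Formulas of two-variable logic with counting. The variables are `false` and `true`. -/
inductive Fo (a : ℕ → ℕ) : Type
  /-- equality -/
  | eq : Bool → Bool → Fo a
  /-- atoms -/
  | rel : (i : ℕ) → (Fin (a i) → Bool) → Fo a
  /-- negation -/
  | neg : Fo a → Fo a
  /-- conjunction -/
  | and : Fo a → Fo a → Fo a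
  /-- there are at least `k` values of the variable `true` such that the formula holds -/
  | cnt : ℕ → Fo a → Fo a
  /-- substitution of variables -/
  | sub : (Bool → Bool) → Fo a → Fo a

variable {a : ℕ → ℕ}

/-- depth -/
def Fo.depth : Fo a → ℕ
  | .eq _ _ => 0
  | .rel _ _ => 0
  | .neg φ => φ.depth + 1
  | .and φ ψ => max φ.depth ψ.depth + 1
  | .cnt _ φ => φ.depth + 1
  | .sub _ φ => φ.depth + 1

instance : Countable (Fo a) := by
  have h : ∀ n, {φ : Fo a | φ.depth ≤ n}.Countable := by
    intro n
    induction n with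
    | zero =>
      have : {φ : Fo a | φ.depth ≤ 0} ⊆ range (fun p : Bool × Bool => Fo.eq p.1 p.2) ∪
          range (fun p : Σ i, (Fin (a i) → Bool) => Fo.rel p.1 p.2) := by
        intro φ hφ
        cases φ with
        | eq b b' => exact Or.inl ⟨(b, b'), rfl⟩
        | rel i s => exact Or.inr ⟨⟨i, s⟩, rfl⟩
        | neg φ => exact absurd hφ (by simp [Fo.depth])
        | and φ ψ => exact absurd hφ (by simp [Fo.depth])
        | cnt k φ => exact absurd hφ (by simp [Fo.depth])
        | sub σ φ => exact absurd hφ (by simp [Fo.depth])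
      exact ((countable_range _).union (countable_range _)).mono this
    | succ n ih =>
      have : {φ : Fo a | φ.depth ≤ n + 1} ⊆ {φ : Fo a | φ.depth ≤ n} ∪
          (Fo.neg '' {φ : Fo a | φ.depth ≤ n} ∪
          ((fun p : Fo a × Fo a => Fo.and p.1 p.2) '' ({φ | φ.depth ≤ n} ×ˢ {φ | φ.depth ≤ n}) ∪
          (((fun p : ℕ × Fo a => Fo.cnt p.1 p.2) '' (univ ×ˢ {φ | φ.depth ≤ n})) ∪
          ((fun p : (Bool → Bool) × Fo a => Fo.sub p.1 p.2) '' (univ ×ˢ {φ | φ.depth ≤ n}))))) := by
        intro φ hφ
        cases φ with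
        | eq b b' => exact Or.inl (by simp [Fo.depth])
        | rel i s => exact Or.inl (by simp [Fo.depth])
        | neg φ => exact Or.inr (Or.inl ⟨φ, by simpa [Fo.depth] using hφ, rfl⟩)
        | and φ ψ =>
          exact Or.inr (Or.inr (Or.inl ⟨(φ, ψ), by simpa [Fo.depth] using hφ, rfl⟩))
        | cnt k φ =>
          exact Or.inr (Or.inr (Or.inr (Or.inl ⟨(k, φ), by simpa [Fo.depth] using hφ, rfl⟩)))
        | sub σ φ =>
          exact Or.inr (Or.inr (Or.inr (Or.inr ⟨(σ, φ), by simpa [Fo.depth] using hφ, rfl⟩)))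
      refine Set.Countable.mono this ?_
      exact ih.union ((ih.image _).union (((ih.prod ih).image _).union
        (((countable_univ.prod ih).image _).union ((countable_univ.prod ih).image _))))
  have h2 : (univ : Set (Fo a)) = ⋃ n, {φ : Fo a | φ.depth ≤ n} := by
    ext φ
    simp only [mem_univ, mem_iUnion, mem_ofPred_eq, true_iff]
    exact ⟨φ.depth, le_rfl⟩
  exact countable_univ_iff.1 (h2 ▸ countable_iUnion h)

/-- structures on a set -/
abbrev St (a : ℕ → ℕ) (M : Type) : Type := (i : ℕ) → (Fin (a i) → M) → Prop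

/-- satisfaction -/
def Sat {M : Type} (R : St a M) : Fo a → (Bool → M) → Prop
  | .eq b b', v => v b = v b'
  | .rel i s, v => R i (v ∘ s)
  | .neg φ, v => ¬ Sat R φ v
  | .and φ ψ, v => Sat R φ v ∧ Sat R ψ v
  | .cnt k φ, v => ∃ w : Fin k → M, Injective w ∧ ∀ j, Sat R φ (update v true (w j))
  | .sub σ φ, v => Sat R φ (v ∘ σ)

/-- the assignment of a pair -/
def pk {M : Type} (u w : M) : Bool → M := fun b => cond b w u

@[simp] theorem pk_false {M : Type} (u w : M) : pk u w false = u := rfl
@[simp] theorem pk_true {M : Type} (u w : M) : pk u w true = w := rfl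

theorem upd_pk {M : Type} (u w z : M) : update (pk u w) true z = pk u z := by
  funext b
  cases b
  · simp [pk]
  · simp [pk]

theorem pk_eta {M : Type} (v : Bool → M) : v = pk (v false) (v true) := by
  funext b
  cases b <;> rfl

theorem pk_comp {M : Type} (u w : M) (σ : Bool → Bool) :
    pk u w ∘ σ = pk (pk u w (σ false)) (pk u w (σ true)) := by
  funext b
  cases b <;> rfl

/-- the type of a pair -/
def tp {M : Type} (R : St a M) (u w : M) : Set (Fo a) := {φ | Sat R φ (pk u w)}

variable {M : Type} {R : St a M}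

theorem mem_tp {φ : Fo a} {u w : M} : φ ∈ tp R u w ↔ Sat R φ (pk u w) := Iff.rfl

/-- the left type -/
def lft (s : Set (Fo a)) : Set (Fo a) := {φ | Fo.sub (fun _ => false) φ ∈ s}

/-- the right type -/
def rgt (s : Set (Fo a)) : Set (Fo a) := {φ | Fo.sub (fun _ => true) φ ∈ s}

/-- the inverse type -/
def inv (s : Set (Fo a)) : Set (Fo a) := {φ | Fo.sub not φ ∈ s}

theorem lft_tp (u w : M) : lft (tp R u w) = tp R u u := by
  ext φ
  show Sat R φ (pk u w ∘ fun _ => false) ↔ Sat R φ (pk u u)
  rw [pk_comp]
  rfl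

theorem rgt_tp (u w : M) : rgt (tp R u w) = tp R w w := by
  ext φ
  show Sat R φ (pk u w ∘ fun _ => true) ↔ Sat R φ (pk w w)
  rw [pk_comp]
  rfl

theorem inv_tp (u w : M) : inv (tp R u w) = tp R w u := by
  ext φ
  show Sat R φ (pk u w ∘ not) ↔ Sat R φ (pk w u)
  rw [pk_comp]
  rfl

theorem tp_left {M' : Type} {R' : St a M'} {u w : M} {u' w' : M'} (h : tp R u w = tp R' u' w') :
    tp R u u = tp R' u' u' := by
  rw [← lft_tp u w, h, lft_tp]

theorem tp_right {M' : Type} {R' : St a M'} {u w : M} {u' w' : M'} (h : tp R u w = tp R' u' w') :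
    tp R w w = tp R' w' w' := by
  rw [← rgt_tp u w, h, rgt_tp]

theorem tp_inv {M' : Type} {R' : St a M'} {u w : M} {u' w' : M'} (h : tp R u w = tp R' u' w') :
    tp R w u = tp R' w' u' := by
  rw [← inv_tp u w, h, inv_tp]

theorem tp_ne {M' : Type} {R' : St a M'} {u w : M} {u' w' : M'} (h : tp R u w = tp R' u' w') :
    u = w ↔ u' = w' := by
  have h1 : (Fo.eq false true ∈ tp R u w) ↔ (Fo.eq false true ∈ tp R' u' w') := by rw [h]
  exact h1

theorem cnt_iff {k : ℕ} {φ : Fo a} {u w : M} : Fo.cnt k φ ∈ tp R u w ↔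
    ∃ x : Fin k → M, Injective x ∧ ∀ j, φ ∈ tp R u (x j) := by
  show (∃ x : Fin k → M, Injective x ∧ ∀ j, Sat R φ (update (pk u w) true (x j))) ↔ _
  simp only [upd_pk]
  rfl

theorem cnt_iff_encard {k : ℕ} {φ : Fo a} {u w : M} : Fo.cnt k φ ∈ tp R u w ↔
    (k : ℕ∞) ≤ {x | φ ∈ tp R u x}.encard := by
  rw [cnt_iff]
  constructor
  · rintro ⟨x, hx, h⟩
    have h1 : (range x).encard = k := by
      rw [← image_univ, hx.encard_image, encard_univ]
      simp
    rw [← h1]
    refine encard_le_encard ?_
    rintro _ ⟨j, rfl⟩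
    exact h j
  · intro h
    obtain ⟨t, ht, hk⟩ := exists_subset_encard_eq h
    have hf : t.Finite := finite_of_encard_eq_coe hk
    have h1 : hf.toFinset.card = k := by
      rw [hf.encard_eq_coe_toFinset_card] at hk
      exact_mod_cast hk
    refine ⟨fun j => (hf.toFinset.equivFin.symm (Fin.cast h1.symm j) : M), ?_, fun j => ?_⟩
    · intro j l hjl
      have := hf.toFinset.equivFin.symm.injective (Subtype.ext hjl)
      simpa using this
    · exact ht (hf.mem_toFinset.1 (hf.toFinset.equivFin.symm (Fin.cast h1.symm j)).2)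

theorem equiv_of_encard {A B : Type} [Countable A] [Countable B]
    (h : (univ : Set A).encard = (univ : Set B).encard) : Nonempty (A ≃ B) := by
  rw [encard_univ, encard_univ] at h
  by_cases hA : Finite A
  · have hB : Finite B := by
      by_contra hB
      rw [not_finite_iff_infinite] at hB
      rw [ENat.card_eq_top_of_infinite (α := B)] at h
      exact (ENat.card_lt_top_of_finite (α := A)).ne h
    have := Fintype.ofFinite A
    have := Fintype.ofFinite B
    rw [ENat.card_eq_coe_fintype_card, ENat.card_eq_coe_fintype_card] at h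
    exact ⟨Fintype.equivOfCardEq (by exact_mod_cast h)⟩
  · rw [not_finite_iff_infinite] at hA
    have hB : Infinite B := by
      rw [← not_finite_iff_infinite]
      intro hB
      rw [ENat.card_eq_top_of_infinite (α := A)] at h
      exact (ENat.card_lt_top_of_finite (α := B)).ne h.symm
    exact nonempty_equiv_of_countable

theorem equiv_of_fibers {A B C : Type} [Countable A] [Countable B] (f : A → C) (g : B → C)
    (h : ∀ c, (f ⁻¹' {c}).encard = (g ⁻¹' {c}).encard) :
    ∃ e : A ≃ B, ∀ x, g (e x) = f x := by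
  have h1 : ∀ c, Nonempty ({x // f x = c} ≃ {x // g x = c}) := by
    intro c
    have h2 := h c
    refine equiv_of_encard ?_
    rw [encard_univ, encard_univ]
    exact h2
  exact ⟨Equiv.ofFiberEquiv fun c => Classical.choice (h1 c), fun x =>
    Equiv.ofFiberEquiv_map _ x⟩

section ref

variable {V : Type}

open Classical in
/-- the structure given by reference pairs -/
noncomputable def mkR (y : St a ℕ) (κ : V → ℕ) (ref : V → V → ℕ × ℕ) : St a V := fun i t =>
  y i fun k => if h : ∃ j, t j ≠ t k then (ref (t k) (t (Classical.choose h))).1 else κ (t k)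

/-- the extended reference pairs -/
noncomputable def rp (κ : V → ℕ) (ref : V → V → ℕ × ℕ) (v w : V) : ℕ × ℕ :=
  open Classical in if v = w then (κ v, κ v) else ref v w

/-- good reference pairs -/
structure Good (y : St a ℕ) (κ : V → ℕ) (ref : V → V → ℕ × ℕ) : Prop where
  swap : ∀ v w, v ≠ w → ref w v = (ref v w).swap
  ne : ∀ v w, v ≠ w → (ref v w).1 ≠ (ref v w).2
  typ : ∀ v w, v ≠ w → tp y (ref v w).1 (ref v w).1 = tp y (κ v) (κ v)
  ex : ∀ v w', w' ≠ v → ∃ w, tp y (κ v) w = tp y (ref v w').1 (ref v w').2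
  cnt : ∀ v w, w ≠ κ v → {w' | w' ≠ v ∧ tp y (ref v w').1 (ref v w').2 = tp y (κ v) w}.encard =
    {w1 | tp y (κ v) w1 = tp y (κ v) w}.encard

variable {y : St a ℕ} {κ : V → ℕ} {ref : V → V → ℕ × ℕ}

theorem Good.bij [Countable V] (h : Good y κ ref) (v : V) :
    ∃ e : V ≃ ℕ, ∀ w, tp y (κ v) (e w) = tp y (rp κ ref v w).1 (rp κ ref v w).2 := by
  classical
  refine equiv_of_fibers (fun w => tp y (rp κ ref v w).1 (rp κ ref v w).2)
    (fun w => tp y (κ v) w) fun s => ?_
  have hd : ∀ w, tp y (κ v) w = tp y (κ v) (κ v) ↔ w = κ v := by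
    intro w
    constructor
    · intro h1
      exact ((tp_ne h1).2 rfl).symm
    · rintro rfl; rfl
  by_cases h1 : s = tp y (κ v) (κ v)
  · have e1 : (fun w => tp y (rp κ ref v w).1 (rp κ ref v w).2) ⁻¹' {s} = {v} := by
      ext w
      simp only [mem_preimage, mem_singleton_iff]
      rw [h1]
      by_cases h2 : v = w
      · subst h2
        simp [rp]
      · simp only [rp, if_neg h2]
        constructor
        · intro h3
          exact absurd ((tp_ne h3).2 rfl) (h.ne v w h2)
        · intro h3
          exact absurd h3.symm h2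
    have e2 : (fun w => tp y (κ v) w) ⁻¹' {s} = {κ v} := by
      ext w
      simp only [mem_preimage, mem_singleton_iff]
      rw [h1]
      exact hd w
    rw [e1, e2, encard_singleton, encard_singleton]
  · by_cases h2 : ∃ w, tp y (κ v) w = s
    · obtain ⟨w, hw⟩ := h2
      have hwv : w ≠ κ v := by
        rintro rfl
        exact h1 hw.symm
      have e1 : (fun w => tp y (rp κ ref v w).1 (rp κ ref v w).2) ⁻¹' {s} =
          {w' | w' ≠ v ∧ tp y (ref v w').1 (ref v w').2 = tp y (κ v) w} := by
        ext w'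
        simp only [mem_preimage, mem_singleton_iff, mem_ofPred_eq]
        rw [hw]
        by_cases h2 : v = w'
        · subst h2
          simp only [rp, if_true, ne_eq, not_true, false_and, iff_false]
          exact fun h3 => h1 h3.symm
        · simp only [rp, if_neg h2, ne_eq, Ne.symm h2, not_false_iff, true_and]
      have e2 : (fun w => tp y (κ v) w) ⁻¹' {s} = {w1 | tp y (κ v) w1 = tp y (κ v) w} := by
        ext w1
        simp only [mem_preimage, mem_singleton_iff, mem_ofPred_eq]
        rw [hw]
      rw [e1, e2]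
      exact h.cnt v w hwv
    · have e1 : (fun w => tp y (rp κ ref v w).1 (rp κ ref v w).2) ⁻¹' {s} = ∅ := by
        ext w'
        simp only [mem_preimage, mem_singleton_iff, mem_empty_iff_false, iff_false]
        intro h3
        by_cases h4 : v = w'
        · subst h4
          simp only [rp, if_true] at h3
          exact h1 h3.symm
        · simp only [rp, if_neg h4] at h3
          obtain ⟨w, hw⟩ := h.ex v w' (Ne.symm h4)
          exact h2 ⟨w, hw.trans h3⟩
      have e2 : (fun w => tp y (κ v) w) ⁻¹' {s} = ∅ := by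
        ext w
        simp only [mem_preimage, mem_singleton_iff, mem_empty_iff_false, iff_false]
        exact fun h3 => h2 ⟨w, h3⟩
      rw [e1, e2]
      simp

theorem Good.typ1 (h : Good y κ ref) (v w : V) :
    tp y (rp κ ref v w).1 (rp κ ref v w).1 = tp y (κ v) (κ v) := by
  classical
  by_cases h1 : v = w
  · simp [rp, h1]
  · simp only [rp, if_neg h1]
    exact h.typ v w h1

theorem Good.rswap (h : Good y κ ref) (v w : V) : rp κ ref w v = (rp κ ref v w).swap := by
  classical
  by_cases h1 : v = w
  · simp [rp, h1]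
  · simp only [rp, if_neg h1, if_neg (Ne.symm h1)]
    exact h.swap v w h1

theorem Good.typ2 (h : Good y κ ref) (v w : V) :
    tp y (rp κ ref v w).2 (rp κ ref v w).2 = tp y (κ w) (κ w) := by
  have h1 := h.typ1 w v
  rw [h.rswap v w] at h1
  exact h1

theorem Good.rel (h : Good y κ ref) (i : ℕ) (s : Fin (a i) → Bool) (v w : V) :
    mkR y κ ref i (pk v w ∘ s) ↔ y i (pk (rp κ ref v w).1 (rp κ ref v w).2 ∘ s) := by
  classical
  unfold mkR
  by_cases h1 : v = w
  · subst h1
    have h2 : ∀ k, ¬ ∃ j, (pk v v ∘ s) j ≠ (pk v v ∘ s) k := by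
      rintro k ⟨j, hj⟩
      apply hj
      simp only [comp, pk]
      cases s j <;> cases s k <;> rfl
    have h3 : (fun k => if h : ∃ j, (pk v v ∘ s) j ≠ (pk v v ∘ s) k then
        (ref ((pk v v ∘ s) k) ((pk v v ∘ s) (Classical.choose h))).1 else κ ((pk v v ∘ s) k)) =
        pk (rp κ ref v v).1 (rp κ ref v v).2 ∘ s := by
      funext k
      rw [dif_neg (h2 k)]
      simp only [comp, rp, if_true]
      cases s k <;> rfl
    rw [h3]
  · have h1' : ∀ b b', pk v w b ≠ pk v w b' ↔ b ≠ b' := by
      intro b b'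
      cases b <;> cases b' <;> simp [pk, h1, Ne.symm h1]
    by_cases h2 : ∃ j l, s j ≠ s l
    · have h3 : ∀ k, ∃ j, (pk v w ∘ s) j ≠ (pk v w ∘ s) k := by
        intro k
        obtain ⟨j, l, hjl⟩ := h2
        by_cases h4 : s j = s k
        · exact ⟨l, (h1' _ _).2 fun h5 => hjl (h4.trans h5.symm)⟩
        · exact ⟨j, (h1' _ _).2 h4⟩
      have h4 : (fun k => if h : ∃ j, (pk v w ∘ s) j ≠ (pk v w ∘ s) k then
          (ref ((pk v w ∘ s) k) ((pk v w ∘ s) (Classical.choose h))).1 else
            κ ((pk v w ∘ s) k)) = pk (rp κ ref v w).1 (rp κ ref v w).2 ∘ s := by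
        funext k
        rw [dif_pos (h3 k)]
        have h5 := Classical.choose_spec (h3 k)
        have h6 : s (Classical.choose (h3 k)) = !s k := by
          have := (h1' _ _).1 h5
          cases hh : s (Classical.choose (h3 k)) <;> cases hk : s k <;> simp_all
        show (ref (pk v w (s k)) (pk v w (s (Classical.choose (h3 k))))).1 = _
        rw [h6]
        simp only [comp, rp, if_neg h1]
        cases s k
        · rfl
        · show (ref w v).1 = (ref v w).2
          rw [h.swap v w h1]
          rfl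
      rw [h4]
    · push Not at h2
      have h3 : ∀ k, ¬ ∃ j, (pk v w ∘ s) j ≠ (pk v w ∘ s) k := by
        rintro k ⟨j, hj⟩
        exact hj (by simp only [comp, h2 j k])
      have h4 : (fun k => if h : ∃ j, (pk v w ∘ s) j ≠ (pk v w ∘ s) k then
          (ref ((pk v w ∘ s) k) ((pk v w ∘ s) (Classical.choose h))).1 else
            κ ((pk v w ∘ s) k)) = fun k => κ (pk v w (s k)) := by
        funext k
        rw [dif_neg (h3 k)]
        rfl
      rw [h4]
      by_cases h5 : ∃ b, ∀ k, s k = b
      · obtain ⟨b, hb⟩ := h5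
        have h6 : ∀ (c d : ℕ), tp y c c = tp y d d →
            (y i (fun _ => c) ↔ y i (fun _ => d)) := by
          intro c d hcd
          have h7 : (Fo.rel i (fun _ => false) ∈ tp y c c) ↔
            (Fo.rel i (fun _ => false) ∈ tp y d d) := by rw [hcd]
          exact h7
        have h8 : (fun k => κ (pk v w (s k))) = fun _ => κ (pk v w b) := by
          funext k; rw [hb]
        have h9 : pk (rp κ ref v w).1 (rp κ ref v w).2 ∘ s =
            fun _ => pk (rp κ ref v w).1 (rp κ ref v w).2 b := by
          funext k; simp only [comp, hb]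
        rw [h8, h9]
        apply h6
        cases b
        · exact (h.typ1 v w).symm
        · exact (h.typ2 v w).symm
      · push Not at h5
        obtain ⟨k, hk⟩ := h5 true
        exact absurd (h2 k (Classical.choose (h5 (s k)))) (fun h6 =>
          Classical.choose_spec (h5 (s k)) h6.symm)

/-- Satisfaction in the structure given by reference pairs. -/
theorem Good.sat [Countable V] (h : Good y κ ref) (φ : Fo a) (v w : V) :
    Sat (mkR y κ ref) φ (pk v w) ↔ Sat y φ (pk (rp κ ref v w).1 (rp κ ref v w).2) := by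
  classical
  induction φ generalizing v w with
  | eq b b' =>
    have h1 : v = w ↔ (rp κ ref v w).1 = (rp κ ref v w).2 := by
      by_cases h1 : v = w
      · simp [rp, h1]
      · simp only [rp, h1, false_iff]
        exact h.ne v w h1
    cases b <;> cases b' <;> simp only [Sat, pk_false, pk_true]
    · exact h1
    · rw [eq_comm, h1, eq_comm]
  | rel i s => exact h.rel i s v w
  | neg φ ih =>
    simp only [Sat]
    rw [ih]
  | and φ ψ ih1 ih2 =>
    simp only [Sat]
    rw [ih1, ih2]
  | cnt k φ ih =>
    obtain ⟨e, he⟩ := h.bij v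
    have h1 : Fo.cnt k φ ∈ tp y (rp κ ref v w).1 (rp κ ref v w).2 ↔
        Fo.cnt k φ ∈ tp y (κ v) (κ v) := by
      have h2 : Fo.cnt k φ ∈ tp y (rp κ ref v w).1 (rp κ ref v w).2 ↔
          Fo.cnt k φ ∈ tp y (rp κ ref v w).1 (rp κ ref v w).1 := by
        rw [cnt_iff, cnt_iff]
      rw [h2, h.typ1]
    show Fo.cnt k φ ∈ tp (mkR y κ ref) v w ↔ Fo.cnt k φ ∈ tp y (rp κ ref v w).1 (rp κ ref v w).2
    rw [h1, cnt_iff, cnt_iff]
    have h3 : ∀ x, φ ∈ tp (mkR y κ ref) v x ↔ φ ∈ tp y (κ v) (e x) := by
      intro x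
      rw [he]
      exact ih v x
    constructor
    · rintro ⟨x, hx1, hx2⟩
      exact ⟨fun j => e (x j), fun j l hjl => hx1 (e.injective hjl), fun j => (h3 _).1 (hx2 j)⟩
    · rintro ⟨x, hx1, hx2⟩
      refine ⟨fun j => e.symm (x j), fun j l hjl => hx1 (e.symm.injective hjl), fun j =>
        (h3 _).2 ?_⟩
      rw [Equiv.apply_symm_apply]
      exact hx2 j
  | sub σ φ ih =>
    show Sat (mkR y κ ref) φ (pk v w ∘ σ) ↔
      Sat y φ (pk (rp κ ref v w).1 (rp κ ref v w).2 ∘ σ)
    rw [pk_comp, pk_comp, ih]
    have key : ∀ c d c' d' : ℕ, tp y c d = tp y c' d' → (Sat y φ (pk c d) ↔ Sat y φ (pk c' d')) :=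
      fun c d c' d' hh => by
        have : φ ∈ tp y c d ↔ φ ∈ tp y c' d' := by rw [hh]
        exact this
    apply key
    cases σ false <;> cases σ true
    · simp only [pk_false]
      have : rp κ ref v v = (κ v, κ v) := by simp [rp]
      rw [this, h.typ1]
    · rfl
    · simp only [pk_false, pk_true]
      rw [h.rswap v w]
      rfl
    · simp only [pk_true]
      have : rp κ ref w w = (κ w, κ w) := by simp [rp]
      rw [this, h.typ2]

theorem Good.tp_eq [Countable V] (h : Good y κ ref) (v w : V) :
    tp (mkR y κ ref) v w = tp y (rp κ ref v w).1 (rp κ ref v w).2 := by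
  ext φ
  exact h.sat φ v w

end ref

end Pool.Agent.L7h71.CC
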